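import Pool.Agent.Lib.MP_d315f4_nt.W.Two

/-!
Moduli that have a prime factor in a given range.
-/

set_option autoImplicit false
set_option maxHeartbeats 400000

open Finset

namespace Pool.Agent.Lib.MP_d315f4_nt.W

variable {a2 a1 a0 : ℤ} {C w : ℝ} {x : ℕ} {h : ℤ}

lemma card_blk {j t : ℕ} (hj : 1 ≤ j) (ht : t ≤ (j + 1) ^ 3) :
    (#((Ioc (j ^ 3) t).filter Nat.Prime) : ℝ) ≤ 7 * j ^ 2 := by
  have : #((Ioc (j ^ 3) t).filter Nat.Prime) ≤ 7 * j ^ 2 := by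
    refine (card_filter_le _ _).trans ?_
    rw [Nat.card_Ioc, tsub_le_iff_left]
    nlinarith
  exact_mod_cast this

lemma rho_div (hC : 0 ≤ C) (H : TypeI a2 a1 a0 C x w) (d : ℕ) :
    ((∑ n ∈ Ioc 0 (x / d), rho a2 a1 a0 n : ℕ) : ℝ) ≤ C * (x / d) :=
  (H.2.2.1 _).trans (mul_le_mul_of_nonneg_left Nat.cast_div_le hC)

lemma block (hI : Irr a2 a1 a0) (hC : 0 ≤ C) (H : TypeI a2 a1 a0 C x w) (h0 : h ≠ 0)
    (hh : |(h : ℝ)| ≤ w) {j : ℕ} (hj : 1 ≤ j) (hjw : (((j + 1) ^ 3 : ℕ) : ℝ) ≤ w) (α : ℕ → ℂ)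
    (hα : ∀ m, ‖α m‖ ≤ 1) :
    ‖∑ m ∈ Ioc 0 (x / j ^ 3), α m * ∑ p ∈ (Ioc (j ^ 3) ((j + 1) ^ 3)).filter Nat.Prime,
      Wn a2 a1 a0 h (m * p)‖ ≤ C * (3 * Kf a2 a1 a0 * (x / j ^ 2) + x / w ^ 2) := by
  have hR := rho_div hC H (j ^ 3)
  obtain ⟨w1, w2, -, H⟩ := H
  have hc := card_blk hj le_rfl
  set P := (Ioc (j ^ 3) ((j + 1) ^ 3)).filter Nat.Prime
  have hP : ∀ p ∈ P, p.Prime ∧ j ^ 3 < p ∧ (p : ℝ) ≤ w := fun p hp => by
    obtain ⟨h1, h2⟩ := mem_filter.1 hp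
    exact ⟨h2, (mem_Ioc.1 h1).1, le_trans (Nat.cast_le.2 (mem_Ioc.1 h1).2) hjw⟩
  have hc2 : (#P : ℝ) ≤ w := le_trans (Nat.cast_le.2 ((card_filter_le _ _).trans
    (by rw [Nat.card_Ioc]; omega))) hjw
  have j1 : 0 < j ^ 3 := by positivity
  have j2 : j ^ 3 ≤ x := by
    have : (j + 1) ^ 3 ≤ x := by exact_mod_cast hjw.trans w2
    exact (Nat.pow_le_pow_left (by omega) 3).trans this
  have j3 : 1 ≤ x / j ^ 3 := (Nat.le_div_iff_mul_le j1).2 (by omega)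
  have j4 := Nat.lt_div_mul_add (a := x) j1
  have k := cs_bound hI h (x / j ^ 3) P (fun p hp => (hP p hp).1) α hα (E := C * (x / w ^ 6))
    (by positivity) hR fun p hp q hq hne => by
      obtain ⟨p1, p2, p3⟩ := hP p hp
      obtain ⟨q1, -, q3⟩ := hP q hq
      have d0 := Nat.mul_pos p1.pos q1.pos
      have d1 : ((p * q : ℕ) : ℝ) ≤ w ^ 2 := by
        push_cast
        rw [sq]
        gcongr
      have := H (x / j ^ 3 * (p * q)) (by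
        have := q1.two_le
        have : j ^ 3 * 2 ≤ p * q := Nat.mul_le_mul p2.le this
        nlinarith) (by
        rw [Nat.cast_mul]
        exact mul_le_mul (Nat.cast_le.2 (Nat.div_le_self _ _)) d1 (by positivity) (by positivity))
        (h * (q - p)) (mul_ne_zero h0 (by omega)) (by
          push_cast
          rw [abs_mul, sq]
          refine mul_le_mul hh (abs_le.2 ⟨?_, ?_⟩) (abs_nonneg _) (by linarith)
          · linarith [Nat.cast_nonneg (α := ℝ) q]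
          · linarith [Nat.cast_nonneg (α := ℝ) p]) (p * q) d0 d1
      rwa [sum_dvd _ _ d0, Nat.mul_div_cancel _ d0] at this
  refine le_of_sq_le_sq (k.trans ?_) (by positivity)
  have j5 : (1 : ℝ) ≤ j := by exact_mod_cast hj
  have x0 : (0 : ℝ) ≤ x := Nat.cast_nonneg _
  have j6 : (x : ℝ) / (j ^ 3 : ℕ) ≤ x := div_le_self x0 (by exact_mod_cast j1)
  have k1 : C * (x / (j ^ 3 : ℕ)) * (Kf a2 a1 a0 ^ 2 * #P * (C * (x / (j ^ 3 : ℕ)))) ≤
      (C * (3 * Kf a2 a1 a0 * (x / j ^ 2))) ^ 2 :=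
    calc _ ≤ C * (x / (j ^ 3 : ℕ)) * (Kf a2 a1 a0 ^ 2 * (9 * j ^ 2) * (C * (x / (j ^ 3 : ℕ)))) := by
          gcongr
          linarith [sq_nonneg (j : ℝ)]
      _ = _ := by push_cast; field_simp; ring
  have k2 : C * (x / (j ^ 3 : ℕ)) * (#P ^ 2 * (C * (x / w ^ 6))) ≤ (C * (x / w ^ 2)) ^ 2 :=
    calc _ ≤ C * x * (w ^ 2 * (C * (x / w ^ 6))) := by gcongr
      _ = _ := by field_simp
  rw [mul_add, mul_add C, add_sq]
  linarith [show 0 ≤ 2 * (C * (3 * Kf a2 a1 a0 * (x / j ^ 2))) * (C * (x / w ^ 2)) by positivity]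

lemma tele (F : ℕ → ℂ) {J r : ℕ} (hJ : J ≤ r) : ∑ p ∈ Ioc (J ^ 3) (r ^ 3), F p =
    ∑ j ∈ Ico J r, ∑ p ∈ Ioc (j ^ 3) ((j + 1) ^ 3), F p := by
  induction r, hJ using Nat.le_induction with
  | base => simp
  | succ r hr ih =>
    rw [sum_Ico_succ_top hr, ← ih, sum_Ioc_consecutive _ (Nat.pow_le_pow_left hr 3)
      (Nat.pow_le_pow_left (by omega) 3)]

lemma sq_le_sum {J r : ℕ} (hJ : J ≤ r) : (r : ℝ) ^ 2 ≤ J ^ 2 + ∑ i ∈ Ioc J r, 2 * (i : ℝ) := by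
  induction r, hJ using Nat.le_induction with
  | base => simp
  | succ r hr ih =>
    rw [sum_Ioc_succ_top hr]
    push_cast
    linarith

lemma maxi (hI : Irr a2 a1 a0) (hC : 0 ≤ C) (H : TypeI a2 a1 a0 C x w) (h0 : h ≠ 0)
    (hh : |(h : ℝ)| ≤ w) {J : ℕ} (hJ : 1 ≤ J) (t : ℕ → ℕ)
    (ht : ∀ m, t m * m ≤ x ∧ (t m : ℝ) ≤ w) (α : ℕ → ℂ) (hα : ∀ m, ‖α m‖ ≤ 1) :
    ‖∑ m ∈ Ioc 0 x, α m * ∑ p ∈ (Ioc (J ^ 3) (t m)).filter Nat.Prime, Wn a2 a1 a0 h (m * p)‖ ≤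
      C * (27 * Kf a2 a1 a0 * (x / J) + x / w) := by
  choose r r1 r2 using fun m => cube_root (t m)
  have w1 := H.1
  obtain ⟨Z, hZ⟩ : ∃ Z, Z = ⌊w⌋₊ := ⟨_, rfl⟩
  have z1 : (Z : ℝ) ≤ w := hZ ▸ Nat.floor_le (by linarith)
  have z2 : ∀ m, r m ≤ Z := fun m => hZ ▸ Nat.le_floor (le_trans (Nat.cast_le.2
    ((Nat.le_self_pow (by norm_num) _).trans (r1 m))) (ht m).2)
  have j1 : (1 : ℝ) ≤ J := by exact_mod_cast hJ
  have restr : ∀ {β : Type} [AddCommMonoid β] (g : ℕ → β) (i : ℕ), 1 ≤ i →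
      (∀ m, ¬ i ≤ r m → g m = 0) → ∑ m ∈ Ioc 0 x, g m = ∑ m ∈ Ioc 0 (x / i ^ 3), g m := by
    intro β _ g i hi hg
    refine (sum_subset (Ioc_subset_Ioc_right (Nat.div_le_self _ _)) fun m hm hm' =>
      hg m fun h1 => hm' (mem_Ioc.2 ⟨(mem_Ioc.1 hm).1, ?_⟩)).symm
    rw [Nat.le_div_iff_mul_le (by positivity), mul_comm]
    exact (Nat.mul_le_mul_right _ ((Nat.pow_le_pow_left h1 3).trans (r1 m))).trans (ht m).1
  have hρ : ∀ i : ℕ, 1 ≤ i → ∑ m ∈ Ioc 0 x, (if i ≤ r m then (rho a2 a1 a0 m : ℝ) else 0) ≤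
      C * (x / i ^ 3) := fun i hi => by
    have := rho_div hC H (i ^ 3)
    push_cast at this
    rw [restr _ i hi fun m hm => if_neg hm]
    refine le_trans (sum_le_sum fun m _ => ?_) this
    split_ifs
    · rfl
    · positivity
  have e : ∀ m, α m * ∑ p ∈ (Ioc (J ^ 3) (t m)).filter Nat.Prime, Wn a2 a1 a0 h (m * p) =
      ∑ j ∈ Ico J Z, (if j < r m then α m else 0) *
        ∑ p ∈ (Ioc (j ^ 3) ((j + 1) ^ 3)).filter Nat.Prime, Wn a2 a1 a0 h (m * p) +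
      if J ≤ r m then α m * ∑ p ∈ (Ioc (r m ^ 3) (t m)).filter Nat.Prime, Wn a2 a1 a0 h (m * p)
        else 0 := fun m => by
    simp only [ite_mul, zero_mul]
    rw [← sum_filter (fun j => j < r m), ← mul_sum, show (Ico J Z).filter (fun j => j < r m) =
      Ico J (r m) by ext; have := z2 m; simp only [mem_filter, mem_Ico]; omega]
    simp only [sum_filter]
    split_ifs with h1
    · rw [← tele _ h1, ← mul_add, sum_Ioc_consecutive _ (Nat.pow_le_pow_left h1 3) (r1 m)]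
    · rw [Ico_eq_empty (by omega), Ioc_eq_empty
        (not_lt.2 ((r2 m).le.trans (Nat.pow_le_pow_left (by omega) 3)))]
      simp
  simp only [e]
  rw [sum_add_distrib, sum_comm]
  have k1 : ∀ j ∈ Ico J Z, ‖∑ m ∈ Ioc 0 x, (if j < r m then α m else 0) *
      ∑ p ∈ (Ioc (j ^ 3) ((j + 1) ^ 3)).filter Nat.Prime, Wn a2 a1 a0 h (m * p)‖ ≤
      C * 3 * Kf a2 a1 a0 * x * ((j : ℝ) ^ 2)⁻¹ + C * (x / w ^ 2) := fun j hj => by
    have hj1 := hJ.trans (mem_Ico.1 hj).1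
    by_cases h1 : (((j + 1) ^ 3 : ℕ) : ℝ) ≤ w
    · rw [restr _ j hj1 fun m hm => by rw [if_neg (by omega), zero_mul]]
      refine (block hI hC H h0 hh hj1 h1 _ fun m => ?_).trans (le_of_eq (by ring))
      split_ifs
      · exact hα m
      · simp
    · rw [sum_eq_zero fun m _ => by
        rw [if_neg fun h2 : j < r m => h1 (le_trans (Nat.cast_le.2
          ((Nat.pow_le_pow_left h2 3).trans (r1 m))) (ht m).2), zero_mul], norm_zero]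
      positivity
  have k2 : ∀ m ∈ Ioc 0 x, ‖if J ≤ r m then α m * ∑ p ∈ (Ioc (r m ^ 3) (t m)).filter Nat.Prime,
      Wn a2 a1 a0 h (m * p) else 0‖ ≤ 7 * Kf a2 a1 a0 *
        (J ^ 2 * (if J ≤ r m then (rho a2 a1 a0 m : ℝ) else 0) +
          ∑ i ∈ Ioc J Z, 2 * i * if i ≤ r m then (rho a2 a1 a0 m : ℝ) else 0) := fun m hm => by
    simp only [mul_ite, mul_zero]
    rw [← sum_filter, ← sum_mul, show (Ioc J Z).filter (fun j => j ≤ r m) =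
      Ioc J (r m) by ext; have := z2 m; simp only [mem_filter, mem_Ioc]; omega]
    split_ifs with h1
    · rw [norm_mul, ← add_mul]
      refine (mul_le_of_le_one_left (norm_nonneg _) (hα m)).trans ((norm_sum_le _ _).trans
        ((sum_le_card_nsmul _ _ _ fun p hp =>
          Wn_mul_norm hI h (mem_Ioc.1 hm).1 (mem_filter.1 hp).2).trans ?_))
      rw [nsmul_eq_mul]
      calc _ ≤ 7 * (J ^ 2 + ∑ i ∈ Ioc J (r m), 2 * (i : ℝ)) *
            (Kf a2 a1 a0 * rho a2 a1 a0 m) := mul_le_mul_of_nonneg_right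
              ((card_blk (hJ.trans h1) (r2 m).le).trans (by linarith [sq_le_sum h1])) (by positivity)
        _ = _ := by ring
    · rw [norm_zero]
      positivity
  have k3 : ∑ j ∈ Ico J Z, ((j : ℝ) ^ 2)⁻¹ ≤ 2 / J := by
    obtain ⟨J, rfl⟩ := Nat.exists_eq_add_of_le' hJ
    exact_mod_cast sum_Ioo_inv_sq_le (α := ℝ) J Z
  have k4 : ∑ i ∈ Ioc J Z, 2 * i * ∑ m ∈ Ioc 0 x, (if i ≤ r m then (rho a2 a1 a0 m : ℝ) else 0) ≤
      2 * C * (x / J) := by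
    refine (sum_le_sum (g := fun i : ℕ => 2 * C * x * ((i : ℝ) ^ 2)⁻¹) fun i hi => ?_).trans ?_
    · have hi1 := hJ.trans (mem_Ioc.1 hi).1.le
      refine (mul_le_mul_of_nonneg_left (hρ i hi1) (by positivity)).trans (le_of_eq ?_)
      field_simp
    · rw [← mul_sum, div_eq_mul_inv, ← mul_assoc]
      refine mul_le_mul_of_nonneg_left ?_ (by positivity)
      rcases le_total J Z with h1 | h1
      · exact (sum_Ioc_inv_sq_le_sub (by omega) h1).trans (sub_le_self _ (by positivity))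
      · rw [Ioc_eq_empty (by omega), sum_empty]
        positivity
  have k5 : (J : ℝ) ^ 2 * ∑ m ∈ Ioc 0 x, (if J ≤ r m then (rho a2 a1 a0 m : ℝ) else 0) ≤
      C * (x / J) :=
    (mul_le_mul_of_nonneg_left (hρ J hJ) (by positivity)).trans (le_of_eq (by field_simp))
  have k6 : (#(Ico J Z) : ℝ) * (C * (x / w ^ 2)) ≤ C * (x / w) :=
    calc _ ≤ w * (C * (x / w ^ 2)) := mul_le_mul_of_nonneg_right
          (le_trans (Nat.cast_le.2 (by rw [Nat.card_Ico]; omega)) z1) (by positivity)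
      _ = _ := by field_simp
  refine (norm_add_le _ _).trans ((add_le_add ((norm_sum_le _ _).trans (sum_le_sum k1))
    ((norm_sum_le _ _).trans (sum_le_sum k2))).trans ?_)
  rw [sum_add_distrib, ← mul_sum, sum_const, nsmul_eq_mul, ← mul_sum, sum_add_distrib, ← mul_sum,
    sum_comm]
  simp only [← mul_sum]
  calc _ ≤ C * 3 * Kf a2 a1 a0 * x * (2 / J) + C * (x / w) +
        7 * Kf a2 a1 a0 * (C * (x / J) + 2 * C * (x / J)) := by gcongr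
    _ = _ := by ring

open Classical in
theorem typeII (hI : Irr a2 a1 a0) (hC : 0 ≤ C) (H : TypeI a2 a1 a0 C x w) (h0 : h ≠ 0)
    (hh : |(h : ℝ)| ≤ w) {J : ℕ} (hJ : 1 ≤ J) {z : ℕ} (hz : (z : ℝ) ≤ w) (c α : ℕ → ℂ)
    (hα : ∀ m, ‖α m‖ ≤ 1) (hc : ∀ m p, 0 < m → p.Prime → J ^ 3 < p → c (m * p) = α m) :
    ‖∑ n ∈ (Ioc 0 x).filter fun n => ∃ p, p.Prime ∧ p ∣ n ∧ J ^ 3 < p ∧ p ≤ z,
      c n * Wn a2 a1 a0 h n‖ ≤ C * (27 * Kf a2 a1 a0 * (x / J) + x / w) := by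
  set Q : ℕ → ℕ → Prop := fun m s => s * m ≤ x ∧ ∀ q, q.Prime → q ∣ m → J ^ 3 < q → s ≤ q
  have t1 : ∀ m, Q m (Nat.findGreatest (Q m) z) := fun m =>
    Nat.findGreatest_spec (Nat.zero_le z) ⟨by simp, fun _ _ _ _ => Nat.zero_le _⟩
  have t2 : ∀ m p, p ≤ Nat.findGreatest (Q m) z → p ≤ z ∧ Q m p := fun m p h1 =>
    ⟨h1.trans (Nat.findGreatest_le z), (Nat.mul_le_mul_right _ h1).trans (t1 m).1,
      fun q a b c => h1.trans ((t1 m).2 q a b c)⟩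
  refine le_trans (le_of_eq (congrArg _ ?_)) (maxi hI hC H h0 hh hJ
    (fun m => Nat.findGreatest (Q m) z)
    (fun m => ⟨(t1 m).1, le_trans (Nat.cast_le.2 (Nat.findGreatest_le z)) hz⟩) α hα)
  simp only [mul_sum]
  rw [sum_sigma']
  have hS : ∀ s ∈ (Ioc 0 x).sigma fun m =>
      (Ioc (J ^ 3) (Nat.findGreatest (Q m) z)).filter Nat.Prime,
      0 < s.1 ∧ s.2.Prime ∧ J ^ 3 < s.2 ∧ s.2 ≤ z ∧ Q s.1 s.2 := fun s hs => by
    obtain ⟨h1, h2⟩ := mem_sigma.1 hs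
    obtain ⟨h3, h4⟩ := mem_filter.1 h2
    exact ⟨(mem_Ioc.1 h1).1, h4, (mem_Ioc.1 h3).1, t2 _ _ (mem_Ioc.1 h3).2⟩
  refine (sum_nbij (fun s => s.1 * s.2) (fun s hs => ?_) (fun s hs s' hs' e => ?_)
    (fun n hn => ?_) fun s hs => ?_).symm
  · obtain ⟨h1, h2, h3, h4, h5, -⟩ := hS s hs
    exact mem_filter.2 ⟨mem_Ioc.2 ⟨Nat.mul_pos h1 h2.pos, mul_comm s.1 _ ▸ h5⟩, s.2, h2,
      dvd_mul_left _ _, h3, h4⟩
  · obtain ⟨-, h2, h3, -, -, h6⟩ := hS s hs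
    obtain ⟨-, h2', h3', -, -, h6'⟩ := hS s' hs'
    obtain ⟨m, p⟩ := s
    obtain ⟨m', p'⟩ := s'
    simp only at *
    obtain rfl : p = p' := by
      by_contra hne
      have hcp := (Nat.coprime_primes h2 h2').2 hne
      exact hne (le_antisymm
        (h6 p' h2' (hcp.symm.dvd_of_dvd_mul_right (e ▸ dvd_mul_left _ _)) h3')
        (h6' p h2 (hcp.dvd_of_dvd_mul_right (e ▸ dvd_mul_left _ _)) h3))
    rw [Nat.eq_of_mul_eq_mul_right h2.pos e]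
  · obtain ⟨h1, h2⟩ := mem_filter.1 hn
    obtain ⟨h3, h4⟩ := mem_Ioc.1 h1
    obtain ⟨p1, ⟨m, hm⟩, p3, p4⟩ := Nat.find_spec h2
    have hm0 : 0 < m := Nat.pos_of_mul_pos_left (hm ▸ h3)
    refine ⟨⟨m, Nat.find h2⟩, mem_coe.2 (mem_sigma.2 ⟨mem_Ioc.2 ⟨hm0,
      (Nat.le_of_dvd h3 (Dvd.intro_left _ hm.symm)).trans h4⟩, mem_filter.2 ⟨mem_Ioc.2 ⟨p3,
      Nat.le_findGreatest p4 ⟨hm ▸ h4, fun q q1 q2 q3 => ?_⟩⟩, p1⟩⟩), (mul_comm _ _).trans hm.symm⟩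
    rcases le_total q z with q4 | q4
    · exact Nat.find_min' h2 ⟨q1, q2.trans (Dvd.intro_left _ hm.symm), q3, q4⟩
    · exact p4.trans q4
  · obtain ⟨h1, h2, h3, -⟩ := hS s hs
    rw [hc _ _ h1 h2 h3]

end Pool.Agent.Lib.MP_d315f4_nt.W
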