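import Pool.Agent.Lib.MP_d315f4_nt.W.Dir

/-!
The bound for the sum over the box.
-/

set_option autoImplicit false
set_option maxHeartbeats 400000

open Finset

namespace Pool.Agent.Lib.MP_d315f4_nt.W

variable {a2 a1 a0 : ℤ}

/-- complex sum over the box. -/
noncomputable def bc (N : ℕ) (F : ℤ → ℤ → ℤ → ℂ) : ℂ :=
  ∑ a ∈ Icc (-(N : ℤ)) N, ∑ b ∈ Icc (-(N : ℤ)) N, ∑ c ∈ range N, F a b (c + 1)

lemma re_bc (N : ℕ) (F : ℤ → ℤ → ℤ → ℂ) (ω : ℂ) :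
    (ω * bc N F).re = bs N fun a b c => (ω * F a b c).re := by
  simp only [bc, bs, mul_sum, Complex.re_sum]

lemma avg (N J : ℕ) (hJ : 0 < J) (V : ℕ → ℤ → ℤ → ℤ → ℝ) (u : ℤ → ℤ → ℤ → ℝ)
    (μ E D : ℝ) (hμ : 0 < μ) (hu : ∀ a b c, |u a b c| ≤ 1)
    (h1 : ∀ j < J, bs N (fun a b c => V j a b c * u a b c) ≤ E)
    (h2 : bs N (fun a b c => |(∑ j ∈ range J, V j a b c) / (J * μ) - 1|) ≤ D) :
    bs N u ≤ E / μ + D := by
  have hJ' : (0 : ℝ) < J := by exact_mod_cast hJ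
  have e : bs N (fun a b c => (∑ j ∈ range J, V j a b c) / (J * μ) * u a b c) =
      1 / (J * μ) * ∑ j ∈ range J, bs N (fun a b c => V j a b c * u a b c) := by
    rw [← bs_sum, ← bs_mul]
    congr 1
    ext a b c
    rw [← sum_mul]
    ring
  have a1 : bs N u ≤ bs N (fun a b c => (∑ j ∈ range J, V j a b c) / (J * μ) * u a b c) + D := by
    refine le_trans ?_ (add_le_add le_rfl h2)
    rw [← bs_add]
    refine bs_mono fun a b c _ _ _ _ => ?_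
    have b1 := neg_abs_le (((∑ j ∈ range J, V j a b c) / (J * μ) - 1) * u a b c)
    rw [abs_mul] at b1
    nlinarith [mul_le_mul_of_nonneg_left (hu a b c)
      (abs_nonneg ((∑ j ∈ range J, V j a b c) / (J * μ) - 1))]
  rw [e] at a1
  have a3 := mul_le_mul_of_nonneg_left (sum_le_sum fun j hj => h1 j (mem_range.1 hj))
    (by positivity : 0 ≤ 1 / (J * μ))
  rw [sum_const, card_range, nsmul_eq_mul, show 1 / (J * μ) * (J * E) = E / μ by field_simp] at a3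
  linarith

lemma num_box {u n L μ : ℝ} (hu : 4 ^ 12 ≤ u) (hn : u ^ 269 ≤ n) (hL : L * u ^ 69 ≤ n)
    (hμ : 1 / u ≤ μ) :
    (100 * ((2 * n + 1) / u ^ 157 / u ^ 25) * (n * (2 * (u ^ 131 * n) + 1)) +
      100 * (2 * n + 1) * (4 * n * (2 * (u ^ 131 * n) / u ^ 200 + L) +
        u ^ 200 * (n * (3 * (2 * (u ^ 131 * n) / u ^ 400 + 1))))) / μ ≤ n ^ 3 / u ^ 28 := by
  have hu1 : 1 ≤ u := by linarith
  have hn1 : 1 ≤ n := (one_le_pow₀ hu1).trans hn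
  have a1 : 2 * n + 1 ≤ 3 * n := by linarith
  have a2 : 2 * (u ^ 131 * n) + 1 ≤ 3 * (u ^ 131 * n) := by
    linarith [one_le_mul_of_one_le_of_one_le (one_le_pow₀ (n := 131) hu1) hn1]
  have a3 : L ≤ n / u ^ 69 := by rwa [le_div_iff₀ (by positivity)]
  have a4 : u ^ 200 ≤ n / u ^ 69 := by rwa [le_div_iff₀ (by positivity), ← pow_add]
  have b1 : 100 * ((2 * n + 1) / u ^ 157 / u ^ 25) * (n * (2 * (u ^ 131 * n) + 1)) ≤
      900 * (n ^ 3 / u ^ 51) :=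
    calc _ ≤ 100 * ((3 * n) / u ^ 157 / u ^ 25) * (n * (3 * (u ^ 131 * n))) := by gcongr
      _ = _ := by field_simp; norm_num
  have b2 : 4 * n * (2 * (u ^ 131 * n) / u ^ 200 + L) +
      u ^ 200 * (n * (3 * (2 * (u ^ 131 * n) / u ^ 400 + 1))) ≤ 21 * n * (n / u ^ 69) := by
    have c1 : 2 * (u ^ 131 * n) / u ^ 200 = 2 * (n / u ^ 69) := by field_simp
    have c2 : u ^ 200 * (n * (3 * (2 * (u ^ 131 * n) / u ^ 400 + 1))) =
        6 * n * (n / u ^ 69) + 3 * n * u ^ 200 := by field_simp; ring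
    rw [c1, c2]
    nlinarith [mul_le_mul_of_nonneg_left a3 (zero_le_one.trans hn1),
      mul_le_mul_of_nonneg_left a4 (zero_le_one.trans hn1)]
  have b3 : 100 * (2 * n + 1) * (21 * n * (n / u ^ 69)) ≤ 6300 * (n ^ 3 / u ^ 51) :=
    calc _ ≤ 100 * (3 * n) * (21 * n * (n / u ^ 51)) := by gcongr; omega
      _ = _ := by ring
  have b4 := mul_le_mul_of_nonneg_left b2 (by positivity : 0 ≤ 100 * (2 * n + 1))
  have b5 : 7200 * (n ^ 3 / u ^ 51) ≤ n ^ 3 / u ^ 28 * (1 / u) := by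
    rw [mul_div_left_comm, div_mul_div_comm, mul_one, div_eq_mul_one_div (n ^ 3), ← pow_succ]
    refine mul_le_mul_of_nonneg_left ?_ (by positivity)
    rw [div_le_div_iff₀ (by positivity) (by positivity), one_mul]
    exact pw hu1 (by linarith) (by omega)
  rw [div_le_iff₀ (lt_of_lt_of_le (by positivity) hμ)]
  linarith [mul_le_mul_of_nonneg_left hμ (by positivity : 0 ≤ n ^ 3 / u ^ 28)]

section
variable (hI : Irr a2 a1 a0) {H0 U e R : ℕ} (hH : 1 ≤ H0) (h2 : |a2| ≤ H0) (h1 : |a1| ≤ H0)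
  (h0 : |a0| ≤ H0) (hR : R = 2 ^ 27) (he : 400 * R ≤ e) (hU : 4 ^ 12 ≤ U) (hU2 : 40 * H0 ^ 2 ≤ U)
  (hUe : 6 * e ≤ U) (I : Finset (ℕ × ℕ)) (ν : ℕ × ℕ → ℤ)
  (hi : ∀ i ∈ I, i.1.Prime ∧ i.2.Prime ∧ U ^ (159 * e) < i.1 ∧ i.1 ≤ U ^ (165 * e) ∧
    U ^ (165 * e) < i.2 ∧ i.2 ≤ U ^ (171 * e) ∧ ((i.1 * i.2 : ℕ) : ℤ) ∣ fv a2 a1 a0 (ν i))
  {y1 t d : ℕ} {h : ℤ} (hyt : y1 ≤ t) (hy1 : U ^ (800 * e) ≤ y1) (hd0 : 0 < d) (hd : d ≤ U)
  (hh0 : h ≠ 0) (hh : |h| ≤ U) (hds : |dsc a2 a1 a0| ≤ U)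
include hI hH h2 h1 h0 hR he hU hU2 hUe hi hyt hy1 hd0 hd hh0 hh hds

omit hI hH h2 h1 h0 hR he hU2 hUe hi hyt hy1 hd0 hd hh0 hh hds in
lemma u_le {ω : ℂ} (hω : ‖ω‖ = 1) (a b c : ℤ) :
    |(ω * Wf a2 a1 a0 (U ^ 12) y1 t d h a b c).re / U ^ 25| ≤ 1 := by
  have hu : (4 : ℝ) ^ 12 ≤ U := by exact_mod_cast hU
  have hu1 : (1 : ℝ) ≤ U := by linarith
  rw [abs_div, abs_of_pos (a := (U : ℝ) ^ 25) (by positivity), div_le_one (by positivity)]
  refine (Complex.abs_re_le_norm _).trans ?_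
  rw [norm_mul, hω, one_mul]
  refine (Wf_norm _ _ _ _ _ _ _ _).trans ?_
  push_cast
  calc _ ≤ (3 * (U : ℝ) ^ 12) * U ^ 12 := by
        gcongr
        linarith [one_le_pow₀ (n := 12) hu1]
    _ = 3 * U ^ 24 := by ring
    _ ≤ _ := pw hu1 (by linarith) le_rfl

open Classical in
lemma dir_at {ω : ℂ} (hω : ‖ω‖ = 1) {j : ℕ} (hj : j < U ^ 65) {N : ℕ} (hN : N = U ^ (300 * e)) :
    bs N (fun a b c => Wt I (fun i => i.1 * i.2) (fun i => xi a2 a1 j (ν i)) (a - j * b) c *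
      ((ω * Wf a2 a1 a0 (U ^ 12) y1 t d h a b c).re / U ^ 25)) ≤
      100 * ((2 * N + 1) / U ^ 157 / U ^ 25) * (N * (2 * (U ^ 131 * N) + 1)) +
        100 * (2 * N + 1) * (4 * N * (2 * (U ^ 131 * N) / U ^ 200 +
          U ^ (291 * e)) + U ^ 200 * (N * (3 * (2 * (U ^ 131 * N) / U ^ 400 + 1)))) := by
  obtain ⟨Y, hY⟩ : ∃ Y, Y = U ^ 131 * N := ⟨_, rfl⟩
  have hR1 : 10000 ≤ R := by rw [hR]; norm_num
  have hu1 : (1 : ℤ) ≤ U := by exact_mod_cast (by omega)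
  have hj0 : (0 : ℤ) ≤ j := Nat.cast_nonneg j
  have c3 : |s0 a2 a1 a0 j| ≤ (U ^ 200 : ℕ) := by
    push_cast
    exact (coef_bd hH h2 h1 h0 hU2 hj).2.2.trans (pow_le_pow_right₀ hu1 (by omega))
  have k0 : (0 : ℤ) ≤ N := Nat.cast_nonneg _
  have k1 : N + j * N + j * N + j ^ 2 * N ≤ (Y : ℤ) := by
    rw [hY]
    push_cast
    exact jbd (by exact_mod_cast (by omega)) hj0 (by exact_mod_cast hj.le) k0
  have k2 := mul_nonneg hj0 k0
  have k3 := mul_nonneg (sq_nonneg (j : ℤ)) k0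
  have k4 := count_bad (hI.shift j) (U ^ 200) (U ^ (291 * e)) (U ^ 400) Y N (by positivity)
    (by positivity) (pow_le_pow_right₀ (by omega) (by omega)) c3 (by
      rw [dsc_shift]; push_cast; exact hds.trans (le_self_pow₀ hu1 (by omega)))
  have m1 : 2 * (Y : ℤ) ≤ (U ^ (440 * e) : ℕ) := by
    rw [hY, hN]
    push_cast
    rw [← pow_add]
    exact pw hu1 (by exact_mod_cast (by omega)) (by omega)
  have key := dir_sum N Y hj0 (by linarith only [k1, k2])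
    (Wt I (fun i => i.1 * i.2) (fun i => xi a2 a1 j (ν i)))
    (fun a b c => (ω * Wf a2 a1 a0 (U ^ 12) y1 t d h a b c).re / U ^ 25) (fun _ _ _ => 0)
    (fun y c => Good (U ^ 200) (U ^ (291 * e)) (U ^ 400)
      (qq (s2 a2 j) (s1 a2 a1 j) (s0 a2 a1 a0 j) y c)) 0
    ((2 * N + 1) / U ^ 157 / U ^ 25) _ 100 le_rfl
    (by positivity) (by norm_num) (fun a b c => (le_abs_self _).trans (u_le hU hω a b c))
    (fun _ _ _ => le_rfl) (fun _ _ => Nat.cast_nonneg _) (fun y c y1 y2 y3 => ?_)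
    (fun y c b1 b2 b3 b4 b5 => ?_) k4
  · rw [zero_mul, zero_add, hY] at key
    simpa only [Nat.cast_pow, Nat.cast_mul] using key
  · have m2 := mul_le_mul_of_nonneg_left y3 (sq_nonneg (j : ℤ))
    have := mult_at hI hH h2 h1 h0 (by omega) hU hU2 I ν hi hj (y - j ^ 2 * c) c (by omega)
      ((abs_sub _ _).trans (by
        rw [abs_of_nonneg (a := _ * c) (by positivity)]; linarith only [m1, m2, y1, k0, k1, k2]))
      (by rw [abs_of_nonneg (zero_le_one.trans y2)]; linarith only [m1, y3, k0, k1, k2, k3])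
    rw [Wt]
    exact_mod_cast this
  · rw [zero_mul, zero_add, ← sum_div, ← Complex.re_sum, ← mul_sum]
    refine div_le_div_of_nonneg_right ((Complex.re_le_norm _).trans ?_) (by positivity)
    rw [norm_mul, hω, one_mul]
    exact line_at hI hH h2 h1 h0 hR he hU hU2 hUe I ν hi hyt hy1 hd0 hd hh0 hh hj hN hY y c b1 b2
      b3 b4 b5

lemma box_at (hμ1 : 200 / U ≤ ∑ i ∈ I, (1 / (i.1 * i.2 : ℕ) : ℝ)) {N : ℕ}
    (hN : N = U ^ (300 * e)) :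
    ‖bc N (Wf a2 a1 a0 (U ^ 12) y1 t d h)‖ ≤ 10 * (N ^ 3 / U ^ 3) := by
  have hR1 : 10000 ≤ R := by rw [hR]; norm_num
  have hu : (4 : ℝ) ^ 12 ≤ U := by exact_mod_cast hU
  have hu1 : (1 : ℝ) < U := by linarith
  have hu0 : (0 : ℝ) < U := by linarith
  obtain ⟨ω, hω, hω2⟩ := Complex.exists_norm_eq_mul_self (bc N (Wf a2 a1 a0 (U ^ 12) y1 t d h))
  have hμ0 : 0 < ∑ i ∈ I, (1 / (i.1 * i.2 : ℕ) : ℝ) := lt_of_lt_of_le (by positivity) hμ1
  have key := avg N (U ^ 65) (by positivity) _ _ _ _ _ hμ0 (u_le hU hω)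
    (fun j hj => dir_at hI hH h2 h1 h0 hR he hU hU2 hUe I ν hi hyt hy1 hd0 hd hh0 hh hds hω hj hN)
    (hN ▸ var_at hI hH h2 h1 h0 (by omega) hU hU2 I ν hi rfl hμ1)
  have hn : (N : ℝ) = U ^ (300 * e) := by rw [hN]; push_cast; rfl
  have n1 : (U : ℝ) ^ 269 ≤ N := hn ▸ pow_le_pow_right₀ hu1.le (by omega)
  have n2 : (1 : ℝ) ≤ N := (one_le_pow₀ hu1.le).trans n1
  have e1 := num_box (L := U ^ (291 * e)) hu n1 (by
      rw [hn, ← pow_add]; exact pow_le_pow_right₀ hu1.le (by omega))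
    (le_trans (by gcongr; norm_num) hμ1)
  have e2 : vol N ≤ 9 * N ^ 3 := by
    rw [vol]
    calc _ ≤ (3 * (N : ℝ)) ^ 2 * N := by gcongr; linarith
      _ = _ := by ring
  have e3 := mul_le_mul_of_nonneg_right e2 (by positivity : (0 : ℝ) ≤ 1 / U ^ 28)
  have e4 : ‖bc N (Wf a2 a1 a0 (U ^ 12) y1 t d h)‖ = U ^ 25 * bs N fun a b c =>
      (ω * Wf a2 a1 a0 (U ^ 12) y1 t d h a b c).re / U ^ 25 := by
    rw [← bs_mul, ← Complex.ofReal_re ‖_‖, hω2, re_bc]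
    congr 1
    ext a b c
    field_simp
  rw [e4]
  calc _ ≤ (U : ℝ) ^ 25 * (N ^ 3 / U ^ 28 + 9 * N ^ 3 * (1 / U ^ 28)) :=
        mul_le_mul_of_nonneg_left (by linarith) (by positivity)
    _ = _ := by field_simp; ring

end

end Pool.Agent.Lib.MP_d315f4_nt.W
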