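import Pool.Agent.Lib.MP_d315f4_nt.W.Blk

/-!
Moduli without small prime factors.
-/

set_option autoImplicit false
set_option maxHeartbeats 400000

open Finset

namespace Pool.Agent.Lib.MP_d315f4_nt.W

variable {a2 a1 a0 : ℤ} {C w : ℝ} {x : ℕ} {h : ℤ}

lemma bonf (v r : ℕ) : ‖(if v = 0 then (1 : ℂ) else 0) -
    ∑ i ∈ range (r + 1), (-1) ^ i * (v.choose i : ℂ)‖ ≤ v.choose (r + 1) := by
  rcases v with _ | n
  · simp [sum_range_succ']
  · have := congrArg (Int.cast : ℤ → ℂ) (Int.alternating_sum_range_choose_eq_choose (n := n) (m := r))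
    push_cast at this
    rw [this, if_neg (by omega), zero_sub, norm_neg, norm_mul, norm_pow, norm_neg, norm_one, one_pow,
      one_mul, Complex.norm_natCast, Nat.choose_succ_succ]
    exact_mod_cast Nat.le_add_right _ _

lemma subsets {β : Type} [Semiring β] (P : Finset ℕ) (hP : ∀ p ∈ P, p.Prime) (n i : ℕ) (g : β) :
    ∑ S ∈ powersetCard i P, (if ∏ p ∈ S, p ∣ n then g else 0) =
      (#(P.filter (· ∣ n))).choose i * g := by
  rw [← sum_filter, sum_const, nsmul_eq_mul, ← card_powersetCard]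
  congr 3
  ext S
  simp only [mem_filter, mem_powersetCard]
  constructor
  · rintro ⟨⟨h1, h2⟩, h3⟩
    exact ⟨fun p hp => mem_filter.2 ⟨h1 hp, (dvd_prod_of_mem _ hp).trans h3⟩, h2⟩
  · rintro ⟨h1, h2⟩
    exact ⟨⟨fun p hp => (mem_filter.1 (h1 hp)).1, h2⟩, prod_primes_dvd _
      (fun p hp => (hP p (mem_filter.1 (h1 hp)).1).prime) fun p hp => (mem_filter.1 (h1 hp)).2⟩

lemma rho_prod (hI : Irr a2 a1 a0) (S : Finset ℕ) (hS : ∀ p ∈ S, p.Prime) {m : ℕ} (hm : 0 < m) :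
    (rho a2 a1 a0 (m * ∏ p ∈ S, p) : ℝ) ≤ Kf a2 a1 a0 ^ #S * rho a2 a1 a0 m := by
  induction S using Finset.induction_on with
  | empty => simp
  | insert p S hp ih =>
    have h1 : ∀ q ∈ S, q.Prime := fun q hq => hS q (mem_insert_of_mem hq)
    rw [prod_insert hp, card_insert_of_notMem hp, mul_comm p, ← mul_assoc, pow_succ', mul_assoc (_ : ℝ)]
    exact (rho_mul hI (Nat.mul_pos hm (prod_pos fun q hq => (h1 q hq).pos))
      (hS p (mem_insert_self _ _))).trans (mul_le_mul_of_nonneg_left (ih h1) (Nat.cast_nonneg _))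

open Classical in
theorem brun (hI : Irr a2 a1 a0) (hC : 0 ≤ C) (H : TypeI a2 a1 a0 C x w) (h0 : h ≠ 0)
    (hh : |(h : ℝ)| ≤ w) {y Y r : ℕ} (hy : y ≤ Y) (hY : 2 ≤ Y) (hr : (Y : ℝ) ^ (r + 1) ≤ w ^ 2) :
    ‖∑ n ∈ (Ioc 0 x).filter fun n => ∀ p, p.Prime → p ∣ n → y < p, Wn a2 a1 a0 h n‖ ≤
      C * (x / w + x * Real.exp (3 * Kf a2 a1 a0 * (1 + Real.log Y) - r)) := by
  have w1 := H.1
  set P := (Ioc 0 y).filter Nat.Prime
  have hP : ∀ p ∈ P, p.Prime := fun p hp => (mem_filter.1 hp).2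
  have hP2 : ∀ p ∈ P, p ≤ Y := fun p hp => (mem_Ioc.1 (mem_filter.1 hp).1).2.trans hy
  have hc : #P ≤ Y := (card_filter_le _ _).trans (by rw [Nat.card_Ioc]; omega)
  have hS : ∀ i, ∀ S ∈ powersetCard i P, (∀ p ∈ S, p.Prime) ∧ #S = i ∧ 0 < ∏ p ∈ S, p ∧
      ∏ p ∈ S, p ≤ Y ^ i := fun i S hS => by
    obtain ⟨h1, rfl⟩ := mem_powersetCard.1 hS
    exact ⟨fun p hp => hP p (h1 hp), rfl, prod_pos fun p hp => (hP p (h1 hp)).pos,
      prod_le_pow_card _ _ _ fun p hp => hP2 p (h1 hp)⟩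
  have e1 : ∀ n, (∀ p, p.Prime → p ∣ n → y < p) ↔ #(P.filter (· ∣ n)) = 0 := fun n => by
    simp only [card_eq_zero, filter_eq_empty_iff, P, mem_filter, mem_Ioc]
    exact ⟨fun H p hp hd => absurd (H p hp.2 hd) (not_lt.2 hp.1.2),
      fun H p hp hd => not_le.1 fun h1 => H ⟨⟨hp.pos, h1⟩, hp⟩ hd⟩
  have e2 : ∑ n ∈ (Ioc 0 x).filter fun n => ∀ p, p.Prime → p ∣ n → y < p, Wn a2 a1 a0 h n =
      ∑ i ∈ range (r + 1), (-1) ^ i * ∑ S ∈ powersetCard i P, ∑ n ∈ Ioc 0 x,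
        (if ∏ p ∈ S, p ∣ n then Wn a2 a1 a0 h n else 0) +
      ∑ n ∈ Ioc 0 x, ((if #(P.filter (· ∣ n)) = 0 then (1 : ℂ) else 0) - ∑ i ∈ range (r + 1),
        (-1) ^ i * ((#(P.filter (· ∣ n))).choose i : ℂ)) * Wn a2 a1 a0 h n := by
    have e3 : ∀ i, ∑ S ∈ powersetCard i P, ∑ n ∈ Ioc 0 x,
        (if ∏ p ∈ S, p ∣ n then Wn a2 a1 a0 h n else 0) = ∑ n ∈ Ioc 0 x,
          (#(P.filter (· ∣ n))).choose i * Wn a2 a1 a0 h n := fun i =>
      sum_comm.trans (sum_congr rfl fun n _ => subsets P hP n i _)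
    simp only [e3, mul_sum]
    rw [sum_comm, ← sum_add_distrib, sum_filter]
    refine sum_congr rfl fun n _ => ?_
    simp only [e1, sub_mul, sum_mul, mul_assoc, ite_mul, one_mul, zero_mul, add_sub_cancel]
  have k1 : ∀ i ∈ range (r + 1), ‖(-1) ^ i * ∑ S ∈ powersetCard i P, ∑ n ∈ Ioc 0 x,
      (if ∏ p ∈ S, p ∣ n then Wn a2 a1 a0 h n else 0)‖ ≤ (Y ^ i : ℕ) * (C * (x / w ^ 6)) := by
    intro i hi
    rw [norm_mul, norm_pow, norm_neg, norm_one, one_pow, one_mul]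
    refine (norm_sum_le _ _).trans ((sum_le_card_nsmul _ _ _ fun S hS' => H.2.2.2 x le_rfl
      (le_mul_of_one_le_right (Nat.cast_nonneg _) (one_le_pow₀ w1)) h h0
      (hh.trans (le_self_pow₀ w1 two_ne_zero)) _ (hS i S hS').2.2.1 (le_trans ?_ hr)).trans ?_)
    · exact_mod_cast (hS i S hS').2.2.2.trans
        (Nat.pow_le_pow_right (by omega) (mem_range.1 hi).le)
    · rw [nsmul_eq_mul, card_powersetCard]
      exact mul_le_mul_of_nonneg_right (Nat.cast_le.2 ((Nat.choose_le_pow _ _).trans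
        (Nat.pow_le_pow_left hc _))) (by positivity)
  have k2 : ∑ i ∈ range (r + 1), (Y ^ i : ℕ) * (C * (x / w ^ 6)) ≤ C * (x / w) := by
    rw [← sum_mul, ← Nat.cast_sum]
    have : ((∑ i ∈ range (r + 1), Y ^ i : ℕ) : ℝ) ≤ w ^ 5 := le_trans (by
      exact_mod_cast (Nat.geomSum_lt hY fun k hk => mem_range.1 hk).le)
      (hr.trans (pow_le_pow_right₀ w1 (by norm_num)))
    exact (mul_le_mul_of_nonneg_right this (by positivity)).trans (le_of_eq (by field_simp))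
  have k3 : ∀ S ∈ powersetCard (r + 1) P, ∑ n ∈ Ioc 0 x,
      (if ∏ p ∈ S, p ∣ n then (rho a2 a1 a0 n : ℝ) else 0) ≤ C * x * Real.exp (-r) *
        ∏ p ∈ S, (3 * Kf a2 a1 a0 / p : ℝ) := fun S hS' => by
    obtain ⟨s1, s2, s3, -⟩ := hS _ S hS'
    have := rho_div hC H (∏ p ∈ S, p)
    rw [Nat.cast_sum] at this
    rw [sum_dvd _ _ s3, prod_div_distrib, prod_const, ← Nat.cast_prod]
    refine (sum_le_sum fun m hm => rho_prod hI S s1 (mem_Ioc.1 hm).1).trans ?_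
    rw [← mul_sum, s2, mul_pow]
    have e3 : 1 ≤ Real.exp (-r) * 3 ^ (r + 1) := by
      rw [Real.exp_neg, le_inv_mul_iff₀ (Real.exp_pos _), mul_one, ← Real.exp_one_pow]
      exact (pow_le_pow_left₀ (Real.exp_pos _).le (by linarith [Real.exp_one_lt_d9]) r).trans
        (pow_le_pow_right₀ (by norm_num) (by omega))
    calc _ ≤ Real.exp (-r) * 3 ^ (r + 1) * (Kf a2 a1 a0 ^ (r + 1) *
          (C * (x / (∏ p ∈ S, p : ℕ)))) := (mul_le_mul_of_nonneg_left this (by positivity)).trans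
            (le_mul_of_one_le_left (by positivity) e3)
      _ = _ := by ring
  have k4 : ∑ S ∈ powersetCard (r + 1) P, ∏ p ∈ S, (3 * Kf a2 a1 a0 / p : ℝ) ≤
      Real.exp (3 * Kf a2 a1 a0 * (1 + Real.log Y)) := by
    refine (sum_le_sum_of_subset_of_nonneg (t := P.powerset)
      (fun S hS => mem_powerset.2 (mem_powersetCard.1 hS).1) fun _ _ _ => by positivity).trans ?_
    rw [← prod_one_add]
    refine (prod_le_prod (fun _ _ => by positivity) fun p _ =>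
      (add_comm _ _).le.trans (Real.add_one_le_exp _)).trans ?_
    rw [← Real.exp_sum]
    simp only [div_eq_mul_inv, ← mul_sum]
    gcongr
    refine le_trans ?_ (harmonic_le_one_add_log Y)
    rw [harmonic_eq_sum_Icc]
    push_cast
    exact sum_le_sum_of_subset_of_nonneg (fun p hp => mem_Icc.2 ⟨(hP p hp).pos, hP2 p hp⟩)
      fun _ _ _ => by positivity
  rw [e2, mul_add]
  refine (norm_add_le _ _).trans (add_le_add ((norm_sum_le _ _).trans ((sum_le_sum k1).trans k2))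
    ((norm_sum_le _ _).trans ((sum_le_sum fun n _ => ((norm_mul_le _ _).trans (mul_le_mul
      (bonf _ r) (Wn_norm h n) (norm_nonneg _) (Nat.cast_nonneg _))).trans
      (subsets P hP n _ _).ge).trans ?_)))
  rw [sum_comm]
  refine (sum_le_sum k3).trans ?_
  rw [← mul_sum, sub_eq_neg_add, Real.exp_add, ← mul_assoc, ← mul_assoc]
  gcongr

open Classical in
theorem rough (hI : Irr a2 a1 a0) : ∃ η c C : ℝ, 0 < η ∧ 0 < c ∧ ∀ x : ℕ, 1 ≤ x → ∀ h : ℤ, h ≠ 0 →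
    |(h : ℝ)| ≤ x ^ η → ∀ z : ℕ, (z : ℝ) ≤ x ^ η →
      ‖∑ n ∈ (Ioc 0 x).filter fun n => ∀ p, p.Prime → p ∣ n → z < p, Wn a2 a1 a0 h n‖ ≤
        C * x * Real.exp (-(c * √(Real.log x))) := by
  obtain ⟨η, C, hη, hC, H⟩ := typeI hI
  obtain ⟨K, hK⟩ : ∃ K : ℝ, K = Kf a2 a1 a0 := ⟨_, rfl⟩
  have K0 : 0 ≤ K := hK ▸ Nat.cast_nonneg _
  refine ⟨η, √(η / (63 * K + 9)), C * (27 * K + 3), hη, by positivity,
    fun x hx h h0 hh z hz => ?_⟩
  replace H := H x hx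
  have hx1 : (1 : ℝ) ≤ x := by exact_mod_cast hx
  obtain ⟨u, hu⟩ : ∃ u, u = √(η / (63 * K + 9)) * √(Real.log x) := ⟨_, rfl⟩
  have u2 : (x : ℝ) ^ η = Real.exp ((63 * K + 9) * u ^ 2) := by
    rw [hu, mul_pow, Real.sq_sqrt (by positivity), Real.sq_sqrt (Real.log_nonneg hx1),
      Real.rpow_def_of_pos (by linarith)]
    congr 1
    field_simp
  rw [← hu]
  generalize (x : ℝ) ^ η = w at H hh hz u2
  have e3 : Real.exp 1 ≤ 3 := by linarith [Real.exp_one_lt_d9]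
  rcases lt_or_ge u 1 with u1 | u1
  · have := H.2.2.1 x
    rw [Nat.cast_sum] at this
    refine (norm_sum_le _ _).trans ((sum_le_sum fun n _ => Wn_norm h n).trans
      ((sum_le_sum_of_subset_of_nonneg (filter_subset _ _) fun _ _ _ => Nat.cast_nonneg _).trans
      (this.trans ?_)))
    have : 1 ≤ (27 * K + 3) * Real.exp (-u) := by
      rw [Real.exp_neg, le_mul_inv_iff₀ (Real.exp_pos _)]
      linarith [Real.exp_le_exp.2 u1.le]
    calc _ ≤ C * x * ((27 * K + 3) * Real.exp (-u)) := le_mul_of_one_le_right (by positivity) this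
      _ = _ := by ring
  obtain ⟨J, hJ⟩ : ∃ J, J = ⌈Real.exp u⌉₊ := ⟨_, rfl⟩
  have e2 : 2 ≤ Real.exp u := by linarith [Real.add_one_le_exp u]
  have j1 : Real.exp u ≤ J := hJ ▸ Nat.le_ceil _
  have j2 : (J : ℝ) ≤ Real.exp (2 * u) := by
    rw [two_mul, Real.exp_add]
    have := hJ ▸ Nat.ceil_lt_add_one (Real.exp_pos u).le
    nlinarith
  have j3 : 2 ≤ J := by exact_mod_cast e2.trans j1
  have j4 : ((J ^ 3 : ℕ) : ℝ) ≤ Real.exp (6 * u) := by
    push_cast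
    refine (pow_le_pow_left₀ (by positivity) j2 3).trans (le_of_eq ?_)
    rw [← Real.exp_nat_mul]
    congr 1
    push_cast
    ring
  have j5 : 2 ≤ J ^ 3 := j3.trans (Nat.le_self_pow (by norm_num) _)
  have j6 : Real.log (J ^ 3 : ℕ) ≤ 6 * u := (Real.log_le_iff_le_exp (by positivity)).2 j4
  obtain ⟨r, hr⟩ : ∃ r, r = ⌈(21 * K + 1) * u⌉₊ := ⟨_, rfl⟩
  have r1 : (21 * K + 1) * u ≤ r := hr ▸ Nat.le_ceil _
  have r2 : (r : ℝ) < (21 * K + 1) * u + 1 := hr ▸ Nat.ceil_lt_add_one (by positivity)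
  have b1 : (x : ℝ) / w ≤ x * Real.exp (-u) := by
    rw [u2, div_eq_mul_inv, ← Real.exp_neg]
    gcongr
    nlinarith [mul_nonneg K0 (sq_nonneg u)]
  have b2 : (x : ℝ) / J ≤ x * Real.exp (-u) := by
    rw [Real.exp_neg, ← div_eq_mul_inv]
    gcongr
  have b3 : ∀ y ≤ J ^ 3, ‖∑ n ∈ (Ioc 0 x).filter fun n => ∀ p, p.Prime → p ∣ n → y < p,
      Wn a2 a1 a0 h n‖ ≤ C * (2 * (x * Real.exp (-u))) := fun y hy => by
    refine (brun hI hC H h0 hh (r := r) hy j5 ?_).trans ?_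
    · refine (pow_le_pow_left₀ (by positivity) j4 _).trans ?_
      rw [u2, ← Real.exp_nat_mul, ← Real.exp_nat_mul, Real.exp_le_exp]
      push_cast
      nlinarith
    · rw [two_mul, ← hK]
      gcongr
      nlinarith [mul_le_mul_of_nonneg_left j6 K0, mul_le_mul_of_nonneg_left u1 K0]
  have b4 : 0 ≤ C * (x * Real.exp (-u)) := by positivity
  rcases le_total z (J ^ 3) with z1 | z1
  · refine (b3 z z1).trans ?_
    nlinarith [mul_nonneg K0 b4]
  have b5 := typeII hI hC H h0 hh (by omega : 1 ≤ J) hz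
    (fun n => if ∀ p, p.Prime → p ∣ n → J ^ 3 < p then 1 else 0)
    (fun n => if ∀ p, p.Prime → p ∣ n → J ^ 3 < p then 1 else 0)
    (fun m => by split_ifs <;> simp) fun m p _ hp hp' => if_congr
      ⟨fun H q h1 h2 => H q h1 (h2.mul_right _), fun H q h1 h2 => (h1.dvd_mul.1 h2).elim (H q h1)
        fun h3 => (Nat.prime_dvd_prime_iff_eq h1 hp).1 h3 ▸ hp'⟩ rfl rfl
  have b6 := (norm_sub_le _ _).trans (add_le_add (b3 _ le_rfl) b5)
  rw [← hK, sum_filter, sum_filter, ← sum_sub_distrib] at b6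
  rw [sum_filter]
  refine le_trans (le_of_eq (congrArg _ (sum_congr rfl fun n _ => ?_))) (b6.trans ?_)
  · by_cases h1 : ∃ p, p.Prime ∧ p ∣ n ∧ J ^ 3 < p ∧ p ≤ z
    · obtain ⟨p, p1, p2, p3, p4⟩ := id h1
      rw [if_pos h1, if_neg fun H : ∀ p, p.Prime → p ∣ n → z < p => absurd (H p p1 p2) (by omega)]
      split_ifs <;> simp
    · rw [if_neg h1, sub_zero]
      exact if_congr ⟨fun H p p1 p2 => z1.trans_lt (H p p1 p2), fun H p p1 p2 =>
        not_le.1 fun h2 => h1 ⟨p, p1, p2, H p p1 p2, h2⟩⟩ rfl rfl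
  · calc _ ≤ C * (2 * (x * Real.exp (-u))) +
          C * (27 * K * (x * Real.exp (-u)) + x * Real.exp (-u)) := by gcongr
      _ = _ := by ring

end Pool.Agent.Lib.MP_d315f4_nt.W
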