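import Pool.Agent.Lib.MP_d315f4_nt.W.Loc
import Pool.Agent.Lib.MP_d315f4_nt.Line

/-!
The congruence conditions on one line.
-/

set_option autoImplicit false
set_option maxHeartbeats 400000

open Finset

namespace Pool.Agent.Lib.MP_d315f4_nt.W

/-- first cofactor. -/
def g1 (a0 y b c : ℤ) : ℤ := y ^ 4 - a0 * y ^ 2 * b * c + a0 ^ 2 * y * c ^ 3

/-- second cofactor. -/
def g2 (a2 a1 a0 y b c : ℤ) : ℤ :=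
  a0 * y ^ 6 - a2 * a1 * y ^ 6 + a1 ^ 2 * y ^ 5 * b + a2 * a0 * y ^ 5 * b + a1 * a0 * y ^ 5 * c
    + a2 ^ 2 * a0 * y ^ 5 * c - 2 * a1 * a0 * y ^ 4 * b ^ 2 - 3 * a0 ^ 2 * y ^ 4 * b * c
    - a2 * a1 * a0 * y ^ 4 * b * c - a1 ^ 2 * a0 * y ^ 4 * c ^ 2 - 3 * a2 * a0 ^ 2 * y ^ 4 * c ^ 2
    + a0 ^ 2 * y ^ 3 * b ^ 3 + a2 * a0 ^ 2 * y ^ 3 * b ^ 2 * c + 5 * a1 * a0 ^ 2 * y ^ 3 * b * c ^ 2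
    + 4 * a0 ^ 3 * y ^ 3 * c ^ 3 + a2 * a1 * a0 ^ 2 * y ^ 3 * c ^ 3
    - 3 * a0 ^ 3 * y ^ 2 * b ^ 2 * c ^ 2 - 2 * a2 * a0 ^ 3 * y ^ 2 * b * c ^ 3
    - 3 * a1 * a0 ^ 3 * y ^ 2 * c ^ 4 + 3 * a0 ^ 4 * y * b * c ^ 4 + a2 * a0 ^ 4 * y * c ^ 5
    - a0 ^ 5 * c ^ 6

/-- the data of a line. -/
structure LD where
  a2 : ℤ
  a1 : ℤ
  a0 : ℤ
  y : ℤ
  c : ℤ
  o : ℤ
  k : ℤ
  ε : ℤ
  Q : ℕ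

namespace LD

variable (Λ : LD)

/-- the norm. -/
def N (b : ℤ) : ℤ := nm Λ.a2 Λ.a1 Λ.a0 Λ.y (b - Λ.o) Λ.c

/-- the modulus. -/
def n (b : ℤ) : ℤ := Λ.N b / Λ.k

/-- the numerator. -/
def D (b : ℤ) : ℤ := Λ.ε * DD Λ.a2 Λ.a1 Λ.a0 Λ.y (b - Λ.o) Λ.c

/-- cofactor of the linear condition. -/
def H2 (b σ : ℤ) : ℤ := Λ.k * g1 Λ.a0 Λ.y (b - Λ.o) Λ.c +
  σ * ((b - Λ.o) * Λ.Q + 2 * Λ.c * Λ.D b) + Λ.c * Λ.n b * σ ^ 2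

/-- cofactor of the cubic condition. -/
def H1 (b σ : ℤ) : ℤ := Λ.k * (Λ.ε * g2 Λ.a2 Λ.a1 Λ.a0 Λ.y (b - Λ.o) Λ.c) +
  σ * (3 * Λ.D b ^ 2 + 2 * Λ.a2 * Λ.D b * Λ.Q + Λ.a1 * Λ.Q ^ 2) +
  Λ.n b * σ ^ 2 * (3 * Λ.D b + Λ.a2 * Λ.Q) + Λ.n b ^ 2 * σ ^ 3

/-- the full condition. -/
def C (m : ℕ) (b σ : ℤ) : Prop :=
  (m : ℤ) ∣ Λ.D b + Λ.n b * σ ∧ (m : ℤ) ^ 2 ∣ Λ.H2 b σ ∧ (m : ℤ) ^ 3 ∣ Λ.H1 b σ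

/-- the condition at a modulus prime to `n`. -/
def C' (m : ℕ) (b σ : ℤ) : Prop := IsCoprime (Λ.n b) m ∧ (m : ℤ) ∣ Λ.D b + Λ.n b * σ

/-- `k` divides the norm. -/
def E (b : ℤ) : Prop := Λ.k ∣ Λ.N b

lemma N_cong {M b b' : ℤ} (h : b' ≡ b [ZMOD M]) : Λ.N b' ≡ Λ.N b [ZMOD M] := by
  unfold N nm
  gcongr

lemma D_cong {M b b' : ℤ} (h : b' ≡ b [ZMOD M]) : Λ.D b' ≡ Λ.D b [ZMOD M] := by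
  unfold D DD
  gcongr

lemma n_cong (hk : Λ.k ≠ 0) {M b b' : ℤ} (h : b' ≡ b [ZMOD Λ.k * M]) :
    Λ.n b' ≡ Λ.n b [ZMOD M] := by
  obtain ⟨z, hz⟩ := (Λ.N_cong h).symm.dvd
  have : Λ.N b' = Λ.N b + Λ.k * (M * z) := by linear_combination hz
  unfold n
  rw [this, Int.add_mul_ediv_left _ _ hk]
  exact (Int.modEq_iff_dvd.2 ⟨z, by ring⟩).symm

lemma shift_cong (M : ℕ) (b : ℤ) : b + (M * Λ.k.natAbs : ℕ) ≡ b [ZMOD Λ.k * M] := by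
  refine (Int.modEq_iff_dvd.2 ?_).symm
  rw [add_sub_cancel_left, Nat.cast_mul, mul_comm (M : ℤ)]
  exact mul_dvd_mul (Int.dvd_natAbs.2 dvd_rfl) dvd_rfl

lemma E_per (M : ℕ) (b : ℤ) : Λ.E (b + (M * Λ.k.natAbs : ℕ)) ↔ Λ.E b :=
  (Λ.N_cong ((Λ.shift_cong M b).of_mul_right _)).dvd_iff

lemma C_per (hk : Λ.k ≠ 0) (m : ℕ) (b σ : ℤ) :
    Λ.C m (b + (m ^ 3 * Λ.k.natAbs : ℕ)) σ ↔ Λ.C m b σ := by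
  have h := Λ.shift_cong (m ^ 3) b
  generalize b + (m ^ 3 * Λ.k.natAbs : ℕ) = b' at h
  have h1 := Λ.n_cong hk h
  have h2 := h.of_mul_left
  have h3 := Λ.D_cong h2
  rw [Nat.cast_pow] at h1 h2 h3
  have e0 : Λ.D b' + Λ.n b' * σ ≡ Λ.D b + Λ.n b * σ [ZMOD (m : ℤ) ^ 3] := by gcongr
  have e1 : Λ.H2 b' σ ≡ Λ.H2 b σ [ZMOD (m : ℤ) ^ 3] := by
    unfold H2 g1
    gcongr
  have e2 : Λ.H1 b' σ ≡ Λ.H1 b σ [ZMOD (m : ℤ) ^ 3] := by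
    unfold H1 g2
    gcongr
  exact and_congr (e0.of_dvd (dvd_pow_self _ (by norm_num))).dvd_iff
    (and_congr (e1.of_dvd (pow_dvd_pow _ (by norm_num))).dvd_iff e2.dvd_iff)

lemma C'_per (hk : Λ.k ≠ 0) (m : ℕ) (b σ : ℤ) :
    Λ.C' m (b + (m * Λ.k.natAbs : ℕ)) σ ↔ Λ.C' m b σ := by
  have h := Λ.shift_cong m b
  generalize b + (m * Λ.k.natAbs : ℕ) = b' at h
  have h1 := Λ.n_cong hk h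
  have h3 := Λ.D_cong h.of_mul_left
  have e0 : Λ.D b' + Λ.n b' * σ ≡ Λ.D b + Λ.n b * σ [ZMOD m] := by gcongr
  refine and_congr ?_ e0.dvd_iff
  obtain ⟨z, hz⟩ := h1.symm.dvd
  rw [show Λ.n b' = Λ.n b + m * z by linear_combination hz, IsCoprime.add_mul_left_left_iff]

lemma C_mul (m m' : ℕ) (hc : m.Coprime m') (b σ : ℤ) :
    Λ.C (m * m') b σ ↔ Λ.C m b σ ∧ Λ.C m' b σ := by
  have h := Nat.isCoprime_iff_coprime.2 hc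
  simp only [C, Nat.cast_mul, mul_pow]
  exact ⟨fun ⟨a, b, c⟩ => ⟨⟨dvd_of_mul_right_dvd a, dvd_of_mul_right_dvd b, dvd_of_mul_right_dvd c⟩,
    dvd_of_mul_left_dvd a, dvd_of_mul_left_dvd b, dvd_of_mul_left_dvd c⟩,
    fun ⟨⟨a, b, c⟩, a', b', c'⟩ => ⟨h.mul_dvd a a', h.pow.mul_dvd b b', h.pow.mul_dvd c c'⟩⟩

lemma C'_mul (m m' : ℕ) (hc : m.Coprime m') (b σ : ℤ) :
    Λ.C' (m * m') b σ ↔ Λ.C' m b σ ∧ Λ.C' m' b σ := by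
  have h := Nat.isCoprime_iff_coprime.2 hc
  simp only [C', Nat.cast_mul, IsCoprime.mul_right_iff]
  exact ⟨fun ⟨⟨a, a'⟩, b⟩ => ⟨⟨a, dvd_of_mul_right_dvd b⟩, a', dvd_of_mul_left_dvd b⟩,
    fun ⟨⟨a, b⟩, a', b'⟩ => ⟨⟨a, a'⟩, h.mul_dvd b b'⟩⟩

lemma C_one (b σ : ℤ) : Λ.C 1 b σ := by simp [C]

lemma C'_one (b σ : ℤ) : Λ.C' 1 b σ := by simp [C', isCoprime_one_right]

lemma C'_σ (m : ℕ) (b σ : ℤ) : Λ.C' m b (σ + m) ↔ Λ.C' m b σ :=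
  and_congr Iff.rfl (dvd_iff_dvd_of_dvd_sub ⟨Λ.n b, by ring⟩)

lemma C_σ (m : ℕ) (hm : m ∣ Λ.Q) (b σ : ℤ) : Λ.C m b (σ + m) ↔ Λ.C m b σ := by
  obtain ⟨m', hm'⟩ := hm
  have hQ : (Λ.Q : ℤ) = m * m' := by exact_mod_cast hm'
  have h0 : (m : ℤ) ∣ Λ.D b + Λ.n b * (σ + m) ↔ (m : ℤ) ∣ Λ.D b + Λ.n b * σ :=
    dvd_iff_dvd_of_dvd_sub ⟨Λ.n b, by ring⟩
  unfold C
  rw [h0]
  refine and_congr_right fun ⟨X, hX⟩ => and_congr (dvd_iff_dvd_of_dvd_sub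
    ⟨(b - Λ.o) * m' + 2 * Λ.c * X + Λ.c * Λ.n b, ?_⟩) (dvd_iff_dvd_of_dvd_sub
    ⟨3 * X ^ 2 + 2 * Λ.a2 * X * m' + Λ.a1 * m' ^ 2 + Λ.n b * (3 * X + Λ.a2 * m') + Λ.n b ^ 2, ?_⟩)
  · simp only [H2, hQ]
    linear_combination (2 * Λ.c * m) * hX
  · have : Λ.D b = m * X - Λ.n b * σ := by linear_combination hX
    simp only [H1, hQ, this]
    ring

variable {Λ}

section
variable (hε : Λ.ε * Λ.ε = 1) (hQ : (Λ.Q : ℤ) = Λ.ε * qq Λ.a2 Λ.a1 Λ.a0 Λ.y Λ.c) {b : ℤ}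
  (hE : Λ.E b)
include hE

lemma N_eq : Λ.N b = Λ.k * Λ.n b := (Int.mul_ediv_cancel' hE).symm

include hε hQ

lemma Ah_eq (σ : ℤ) :
    Ah Λ.y (b - Λ.o) Λ.c (Λ.D b + Λ.n b * σ) Λ.Q = Λ.n b * Λ.H2 b σ := by
  have h1 : Ah Λ.y (b - Λ.o) Λ.c (DD Λ.a2 Λ.a1 Λ.a0 Λ.y (b - Λ.o) Λ.c)
      (qq Λ.a2 Λ.a1 Λ.a0 Λ.y Λ.c) = Λ.N b * g1 Λ.a0 Λ.y (b - Λ.o) Λ.c := by
    unfold N
    generalize b - Λ.o = t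
    simp only [Ah, DD, qq, nm, g1]
    ring
  rw [N_eq hE] at h1
  simp only [Ah, H2, D, hQ] at h1 ⊢
  linear_combination (Λ.ε * Λ.ε) * h1 + (Λ.k * Λ.n b * g1 Λ.a0 Λ.y (b - Λ.o) Λ.c) * hε

lemma hom_eq (σ : ℤ) :
    hom Λ.a2 Λ.a1 Λ.a0 (Λ.D b + Λ.n b * σ) Λ.Q = Λ.n b * Λ.H1 b σ := by
  have h1 : hom Λ.a2 Λ.a1 Λ.a0 (DD Λ.a2 Λ.a1 Λ.a0 Λ.y (b - Λ.o) Λ.c)
      (qq Λ.a2 Λ.a1 Λ.a0 Λ.y Λ.c) = Λ.N b * g2 Λ.a2 Λ.a1 Λ.a0 Λ.y (b - Λ.o) Λ.c := by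
    unfold N
    generalize b - Λ.o = t
    simp only [hom, DD, qq, nm, g2]
    ring
  rw [N_eq hE] at h1
  simp only [hom, H1, D, hQ] at h1 ⊢
  linear_combination (Λ.ε * Λ.ε * Λ.ε) * h1 +
    (Λ.ε * Λ.k * Λ.n b * g2 Λ.a2 Λ.a1 Λ.a0 Λ.y (b - Λ.o) Λ.c) * hε

lemma C_iff (hn : Λ.n b ≠ 0) {m m' : ℕ} (hm : 0 < m) (hmm : Λ.Q = m * m') {σ X : ℤ}
    (hX : Λ.D b + Λ.n b * σ = m * X) : Λ.C m b σ ↔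
      Λ.n b ∣ Ah Λ.y (b - Λ.o) Λ.c X m' ∧ Λ.n b ∣ hom Λ.a2 Λ.a1 Λ.a0 X m' := by
  have h1 := Ah_eq hε hQ hE σ
  have h2 := hom_eq hε hQ hE σ
  have hm' : (m : ℤ) ≠ 0 := by positivity
  rw [hX, hmm, Nat.cast_mul] at h1 h2
  have h3 : (m : ℤ) ^ 2 * Ah Λ.y (b - Λ.o) Λ.c X m' = Λ.n b * Λ.H2 b σ := by
    rw [← h1, Ah, Ah]; ring
  have h4 : (m : ℤ) ^ 3 * hom Λ.a2 Λ.a1 Λ.a0 X m' = Λ.n b * Λ.H1 b σ := by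
    rw [← h2, hom, hom]; ring
  refine ⟨fun ⟨_, ⟨s, hs⟩, t, ht⟩ => ⟨⟨s, mul_left_cancel₀ (pow_ne_zero 2 hm') ?_⟩,
    t, mul_left_cancel₀ (pow_ne_zero 3 hm') ?_⟩,
    fun ⟨⟨s, hs⟩, t, ht⟩ => ⟨⟨X, hX⟩, ⟨s, mul_left_cancel₀ hn ?_⟩, t, mul_left_cancel₀ hn ?_⟩⟩
  · rw [h3, hs]; ring
  · rw [h4, ht]; ring
  · rw [← h3, hs]; ring
  · rw [← h4, ht]; ring

lemma C_card (hk : Λ.k ≠ 0) (hn : Λ.n b ≠ 0) {m m' : ℕ} (hmm : Λ.Q = m * m') (hc : m.Coprime m')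
    (S : Finset ℕ) (hS : S ⊆ range m) (h : ∀ σ ∈ S, Λ.C m b σ) : #S ≤ Λ.k.natAbs := by
  refine card_le_of_dvd hk S hS fun σ hσ σ' hσ' => ?_
  have hm : 0 < m := by have := mem_range.1 (hS hσ); omega
  obtain ⟨X, hX⟩ := (h σ hσ).1
  obtain ⟨X', hX'⟩ := (h σ' hσ').1
  obtain ⟨a1, a2⟩ := (C_iff hε hQ hE hn hm hmm hX).1 (h σ hσ)
  obtain ⟨a3, a4⟩ := (C_iff hε hQ hE hn hm hmm hX').1 (h σ' hσ')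
  obtain ⟨z, hz⟩ := det_dvd hn (N_eq hE) a1 a2 a3 a4
  refine (Nat.isCoprime_iff_coprime.2 hc).pow_right.dvd_of_dvd_mul_left (y := (m' : ℤ) ^ 7)
    ⟨z, mul_left_cancel₀ hn ?_⟩
  linear_combination m * hz + (m' : ℤ) ^ 7 * Λ.k * (hX' - hX)

lemma C_iff_C' {m : ℕ} (hm : m ∣ Λ.Q) (hc : IsCoprime (Λ.n b) m) (σ : ℤ) :
    Λ.C m b σ ↔ Λ.C' m b σ := by
  refine ⟨fun h => ⟨hc, h.1⟩, fun ⟨_, X, hX⟩ => ⟨⟨X, hX⟩, ?_, ?_⟩⟩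
  · obtain ⟨m', hm'⟩ := hm
    refine hc.symm.pow_left.dvd_of_dvd_mul_left ⟨Ah Λ.y (b - Λ.o) Λ.c X m', ?_⟩
    rw [← Ah_eq hε hQ hE, hX, hm', Nat.cast_mul, Ah, Ah]
    ring
  · obtain ⟨m', hm'⟩ := hm
    refine hc.symm.pow_left.dvd_of_dvd_mul_left ⟨hom Λ.a2 Λ.a1 Λ.a0 X m', ?_⟩
    rw [← hom_eq hε hQ hE, hX, hm', Nat.cast_mul, hom, hom]
    ring

end

lemma C'_card {m : ℕ} {b : ℤ} (S : Finset ℕ) (hS : S ⊆ range m) (h : ∀ σ ∈ S, Λ.C' m b σ) :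
    #S ≤ 1 := by
  refine card_le_of_dvd (k := 1) one_ne_zero S hS fun σ hσ σ' hσ' => ?_
  exact (h σ hσ).1.symm.dvd_of_dvd_mul_left
    ((dvd_sub (h σ' hσ').2 (h σ hσ).2).trans (dvd_of_eq (by ring)))

end LD

/-- the sum over the roots modulo `n` that are killed by a lattice point. -/
noncomputable def Rt (a2 a1 a0 y b c : ℤ) (n : ℕ) (h : ℤ) : ℂ :=
  ∑ ν ∈ range n, if (n : ℤ) ∣ fv a2 a1 a0 ν ∧ (n : ℤ) ∣ y + b * ν + c * (ν : ℤ) ^ 2 then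
    ee (h * (ν : ℤ) / n) else 0

lemma Rt_eq {Λ : LD} (hε : Λ.ε * Λ.ε = 1) (hQ : (Λ.Q : ℤ) = Λ.ε * qq Λ.a2 Λ.a1 Λ.a0 Λ.y Λ.c)
    {b : ℤ} (hE : Λ.E b) (hQ0 : 0 < Λ.Q) {n : ℕ} (hn : 0 < n) (hnn : Λ.n b = n) (h : ℤ) :
    Rt Λ.a2 Λ.a1 Λ.a0 Λ.y (b - Λ.o) Λ.c n h =
      ee (h * Λ.D b / (n * Λ.Q)) * TT Λ.C Λ.E Λ.Q h b := by
  classical
  have hQ' : (Λ.Q : ℤ) ≠ 0 := by positivity
  have hn' : (n : ℝ) ≠ 0 := by positivity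
  have hQr : (Λ.Q : ℝ) ≠ 0 := by positivity
  set V : ℤ → Prop := fun ν => (n : ℤ) ∣ fv Λ.a2 Λ.a1 Λ.a0 ν ∧
    (n : ℤ) ∣ Λ.y + (b - Λ.o) * ν + Λ.c * ν ^ 2 with hV
  have hVp : ∀ ν ν' : ℤ, ν ≡ ν' [ZMOD n] → V ν → V ν' := fun ν ν' e ⟨a1, a2⟩ =>
    ⟨(show fv Λ.a2 Λ.a1 Λ.a0 ν ≡ fv Λ.a2 Λ.a1 Λ.a0 ν' [ZMOD n] by unfold fv; gcongr).dvd_iff.1 a1,
      (show Λ.y + (b - Λ.o) * ν + Λ.c * ν ^ 2 ≡ Λ.y + (b - Λ.o) * ν' + Λ.c * ν' ^ 2 [ZMOD n] by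
        gcongr).dvd_iff.1 a2⟩
  have key := two_param hn hQ0 (Λ.D b)
    (fun X => if ∃ ν, X = Λ.Q * ν ∧ V ν then ee (h * X / (n * Λ.Q : ℕ)) else 0)
    (fun X => if_congr ⟨fun ⟨ν, a1, a2⟩ => ⟨ν - n, by push_cast at a1; linear_combination a1,
        hVp _ _ (Int.modEq_iff_dvd.2 ⟨-1, by ring⟩) a2⟩,
      fun ⟨ν, a1, a2⟩ => ⟨ν + n, by push_cast; linear_combination a1,
        hVp _ _ (Int.modEq_iff_dvd.2 ⟨1, by ring⟩) a2⟩⟩ (ee_per (Nat.mul_pos hn hQ0) h X) rfl)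
    (fun X hX => if_neg fun ⟨ν, a1, _⟩ => hX ⟨ν, a1⟩)
    (fun X hX => if_neg fun ⟨ν, a1, a2⟩ => hX (by
      have := (root_dvd a2.1 a2.2).2.1.mul_left Λ.ε
      rw [a1, hQ, LD.D]
      exact this.trans (dvd_of_eq (by ring))))
  rw [TT, if_pos hE, mul_sum, Rt]
  refine Eq.trans (sum_congr rfl fun ν _ => ?_) (key.trans (sum_congr rfl fun σ _ => ?_))
  · refine if_congr ⟨fun a => ⟨ν, rfl, a⟩, fun ⟨ν', a1, a2⟩ =>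
      mul_left_cancel₀ hQ' a1 ▸ a2⟩ ?_ rfl
    congr 1
    push_cast
    field_simp
  · rw [mul_ite, mul_zero]
    have hn0 : Λ.n b ≠ 0 := by rw [hnn]; positivity
    have e : ∀ X : ℤ, Λ.D b + n * σ = Λ.Q * X → (Λ.C Λ.Q b σ ↔ V X) := fun X hX => by
      rw [LD.C_iff hε hQ hE hn0 hQ0 (m' := 1) (mul_one _).symm (X := X) (by rw [hnn, hX]), hnn,
        and_comm]
      simp [hV, Ah, hom, fv]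
    refine if_congr ⟨fun ⟨ν, a1, a2⟩ => (e ν a1).2 a2, fun a => ?_⟩ ?_ rfl
    · obtain ⟨X, hX⟩ := a.1
      rw [hnn] at hX
      exact ⟨X, hX, (e X hX).1 a⟩
    · rw [← ee_add]
      congr 1
      push_cast
      field_simp

end Pool.Agent.Lib.MP_d315f4_nt.W
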