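import Pool.Agent.Lib.MP_d315f4_nt.W.Sum
import Pool.Agent.Lib.MP_d315f4_nt.Box

/-!
Numerical parameters; the bound on a good line.
-/

set_option autoImplicit false
set_option maxHeartbeats 400000

open Finset

namespace Pool.Agent.Lib.MP_d315f4_nt.W

variable {a2 a1 a0 : ℤ}

lemma par_at {U e R : ℕ} (hU : 4 ^ 12 ≤ U) (hR : R = 2 ^ 27) (he : 400 * R ≤ e) (hUe : 6 * e ≤ U) :
    Par (U ^ 200) (U ^ (291 * e)) (U ^ 400) (U ^ (159 * e)) (U ^ (165 * e)) (U ^ (901 * e))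
      (U ^ (577 * e)) (U ^ (145 * e)) (U ^ (96 * e)) (U ^ (48 * e)) (U ^ (292 * e)) (U ^ 12)
      (U ^ (8 * e)) R (2 * (U ^ (300 * e) : ℕ) + 1) (1 / U ^ 400) := by
  have h1 : 1 < U := by omega
  have hR1 : 10000 ≤ R := by rw [hR]; norm_num
  have hu : (4 : ℝ) ^ 12 ≤ U := by exact_mod_cast hU
  have hu1 : (1 : ℝ) ≤ U := by exact_mod_cast h1.le
  have hRU : 6 * (R : ℝ) ≤ U := by exact_mod_cast (by omega)
  refine ⟨?_, ?_, ?_, by positivity, ?_, ?_, ?_, by positivity, ?_, ?_, by positivity, ?_, ?_, ?_,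
    ?_, ?_, ?_, hR, ?_, ?_, ?_, by positivity, ?_, ?_, ?_⟩
  · simp only [← pow_add]; exact pow_le_pow_right₀ h1.le (by omega)
  · simp only [← pow_mul]; exact pow_le_pow_right₀ h1.le (by omega)
  · exact pow_lt_pow_right₀ h1 (by omega)
  · simp only [← pow_add]; exact pow_le_pow_right₀ h1.le (by omega)
  · exact pow_le_pow_right₀ h1.le (by omega)
  · simp only [← pow_add]; exact pow_le_pow_right₀ h1.le (by omega)
  · simp only [← pow_mul]; exact pow_le_pow_right₀ h1.le (by omega)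
  · simp only [← pow_add]; exact pow_le_pow_right₀ h1.le (by omega)
  · simp only [← pow_mul]; exact pow_le_pow_right₀ h1.le (by omega)
  · simp only [← pow_mul]; exact pow_le_pow_right₀ h1.le (by omega)
  · simp only [← pow_mul, ← pow_add]; exact pow_le_pow_right₀ h1.le (by omega)
  · simp only [← pow_add]; exact pow_le_pow_right₀ h1.le (by omega)
  · simp only [← pow_add]; exact pow_le_pow_right₀ h1.le (by omega)
  · exact pow_lt_pow_right₀ h1 (by omega)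
  · exact lt_of_lt_of_le (by omega) (le_self_pow₀ h1.le (by omega))
  · exact pow_le_pow_right₀ h1.le (by omega)
  · push_cast
    rw [← pow_add, show 8 * e + 292 * e = 300 * e by omega]
    linarith [pow_nonneg (zero_le_one.trans hu1) (300 * e)]
  · rw [div_le_one (by positivity)]
    exact one_le_pow₀ hu1
  · push_cast
    rw [one_div_pow, ← pow_mul, one_div_mul_eq_div, le_div_iff₀ (by positivity), one_mul]
    exact pow_le_pow_right₀ hu1 (by omega)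
  · intro P a1 a2
    have b1 : (U : ℝ) ^ (159 * e) ≤ P := by exact_mod_cast a1
    have b2 : (P : ℝ) ≤ U ^ (577 * e) := by exact_mod_cast a2
    have b0 : (0 : ℝ) < P := lt_of_lt_of_le (by positivity) b1
    have b3 := log_pw hu1 577 e b0 b2
    have b4 : √P ≤ U ^ (289 * e) := Real.sqrt_le_iff.2 ⟨by positivity, b2.trans (by
      rw [← pow_mul]; exact pow_le_pow_right₀ hu1 (by omega))⟩
    have b5 : (U : ℝ) ^ (79 * e) ≤ √P := Real.le_sqrt_of_sq_le (le_trans (by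
      rw [← pow_mul]; exact pow_le_pow_right₀ hu1 (by omega)) b1)
    have b6 : (U : ℝ) ^ (300 * e) ≤ 2 * (U ^ (300 * e) : ℕ) + 1 := by
      push_cast
      linarith [pow_nonneg (zero_le_one.trans hu1) (300 * e)]
    generalize (2 * (U ^ (300 * e) : ℕ) + 1 : ℝ) = l at *
    have b7 : 0 ≤ l := le_trans (by positivity) b6
    rw [one_div_pow, ← pow_mul, one_div_mul_eq_div, le_div_iff₀ (by positivity)]
    have c1 : l / P * (3 * R * √P) * U ^ (400 * R) ≤ l / 2 := by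
      have d1 := (pw hu1 hRU (a := 400 * R) (b := 79 * e) (by omega)).trans b5
      have d2 : l / P * √P * √P = l := by rw [mul_assoc, Real.mul_self_sqrt b0.le]; field_simp
      have d3 := mul_le_mul_of_nonneg_left d1 (by positivity : 0 ≤ l / P * √P)
      linarith
    have c2 : (1 + Real.log P) * (3 * R * √P) * U ^ (400 * R) ≤ l / 2 := by
      have d1 := (pw hu1 (show 578 ≤ (U : ℝ) by linarith) (a := e + 289 * e + 400 * R + 1)
        (b := 300 * e) (by omega)).trans b6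
      have d2 : (1 + Real.log P) * √P * U ^ (400 * R) * (6 * R) ≤
          ((577 : ℕ) + 1) * U ^ e * U ^ (289 * e) * U ^ (400 * R) * U := by gcongr
      rw [pow_add, pow_add, pow_add, pow_one] at d1
      generalize (U : ℝ) ^ (400 * R) = v at d1 d2 ⊢
      push_cast at d2 ⊢
      linarith
    linarith

lemma num_line {u l J : ℝ} (hu : 4 ^ 12 ≤ u) (hl : u ^ 200 ≤ l) (hJ0 : 0 ≤ J) (hJ : J ≤ u) :
    (2 * u ^ 12 + 1) * (14 * ((u ^ 12) ^ 19 * (4 * (1 / u ^ 400) * l)) +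
      2 * u ^ 12 * (J * (3 * (l / u ^ 200 + 1))) + l * (u ^ 12 * (1 / u ^ 200))) ≤
      l / u ^ 157 := by
  have hu1 : 1 ≤ u := by linarith
  have hu0 : 0 < u := by linarith
  have l0 : 0 ≤ l := le_trans (by positivity) hl
  have a0 : 2 * u ^ 12 + 1 ≤ 3 * u ^ 12 := by linarith [one_le_pow₀ (n := 12) hu1]
  have a1 : 1 ≤ l / u ^ 200 := by rwa [le_div_iff₀ (by positivity), one_mul]
  have a2 : 2 * u ^ 12 * (J * (3 * (l / u ^ 200 + 1))) ≤ 12 * (l / u ^ 172) :=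
    calc _ ≤ 2 * u ^ 12 * (u ^ 16 * (3 * (l / u ^ 200 + l / u ^ 200))) := by
          gcongr
          exact hJ.trans (le_self_pow₀ hu1 (by norm_num))
      _ = _ := by field_simp; ring
  have a3 : l * (u ^ 12 * (1 / u ^ 200)) ≤ l / u ^ 172 :=
    calc _ ≤ l * (u ^ 28 * (1 / u ^ 200)) := by gcongr; norm_num
      _ = _ := by field_simp
  have a4 : 14 * ((u ^ 12) ^ 19 * (4 * (1 / u ^ 400) * l)) = 56 * (l / u ^ 172) := by
    field_simp; ring
  calc _ ≤ 3 * u ^ 12 * (69 * (l / u ^ 172)) := by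
        refine mul_le_mul a0 (by linarith) (by positivity) (by positivity)
    _ = 207 * (l / u ^ 160) := by field_simp; ring
    _ ≤ u ^ 3 * (l / u ^ 160) := mul_le_mul_of_nonneg_right
        (le_trans (by linarith) (le_self_pow₀ hu1 (by norm_num))) (div_nonneg l0 (pow_pos hu0 _).le)
    _ = _ := by field_simp

/-- the sum over all cofactors. -/
noncomputable def Wf (a2 a1 a0 : ℤ) (K y1 t d : ℕ) (h a b c : ℤ) : ℂ :=
  ∑ k ∈ Icc (-(K : ℤ)) K, Vk a2 a1 a0 y1 t d h k a b c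

lemma Wf_norm (K y1 t d : ℕ) (h a b c : ℤ) :
    ‖Wf a2 a1 a0 K y1 t d h a b c‖ ≤ (2 * K + 1) * K := by
  refine (norm_sum_le _ _).trans ((sum_le_card_nsmul _ _ (K : ℝ) fun k hk =>
    (Vk_norm y1 t d h k a b c).trans ?_).trans ?_)
  · have := mem_Icc.1 hk
    exact_mod_cast (by omega)
  · rw [nsmul_eq_mul, card_Icc_N]

lemma line_at (hI : Irr a2 a1 a0) {H0 U e R : ℕ} (hH : 1 ≤ H0) (h2 : |a2| ≤ H0) (h1 : |a1| ≤ H0)
    (h0 : |a0| ≤ H0) (hR : R = 2 ^ 27) (he : 400 * R ≤ e) (hU : 4 ^ 12 ≤ U) (hU2 : 40 * H0 ^ 2 ≤ U)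
    (hUe : 6 * e ≤ U) (I : Finset (ℕ × ℕ)) (ν : ℕ × ℕ → ℤ)
    (hi : ∀ i ∈ I, i.1.Prime ∧ i.2.Prime ∧ U ^ (159 * e) < i.1 ∧ i.1 ≤ U ^ (165 * e) ∧
      U ^ (165 * e) < i.2 ∧ i.2 ≤ U ^ (171 * e) ∧ ((i.1 * i.2 : ℕ) : ℤ) ∣ fv a2 a1 a0 (ν i))
    {y1 t d : ℕ} {h : ℤ} (hyt : y1 ≤ t) (hy1 : U ^ (800 * e) ≤ y1) (hd0 : 0 < d) (hd : d ≤ U)
    (hh0 : h ≠ 0) (hh : |h| ≤ U) {j : ℕ} (hj : j < U ^ 65) {N Y : ℕ}
    (hN : N = U ^ (300 * e)) (hY : Y = U ^ 131 * N) (y c : ℤ) (y1' : |y| ≤ Y) (y2 : 1 ≤ c)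
    (y3 : c ≤ N)
    (y4 : Wt I (fun i => i.1 * i.2) (fun i => xi a2 a1 j (ν i)) (y - j ^ 2 * c) c ≠ 0)
    (y5 : Good (U ^ 200) (U ^ (291 * e)) (U ^ 400)
      (qq (s2 a2 j) (s1 a2 a1 j) (s0 a2 a1 a0 j) y c)) :
    ‖∑ b ∈ lin N j y c, Wf a2 a1 a0 (U ^ 12) y1 t d h (y + j * b - j ^ 2 * c) b c‖ ≤
      (2 * N + 1) / U ^ 157 := by
  obtain ⟨c2, c1, c0⟩ := coef_bd hH h2 h1 h0 hU2 hj
  have hR1 : 10000 ≤ R := by rw [hR]; norm_num
  have hu : (7 : ℤ) ≤ U := by exact_mod_cast (by omega)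
  have hu1 : (1 : ℤ) ≤ U := by omega
  have hU1 : 1 < U := by omega
  have hr1 : (1 : ℝ) < U := by exact_mod_cast hU1
  have hj0 : (0 : ℤ) ≤ j := Nat.cast_nonneg j
  have c3 : |s0 a2 a1 a0 j| ≤ (U ^ 200 : ℕ) := by
    push_cast
    exact c0.trans (pow_le_pow_right₀ hu1 (by omega))
  have k0 : (0 : ℤ) ≤ N := Nat.cast_nonneg _
  have k1 : N + j * N + j * N + j ^ 2 * N ≤ (Y : ℤ) := by
    rw [hY]
    push_cast
    exact jbd (by omega) hj0 (by exact_mod_cast hj.le) k0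
  have k2 := mul_nonneg hj0 k0
  have k3 := mul_nonneg (sq_nonneg (j : ℤ)) k0
  have k5 : 7 * (((U : ℤ) ^ 196) ^ 2 * (Y : ℤ) ^ 3) ≤ (U ^ (901 * e) : ℕ) := by
    rw [hY, hN]
    push_cast
    rw [← pow_add, ← pow_mul, ← pow_mul, ← pow_add]
    exact pw hu1 hu (by omega)
  have k6 : 0 ≤ ((U : ℤ) ^ 196) ^ 2 * (Y : ℤ) ^ 3 := by positivity
  obtain ⟨i, m0⟩ := card_pos.1 (Nat.pos_of_ne_zero (Nat.cast_ne_zero.1 y4))
  obtain ⟨d1, d2, d3, d4, d5, d6, d7⟩ := hi i (mem_filter.1 m0).1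
  have m1 := qq_dvd d7 (mem_filter.1 m0).2
  rw [sub_add_cancel] at m1
  have m2 : |c| ≤ Y := by rw [abs_of_nonneg (zero_le_one.trans y2)]; linarith
  have m3 : U ^ (171 * e) ≤ U ^ (291 * e) := pow_le_pow_right₀ hU1.le (by omega)
  have m4 : U < U ^ (159 * e) := lt_self_pow₀ hU1 (by omega)
  have m6 := qq_bd (one_le_pow₀ hu1) c2 c1 c0 y1' m2
  have hD : ∀ b : ℤ, |b| ≤ N → |DD (s2 a2 j) (s1 a2 a1 j) (s0 a2 a1 a0 j) y (b - 2 * j * c) c| ≤
      (U ^ (901 * e) : ℕ) := fun b hb => by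
    refine le_trans (DD_bd (one_le_pow₀ hu1) c2 c1 c0 y1' ((abs_sub _ _).trans ?_) m2) k5
    rw [abs_of_nonneg (a := _ * c) (by positivity)]
    linarith only [mul_le_mul_of_nonneg_left y3 hj0, hb, k1, k3]
  have hq0 := (hI.shift j).qq_ne y (show c ≠ 0 by omega)
  generalize hq : qq (s2 a2 j) (s1 a2 a1 j) (s0 a2 a1 a0 j) y c = q at m1 m6 hq0
  obtain ⟨ε, hε, hqε⟩ : ∃ ε : ℤ, ε * ε = 1 ∧ (q.natAbs : ℤ) = ε * q := by
    rcases Int.natAbs_eq q with h | h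
    · exact ⟨1, by simp, by omega⟩
    · exact ⟨-1, by simp, by omega⟩
  have m7 : q.natAbs ≤ U ^ (901 * e) := by
    rw [← Int.natCast_natAbs] at m6
    exact_mod_cast (by linarith only [m6, k5, k6] : (q.natAbs : ℤ) ≤ (U ^ (901 * e) : ℕ))
  have m8 : U ^ (324 * e) ≤ q.natAbs := by
    refine le_trans ?_ (Nat.le_of_dvd (Int.natAbs_pos.2 hq0) (Int.natCast_dvd.1 m1))
    rw [show 324 * e = 159 * e + 165 * e by omega, pow_add]
    exact Nat.mul_le_mul d3.le d5.le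
  obtain ⟨s, e', hse, hse2⟩ := lin_eq N hj0 y c
  have hn : (U : ℝ) ^ 200 ≤ 2 * N + 1 := by
    have : (U : ℝ) ^ 200 ≤ N := by
      rw [hN]; push_cast; exact pow_le_pow_right₀ hr1.le (by omega)
    linarith [(Nat.cast_nonneg N : (0 : ℝ) ≤ N)]
  refine le_trans ?_ (num_line (J := (5 * e : ℕ)) (by exact_mod_cast hU) hn (Nat.cast_nonneg _)
    (by exact_mod_cast (by omega)))
  simp only [Wf]
  rw [sum_comm, show 2 * (U : ℝ) ^ 12 + 1 = #(Icc (-((U ^ 12 : ℕ) : ℤ)) (U ^ 12 : ℕ)) by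
    rw [card_Icc_N, Nat.cast_pow], ← nsmul_eq_mul]
  refine (norm_sum_le _ _).trans (sum_le_card_nsmul _ _ _ fun k hk => ?_)
  by_cases hk0 : k = 0
  · simp only [Vk, hk0, ne_eq, not_true, false_and, if_false, sum_const_zero, norm_zero]
    positivity
  have hk1 : k.natAbs ≤ U ^ 12 := by have := mem_Icc.1 hk; omega
  set Λ : LD := ⟨s2 a2 j, s1 a2 a1 j, s0 a2 a1 a0 j, y, c, 2 * j * c, k, ε, q.natAbs⟩ with hΛ
  have hNb : ∀ b, nm a2 a1 a0 (y + j * b - j ^ 2 * c) b c = Λ.N b := fun b => by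
    rw [← nm_shift a2 a1 a0 j, LD.N]
    congr 1
    ring
  obtain ⟨z, z1, z2, z3, z4⟩ := osc (hN ▸ par_at hU hR he hUe) Λ (hI.shift j) hε (hq ▸ hqε) c3
    (show c ≠ 0 by omega) y5 m7 d1 d2 (d4.trans_lt d5).ne (hq ▸ m1) d3.le d5.le
    (d4.trans (d5.le.trans (d6.trans m3))) (d6.trans m3) hk0 hk1 hh0
    (hh.trans_lt (by exact_mod_cast m4)) hd0 (hd.trans (le_self_pow₀ hU1.le (by norm_num)))
  rw [hse]
  refine le_trans (line_k Λ hε (hq ▸ hqε) (hI.shift j).a0_ne c3 (Int.natAbs_ne_zero.2 hq0)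
    (J := 5 * e) (m7.trans_lt (by rw [← pow_mul]; exact pow_lt_pow_right₀ hU1 (by omega))) hk0 hk1
    hyt h (by positivity) (by positivity) (δ := 1 / U ^ 200) (by positivity) z _
    (fun n => -(h * (j : ℤ) / n)) z1 z2 z3 z4 (fun b hb => ?_) (fun b b1 b2 b3 => ?_) s e' hse2
    fun b hb n hn => ?_) (le_of_eq (by push_cast; ring))
  · rw [Vk, hNb]
    exact if_neg fun a => hb a.2
  · rw [Vk, hNb]
    exact (if_pos ⟨hk0, b1, b2, b3⟩).trans (Rt_shift _ _ _ _ (by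
      show 0 < (Λ.n b).toNat
      omega) h)
  · have e1 : |(Λ.D b : ℝ)| ≤ U ^ (901 * e) := by
      have := hD b (abs_le.2 (mem_Icc.1 (mem_filter.1 (hse ▸ hb : b ∈ lin N j y c)).1))
      have e0 : |ε| = 1 := by
        rcases Int.eq_one_or_neg_one_of_mul_eq_one hε with a | a <;> simp [a]
      have e2 : |Λ.D b| ≤ (U ^ (901 * e) : ℕ) := by
        rwa [LD.D, abs_mul, e0, one_mul]
      exact_mod_cast e2
    have e2 : (U : ℝ) ^ (324 * e) ≤ Λ.Q := by exact_mod_cast m8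
    have e3 : (U : ℝ) ^ (800 * e) ≤ n := by exact_mod_cast (by omega)
    have e4 : |(h : ℝ)| ≤ U := by exact_mod_cast hh
    have e5 : (j : ℝ) ≤ U ^ (577 * e) :=
      le_trans (by exact_mod_cast hj.le) (pow_le_pow_right₀ hr1.le (by omega))
    have e6 : (0 : ℝ) < n := lt_of_lt_of_le (by positivity) e3
    have e7 : (0 : ℝ) < Λ.Q := lt_of_lt_of_le (by positivity) e2
    have e8 : |(Λ.D b : ℝ) / Λ.Q| ≤ U ^ (577 * e) := by
      rw [abs_div, abs_of_pos e7, div_le_iff₀ e7]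
      refine e1.trans (le_trans (le_of_eq ?_) (mul_le_mul_of_nonneg_left e2 (by positivity)))
      rw [← pow_add]
      congr 1
      omega
    rw [show -(h * ((j : ℤ) : ℝ) / n) + h * Λ.D b / (n * Λ.Q) = h * (Λ.D b / Λ.Q - j) / n by
      push_cast; field_simp; ring, abs_div, abs_mul, abs_of_pos e6, ← mul_div_assoc,
      div_le_div_iff₀ e6 (by positivity), one_mul]
    have e9 := abs_sub ((Λ.D b : ℝ) / Λ.Q) j
    rw [Nat.abs_cast] at e9
    calc _ ≤ 7 * ((U : ℝ) * (U ^ (577 * e) + U ^ (577 * e))) * U ^ 200 := by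
          gcongr
          linarith
      _ = 14 * U ^ (577 * e + 201) := by rw [pow_add]; ring
      _ ≤ U ^ (800 * e) := pw hr1.le (by exact_mod_cast (by omega)) (by omega)
      _ ≤ _ := e3

end Pool.Agent.Lib.MP_d315f4_nt.W
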