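import Pool.Agent.Lib.MP_d315f4_nt.W.Box

/-!
Counting the points of the lattice of a root in a box, and counting roots.
-/

set_option autoImplicit false
set_option maxHeartbeats 400000

open Finset

namespace Pool.Agent.Lib.MP_d315f4_nt.W

variable {a2 a1 a0 : ℤ}

lemma cube_root (n : ℕ) : ∃ M : ℕ, M ^ 3 ≤ n ∧ n < (M + 1) ^ 3 := by
  have hex : ∃ M, n < (M + 1) ^ 3 := ⟨n, by nlinarith [sq_nonneg n]⟩
  refine ⟨Nat.find hex, ?_, Nat.find_spec hex⟩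
  rcases h : Nat.find hex with _ | m
  · simp
  · exact not_lt.1 (Nat.find_min hex (m := m) (by omega))

section
variable (hI : Irr a2 a1 a0) {H0 : ℕ} (hH : 1 ≤ H0) (h2 : |a2| ≤ H0) (h1 : |a1| ≤ H0)
  (h0 : |a0| ≤ H0)
include hI hH h2 h1 h0

lemma short {n M : ℕ} (hn : 0 < n) (hM : n < (M + 1) ^ 3) {ν : ℤ} (hν : (n : ℤ) ∣ fv a2 a1 a0 ν) :
    ∃ a b c k : ℤ, |a| ≤ M ∧ |b| ≤ M ∧ |c| ≤ M ∧ k ≠ 0 ∧ |k| ≤ (17 * H0 ^ 2 : ℕ) ∧
      nm a2 a1 a0 a b c = k * n ∧ (n : ℤ) ∣ a + b * ν + c * ν ^ 2 := by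
  obtain ⟨m, c2, c1⟩ := cube_root n
  have c3 : (m : ℤ) ≤ M := by
    have := (Nat.pow_lt_pow_iff_left (by norm_num)).1 (c2.trans_lt hM)
    omega
  obtain ⟨a, b, c, d1, d2, d3, d4, d5⟩ := pigeon hn c1 ν
  obtain ⟨k, hk⟩ := (root_dvd hν d5).1
  have d3' : |(c : ℤ)| ≤ m := by simpa using d3
  have d6 := nm_bd (y := a) (b := b) (c := c) (Y := m) (by exact_mod_cast hH) h2 h1 h0 d1 d2 d3'
  have d7 : (0 : ℤ) < n := by exact_mod_cast hn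
  refine ⟨a, b, c, k, d1.trans c3, d2.trans c3, d3'.trans c3, ?_, ?_, by rw [hk, mul_comm], d5⟩
  · rintro rfl
    exact hI.nm_ne d4 (by simpa using hk)
  · rw [hk, abs_mul, abs_of_pos d7] at d6
    refine le_of_mul_le_mul_left (d6.trans ?_) d7
    have : (m : ℤ) ^ 3 ≤ n := by exact_mod_cast c2
    push_cast
    nlinarith [sq_nonneg (H0 : ℤ)]

omit hI hH h2 h1 h0 in
lemma comb {N z r0 r1 r2 u v w U V W : ℤ} (hN : N ≠ 0) (h : N * z = r0 * u + r1 * v + r2 * w)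
    (b0 : |r0| ≤ |N|) (b1 : |r1| ≤ |N|) (b2 : |r2| ≤ |N|) (hu : |u| ≤ U) (hv : |v| ≤ V)
    (hw : |w| ≤ W) : |z| ≤ U + V + W := by
  refine le_of_mul_le_mul_left ?_ (abs_pos.2 hN)
  rw [← abs_mul, h]
  refine (abs_add_three _ _ _).trans ?_
  simp only [abs_mul, mul_add]
  gcongr

lemma reps {n M : ℕ} (hn : 0 < n) (hM : n < (M + 1) ^ 3) {ν : ℤ} (hν : (n : ℤ) ∣ fv a2 a1 a0 ν)
    (r : ℤ) : ∃ z : ℤ × ℤ × ℤ, |z.1| ≤ (7 * H0 ^ 2 * M : ℕ) ∧ |z.2.1| ≤ (7 * H0 ^ 2 * M : ℕ) ∧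
      |z.2.2| ≤ (7 * H0 ^ 2 * M : ℕ) ∧ (n : ℤ) ∣ z.1 + z.2.1 * ν + z.2.2 * ν ^ 2 - r := by
  obtain ⟨y, b, c, k, d1, d2, d3, d4, -, d6, d7⟩ := short hI hH h2 h1 h0 hn hM hν
  have hN : nm a2 a1 a0 y b c ≠ 0 := by rw [d6]; positivity
  obtain ⟨β, hβ⟩ : ∃ β, β = b - a2 * c := ⟨_, rfl⟩
  obtain ⟨γ, hγ⟩ : ∃ γ, γ = y - a1 * c := ⟨_, rfl⟩
  have hd : ∀ A : ℤ, ∃ m ρ : ℤ, A = nm a2 a1 a0 y b c * m + ρ ∧ |ρ| ≤ |nm a2 a1 a0 y b c| :=
    fun A => ⟨_, _, (Int.mul_ediv_add_emod A _).symm, by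
      rw [abs_of_nonneg (Int.emod_nonneg _ hN)]; exact (Int.emod_lt_abs _ hN).le⟩
  obtain ⟨m0, r0, e0, f0⟩ := hd (r * (γ * (γ - a2 * β) - (-a0 * c - a1 * β) * β))
  obtain ⟨m1, r1, e1, f1⟩ := hd (r * ((-a0 * c - a1 * β) * c - b * (γ - a2 * β)))
  obtain ⟨m2, r2, e2, f2⟩ := hd (r * (b * β - γ * c))
  have hH' : (1 : ℤ) ≤ H0 := by exact_mod_cast hH
  have hM0 : (0 : ℤ) ≤ M := Nat.cast_nonneg _
  have mb : ∀ {x t X : ℤ}, |x| ≤ H0 → |t| ≤ X → |x * t| ≤ H0 * X := fun a a' => by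
    rw [abs_mul]; exact mul_le_mul a a' (abs_nonneg _) (by linarith)
  have p1 : (M : ℤ) ≤ H0 * M := by nlinarith
  have p2 : (H0 : ℤ) * M ≤ H0 * (H0 * M) := by nlinarith
  have g1 : |β| ≤ 2 * (H0 * M) := by
    rw [hβ]; linarith [abs_sub b (a2 * c), mb h2 d3]
  have g2 : |γ| ≤ 2 * (H0 * M) := by
    rw [hγ]; linarith [abs_sub y (a1 * c), mb h1 d3]
  have g3 : |-a0 * c| ≤ H0 * M := mb (by rwa [abs_neg]) d3
  have g4 : |-a0 * β| ≤ H0 * (2 * (H0 * M)) := mb (by rwa [abs_neg]) g1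
  have g5 : |-a0 * c - a1 * β| ≤ 4 * (H0 * (H0 * M)) := by
    linarith [abs_sub (-a0 * c) (a1 * β), mb h1 g1]
  have g6 : |γ - a2 * β| ≤ 4 * (H0 * (H0 * M)) := by
    linarith [abs_sub γ (a2 * β), mb h2 g1]
  refine ⟨(r - (m0 * y + m1 * (-a0 * c) + m2 * (-a0 * β)),
    -(m0 * b + m1 * γ + m2 * (-a0 * c - a1 * β)), -(m0 * c + m1 * β + m2 * (γ - a2 * β))),
    (comb hN ?_ f0 f1 f2 d1 g3 g4).trans ?_, (comb hN ?_ f0 f1 f2 d2 g2 g5).trans ?_,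
    (comb hN ?_ f0 f1 f2 d3 g1 g6).trans ?_, ?_⟩
  · have : nm a2 a1 a0 y b c = y * (γ * (γ - a2 * β) - (-a0 * c - a1 * β) * β) +
        (-a0 * c) * ((-a0 * c - a1 * β) * c - b * (γ - a2 * β)) + (-a0 * β) * (b * β - γ * c) := by
      rw [hβ, hγ, nm]; ring
    linear_combination r * this + y * e0 + (-a0 * c) * e1 + (-a0 * β) * e2
  · push_cast; linarith
  · linear_combination b * e0 + γ * e1 + (-a0 * c - a1 * β) * e2
  · push_cast; linarith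
  · linear_combination c * e0 + β * e1 + (γ - a2 * β) * e2
  · push_cast; linarith
  · refine (dvd_sub (hν.mul_left (m1 * c + m2 * (c * ν + β)))
      (d7.mul_left (m0 + m1 * ν + m2 * ν ^ 2))).trans (dvd_of_eq ?_)
    simp only [hβ, hγ, fv]
    ring

end

/-- a box in the integer lattice. -/
noncomputable def Bx (A lo hi : ℤ) : Finset (ℤ × ℤ × ℤ) := Icc (-A) A ×ˢ Icc (-A) A ×ˢ Icc lo hi

lemma mem_Bx {A lo hi : ℤ} {p : ℤ × ℤ × ℤ} : p ∈ Bx A lo hi ↔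
    (-A ≤ p.1 ∧ p.1 ≤ A) ∧ (-A ≤ p.2.1 ∧ p.2.1 ≤ A) ∧ lo ≤ p.2.2 ∧ p.2.2 ≤ hi := by
  simp only [Bx, mem_product, mem_Icc]

lemma card_Bx {A lo hi : ℤ} (hA : 0 ≤ A) (h : lo ≤ hi + 1) :
    (#(Bx A lo hi) : ℤ) = (2 * A + 1) ^ 2 * (hi + 1 - lo) := by
  simp only [Bx, card_product, Nat.cast_mul, Int.card_Icc_of_le _ _ h,
    Int.card_Icc_of_le (-A) A (by omega)]
  ring

lemma bc_eq (N : ℕ) (F : ℤ → ℤ → ℤ → ℂ) : bc N F = ∑ p ∈ Bx N 1 N, F p.1 p.2.1 p.2.2 := by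
  simp only [bc, Bx, sum_product]
  refine sum_congr rfl fun a _ => sum_congr rfl fun b _ => ?_
  exact sum_bij' (fun c _ => (c : ℤ) + 1) (fun c _ => (c - 1).toNat)
    (fun c hc => mem_Icc.2 (by have := mem_range.1 hc; omega))
    (fun c hc => mem_range.2 (by have := mem_Icc.1 hc; omega)) (fun c _ => by simp)
    (fun c hc => by have := mem_Icc.1 hc; omega) fun _ _ => rfl

lemma lat_count {n N s : ℕ} (hn : 0 < n) (hs : 2 * s ≤ N) (hN : 1 ≤ N) (ν : ℤ)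
    (hz : ∀ r : ℤ, ∃ z : ℤ × ℤ × ℤ, |z.1| ≤ s ∧ |z.2.1| ≤ s ∧ |z.2.2| ≤ s ∧
      (n : ℤ) ∣ z.1 + z.2.1 * ν + z.2.2 * ν ^ 2 - r) :
    |(n : ℝ) * #{p ∈ Bx N 1 N | (n : ℤ) ∣ p.1 + p.2.1 * ν + p.2.2 * ν ^ 2} - vol N| ≤
      46 * s * N ^ 2 := by
  choose z z1 z2 z3 z4 using hz
  set S := {p ∈ Bx N 1 N | (n : ℤ) ∣ p.1 + p.2.1 * ν + p.2.2 * ν ^ 2}
  have hn' : (0 : ℤ) < n := by exact_mod_cast hn
  have u1 : #(range n ×ˢ S) ≤ #(Bx (N + s) (1 - s) (N + s)) := by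
    refine card_le_card_of_injOn (fun p => p.2 + z p.1) (fun p hp => ?_) fun p hp p' hp' e => ?_
    · have a1 := mem_Bx.1 (mem_filter.1 (mem_product.1 hp).2).1
      have a2 := abs_le.1 (z1 p.1)
      have a3 := abs_le.1 (z2 p.1)
      have a4 := abs_le.1 (z3 p.1)
      refine mem_coe.2 (mem_Bx.2 ?_)
      simp only [Prod.fst_add, Prod.snd_add]
      omega
    · obtain ⟨a1, a2⟩ := mem_product.1 hp
      obtain ⟨a1', a2'⟩ := mem_product.1 hp'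
      have e1 := congrArg (fun q : ℤ × ℤ × ℤ => q.1 + q.2.1 * ν + q.2.2 * ν ^ 2) e
      simp only [Prod.fst_add, Prod.snd_add] at e1
      have e2 : (n : ℤ) ∣ p.1 - p'.1 := (dvd_sub (dvd_add (mem_filter.1 a2').2 (z4 p'.1))
        (dvd_add (mem_filter.1 a2).2 (z4 p.1))).trans (dvd_of_eq (by linear_combination -e1))
      have e3 : p.1 = p'.1 := by
        have b1 := mem_range.1 a1
        have b2 := mem_range.1 a1'
        have := Int.eq_zero_of_abs_lt_dvd e2 (abs_lt.2 (by omega))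
        omega
      simp only [e3, add_left_inj] at e
      exact Prod.ext e3 e
  have u2 : #(Bx (N - s) (1 + s) (N - s)) ≤ #(range n ×ˢ S) := by
    refine card_le_card_of_injOn (fun p => (((p.1 + p.2.1 * ν + p.2.2 * ν ^ 2) % n).toNat,
      p - z ((p.1 + p.2.1 * ν + p.2.2 * ν ^ 2) % n))) (fun p hp => ?_) fun p _ p' _ e => ?_
    · have a1 := mem_Bx.1 hp
      have b1 := Int.emod_lt_of_pos (p.1 + p.2.1 * ν + p.2.2 * ν ^ 2) hn'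
      have b2 : (n : ℤ) ∣ (p.1 + p.2.1 * ν + p.2.2 * ν ^ 2) -
        (p.1 + p.2.1 * ν + p.2.2 * ν ^ 2) % n := Int.dvd_self_sub_emod
      beta_reduce
      generalize (p.1 + p.2.1 * ν + p.2.2 * ν ^ 2) % n = r at b1 b2
      have a2 := abs_le.1 (z1 r)
      have a3 := abs_le.1 (z2 r)
      have a4 := abs_le.1 (z3 r)
      refine mem_coe.2 (mem_product.2 ⟨mem_range.2 (by omega), mem_filter.2 ⟨mem_Bx.2 ?_, ?_⟩⟩)
      · simp only [Prod.fst_sub, Prod.snd_sub]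
        omega
      · simp only [Prod.fst_sub, Prod.snd_sub]
        exact (dvd_sub b2 (z4 r)).trans (dvd_of_eq (by ring))
    · obtain ⟨e1, e2⟩ := Prod.ext_iff.1 e
      have b1 := Int.emod_nonneg (p.1 + p.2.1 * ν + p.2.2 * ν ^ 2) hn'.ne'
      have b2 := Int.emod_nonneg (p'.1 + p'.2.1 * ν + p'.2.2 * ν ^ 2) hn'.ne'
      simp only at e1 e2
      rw [show (p.1 + p.2.1 * ν + p.2.2 * ν ^ 2) % n = (p'.1 + p'.2.1 * ν + p'.2.2 * ν ^ 2) % n by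
        omega] at e2
      exact sub_left_injective e2
  rw [card_product, card_range] at u1 u2
  have v1 : (n : ℝ) * #S ≤ (2 * (N + s) + 1) ^ 2 * (N + s + 1 - (1 - s)) := by
    have := card_Bx (A := N + s) (lo := 1 - s) (hi := N + s) (by omega) (by omega)
    exact_mod_cast this ▸ (by exact_mod_cast u1 : (n : ℤ) * #S ≤ #(Bx (N + s) (1 - s) (N + s)))
  have v2 : (2 * (N - s) + 1) ^ 2 * (N - s + 1 - (1 + s)) ≤ (n : ℝ) * #S := by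
    have := card_Bx (A := N - s) (lo := 1 + s) (hi := N - s) (by omega) (by omega)
    exact_mod_cast this ▸ (by exact_mod_cast u2 : (#(Bx (N - s) (1 + s) (N - s)) : ℤ) ≤ n * #S)
  have w1 : 2 * (s : ℝ) ≤ N := by exact_mod_cast hs
  have w2 : (1 : ℝ) ≤ N := by exact_mod_cast hN
  have w3 : (0 : ℝ) ≤ s := Nat.cast_nonneg _
  obtain ⟨A, hA⟩ : ∃ A : ℝ, A = 2 * N + 1 := ⟨_, rfl⟩
  have w4 : A ≤ 3 * N := by linarith
  have w5 : 0 ≤ A := by linarith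
  have w6 : A ^ 2 * s ≤ (3 * N) ^ 2 * s := by gcongr
  have w7 : (A + s) * s * (N + 2 * s) ≤ (3 * N + N / 2) * s * (N + N) := by gcongr; linarith
  have w8 : (A - s) * s * (N - 2 * s) ≤ (3 * N) * s * N :=
    mul_le_mul (mul_le_mul_of_nonneg_right (by linarith) w3) (by linarith) (by linarith)
      (by positivity)
  have w9 : 0 ≤ (s : ℝ) * N ^ 2 := by positivity
  rw [vol, ← hA, abs_le]
  rw [show 2 * ((N : ℝ) + s) + 1 = A + 2 * s by linarith] at v1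
  rw [show 2 * ((N : ℝ) - s) + 1 = A - 2 * s by linarith] at v2
  constructor <;> linarith

lemma sum_rho (hI : Irr a2 a1 a0) {H0 : ℕ} (hH : 1 ≤ H0) (h2 : |a2| ≤ H0) (h1 : |a1| ≤ H0)
    (h0 : |a0| ≤ H0) {K0 : ℕ} (hK : K0 = 17 * H0 ^ 2) (y : ℕ) :
    ∑ n ∈ Ioc 0 y, rho a2 a1 a0 n ≤ 27 * ((2 * K0 + 1) * K0) * y := by
  classical
  rcases Nat.eq_zero_or_pos y with rfl | hy
  · simp
  obtain ⟨M, c2, c1⟩ := cube_root y
  have hM : 1 ≤ M := by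
    by_contra h
    obtain rfl : M = 0 := by omega
    omega
  set X := (Ioc 0 y).sigma fun n => (range n).filter fun ν : ℕ => (n : ℤ) ∣ fv a2 a1 a0 ν
  have e : ∑ n ∈ Ioc 0 y, rho a2 a1 a0 n = #X := by rw [card_sigma]; rfl
  have key : ∀ x : (_ : ℕ) × ℕ, ∃ u : (ℤ × ℤ × ℤ) × ℤ, x ∈ X → u ∈ Bx M (-M) M ×ˢ Icc (-(K0 : ℤ)) K0 ∧
      u.2 ≠ 0 ∧ nm a2 a1 a0 u.1.1 u.1.2.1 u.1.2.2 = u.2 * x.1 ∧
        (x.1 : ℤ) ∣ u.1.1 + u.1.2.1 * x.2 + u.1.2.2 * (x.2 : ℤ) ^ 2 := by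
    intro x
    by_cases hx : x ∈ X
    swap
    · exact ⟨0, fun h => absurd h hx⟩
    obtain ⟨b1, b2⟩ := mem_sigma.1 hx
    obtain ⟨a, b, c, k, d1, d2, d3, d4, d5, d6, d7⟩ := short hI hH h2 h1 h0 (mem_Ioc.1 b1).1
      ((mem_Ioc.1 b1).2.trans_lt c1) (mem_filter.1 b2).2
    exact ⟨((a, b, c), k), fun _ => ⟨mem_product.2 ⟨mem_Bx.2 ⟨abs_le.1 d1, abs_le.1 d2,
      abs_le.1 d3⟩, mem_Icc.2 (abs_le.1 (hK ▸ d5))⟩, d4, d6, d7⟩⟩
  choose g hg using key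
  have e2 := card_le_mul_card_image_of_maps_to (f := g) (s := X) (fun x hx => (hg x hx).1) K0
    fun u hu => by
      rcases {x ∈ X | g x = u}.eq_empty_or_nonempty with h0 | ⟨x0, hx0⟩
      · simp only [h0, card_empty, zero_le]
      obtain ⟨y1, y2⟩ := mem_filter.1 hx0
      obtain ⟨-, f1, f2, -⟩ := hg x0 y1
      rw [y2] at f1 f2
      have f3 : ∀ x ∈ {x ∈ X | g x = u}, x.1 = x0.1 := fun x hx => by
        obtain ⟨-, -, f4, -⟩ := hg x (mem_filter.1 hx).1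
        rw [(mem_filter.1 hx).2, f2] at f4
        exact_mod_cast (mul_left_cancel₀ f1 f4).symm
      rw [← card_image_of_injOn (f := fun x => x.2) fun x hx x' hx' e =>
        Sigma.ext ((f3 x hx).trans (f3 x' hx').symm) (heq_of_eq e)]
      refine (card_roots (mem_Ioc.1 (mem_sigma.1 y1).1).1 f1 f2 _ (fun ν hν => ?_)
        fun ν hν => ?_).trans ?_
      · obtain ⟨x, hx, rfl⟩ := mem_image.1 hν
        exact f3 x hx ▸ (mem_filter.1 (mem_sigma.1 (mem_filter.1 hx).1).2).1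
      · obtain ⟨x, hx, rfl⟩ := mem_image.1 hν
        obtain ⟨-, -, -, f4⟩ := hg x (mem_filter.1 hx).1
        rw [(mem_filter.1 hx).2] at f4
        exact f3 x hx ▸ ⟨(mem_filter.1 (mem_sigma.1 (mem_filter.1 hx).1).2).2, f4⟩
      · have := mem_Icc.1 (mem_product.1 hu).2
        omega
  have e3 : #(Bx M (-M) M) ≤ 27 * y := by
    have b1 := card_Bx (A := M) (lo := -M) (hi := M) (by omega) (by omega)
    have b2 : #(Bx M (-M) M) = (2 * M + 1) ^ 3 := by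
      have : (#(Bx M (-M) M) : ℤ) = ((2 * M + 1) ^ 3 : ℕ) := by rw [b1]; push_cast; ring
      exact_mod_cast this
    calc _ ≤ (3 * M) ^ 3 := b2 ▸ Nat.pow_le_pow_left (by omega) 3
      _ = 27 * M ^ 3 := by ring
      _ ≤ _ := by gcongr
  rw [card_product, Int.card_Icc, show (K0 + 1 - -(K0 : ℤ)).toNat = 2 * K0 + 1 by omega] at e2
  rw [e]
  calc _ ≤ K0 * (27 * y * (2 * K0 + 1)) := e2.trans (by gcongr)
    _ = _ := by ring

end Pool.Agent.Lib.MP_d315f4_nt.W
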