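import Pool.Agent.Lib.MP_d315f4_nt.W.Per
import Pool.Agent.Lib.MP_d315f4_nt.Cubic

/-!
Local factors of the sum over the roots that belong to one lattice point.
-/

set_option autoImplicit false
set_option maxHeartbeats 400000

open Finset

namespace Pool.Agent.Lib.MP_d315f4_nt.W

/-- the homogeneous form of `y + b ν + c ν ^ 2`. -/
def Ah (y b c X w : ℤ) : ℤ := y * w ^ 2 + b * X * w + c * X ^ 2

lemma det_dvd {a2 a1 a0 y b c k n X X' w : ℤ} (hn : n ≠ 0) (hN : nm a2 a1 a0 y b c = k * n)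
    (h1 : n ∣ Ah y b c X w) (h2 : n ∣ hom a2 a1 a0 X w) (h3 : n ∣ Ah y b c X' w)
    (h4 : n ∣ hom a2 a1 a0 X' w) : n ∣ w ^ 7 * ((X' - X) * k) := by
  have key : ∀ A F A' F' : ℤ, Ah y b c X w = A → hom a2 a1 a0 X w = F → Ah y b c X' w = A' →
      hom a2 a1 a0 X' w = F' →
      (w ^ 2 * A) * ((w * (X' * A' - c * F')) * (y - a1 * c - a2 * (b - a2 * c)) -
        (X' ^ 2 * A' - (c * X' + w * (b - a2 * c)) * F') * (b - a2 * c)) -
      (w * (X * A - c * F)) * ((w ^ 2 * A') * (y - a1 * c - a2 * (b - a2 * c)) -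
        (X' ^ 2 * A' - (c * X' + w * (b - a2 * c)) * F') * c) +
      (X ^ 2 * A - (c * X + w * (b - a2 * c)) * F) * ((w ^ 2 * A') * (b - a2 * c) -
        (w * (X' * A' - c * F')) * c) = w ^ 7 * (X' - X) * nm a2 a1 a0 y b c := by
    rintro _ _ _ _ rfl rfl rfl rfl
    simp only [Ah, hom, nm]
    ring
  obtain ⟨s, hs⟩ := h1
  obtain ⟨t, ht⟩ := h2
  obtain ⟨s', hs'⟩ := h3
  obtain ⟨t', ht'⟩ := h4
  have k1 := key _ _ _ _ hs ht hs' ht'
  rw [hN] at k1
  refine ⟨(w ^ 2 * s) * ((w * (X' * s' - c * t')) * (y - a1 * c - a2 * (b - a2 * c)) -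
        (X' ^ 2 * s' - (c * X' + w * (b - a2 * c)) * t') * (b - a2 * c)) -
      (w * (X * s - c * t)) * ((w ^ 2 * s') * (y - a1 * c - a2 * (b - a2 * c)) -
        (X' ^ 2 * s' - (c * X' + w * (b - a2 * c)) * t') * c) +
      (X ^ 2 * s - (c * X + w * (b - a2 * c)) * t) * ((w ^ 2 * s') * (b - a2 * c) -
        (w * (X' * s' - c * t')) * c), mul_left_cancel₀ hn ?_⟩
  linear_combination -k1

lemma card_le_of_dvd {m : ℕ} {k : ℤ} (hk : k ≠ 0) (S : Finset ℕ) (hS : S ⊆ range m)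
    (h : ∀ σ ∈ S, ∀ σ' ∈ S, (m : ℤ) ∣ (σ' - σ) * k) : #S ≤ k.natAbs := by
  have hk' : 0 < k.natAbs := Int.natAbs_pos.2 hk
  rw [← card_range k.natAbs]
  refine card_le_card_of_injOn (fun σ => σ * k.natAbs / m) (fun σ hσ => ?_) fun σ hσ σ' hσ' e => ?_
  · have h1 := mem_range.1 (hS hσ)
    exact mem_coe.2 (mem_range.2 ((Nat.div_lt_iff_lt_mul (by omega)).2
      (by rw [mul_comm]; exact Nat.mul_lt_mul_of_pos_left h1 hk')))
  · have h1 := mem_range.1 (hS hσ)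
    have h2 : (m : ℤ) ∣ (σ' * k.natAbs : ℕ) - (σ * k.natAbs : ℕ) := by
      have := (dvd_abs _ _).2 (h σ hσ σ' hσ')
      rw [abs_mul] at this
      push_cast
      rw [← sub_mul]
      rcases abs_cases ((σ' : ℤ) - σ) with a | a <;> rw [a.1] at this
      · exact this
      · exact (dvd_neg.1 (by rwa [neg_mul] at this))
    have h3 : σ * k.natAbs % m = σ' * k.natAbs % m := Nat.modEq_iff_dvd.2 h2
    have h4 := Nat.div_add_mod (σ * k.natAbs) m
    have h5 := Nat.div_add_mod (σ' * k.natAbs) m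
    simp only at e
    rw [e, h3, h5] at h4
    exact (Nat.eq_of_mul_eq_mul_right hk' h4).symm

open Classical in
/-- the exponential sum over the solutions of a family of congruences. -/
noncomputable def TT (C : ℕ → ℤ → ℤ → Prop) (E : ℤ → Prop) (m : ℕ) (u b : ℤ) : ℂ :=
  if E b then ∑ σ ∈ range m, if C m b σ then ee (u * (σ : ℤ) / m) else 0 else 1

lemma ee_per {m : ℕ} (hm : 0 < m) (u σ : ℤ) :
    ee (u * (σ + m : ℤ) / m) = ee (u * σ / m) := by
  rw [← ee_add_int (u * σ / m) u]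
  congr 1
  push_cast
  field_simp

section
variable {C : ℕ → ℤ → ℤ → Prop} {E : ℤ → Prop} {Q : ℕ}
  (hmul : ∀ m m' : ℕ, m.Coprime m' → ∀ b σ, C (m * m') b σ ↔ C m b σ ∧ C m' b σ)
  (hσ : ∀ m : ℕ, m ∣ Q → ∀ b σ, C m b (σ + m) ↔ C m b σ)
include hmul hσ

lemma TT_mul {m m' : ℕ} (hm : 0 < m) (hm' : 0 < m') (hc : m.Coprime m') (hQ : m * m' ∣ Q)
    {x y : ℤ} (hxy : x * m + y * m' = 1) (u b : ℤ) :
    TT C E (m * m') u b = TT C E m (u * y) b * TT C E m' (u * x) b := by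
  classical
  unfold TT
  split_ifs with h
  · rw [← crt_sum hm' (Nat.isCoprime_iff_coprime.2 hc)
      (fun σ => if C m b σ then ee ((u * y : ℤ) * σ / m) else 0)
      (fun σ => if C m' b σ then ee ((u * x : ℤ) * σ / m') else 0)
      (fun σ => if_congr (hσ m (dvd_of_mul_right_dvd hQ) b σ) (ee_per hm _ σ) rfl)
      (fun σ => if_congr (hσ m' (dvd_of_mul_left_dvd hQ) b σ) (ee_per hm' _ σ) rfl)]
    refine sum_congr rfl fun σ _ => ?_
    rw [if_congr (hmul m m' hc b σ) rfl rfl]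
    by_cases a1 : C m b σ <;> by_cases a2 : C m' b σ <;> simp only [a1, a2, and_self, and_false,
      false_and, if_true, if_false, mul_zero, zero_mul]
    rw [← ee_add]
    congr 1
    have h1 : (x : ℝ) * m + y * m' = 1 := by exact_mod_cast hxy
    have h2 : (m : ℝ) ≠ 0 := by positivity
    have h3 : (m' : ℝ) ≠ 0 := by positivity
    push_cast
    field_simp
    linear_combination (-(u : ℝ) * σ) * h1
  · simp

omit hmul hσ in
lemma TT_norm {m K : ℕ} (hK : 1 ≤ K) (u b : ℤ)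
    (h : E b → ∀ S : Finset ℕ, S ⊆ range m → (∀ σ ∈ S, C m b σ) → #S ≤ K) :
    ‖TT C E m u b‖ ≤ K := by
  classical
  unfold TT
  split_ifs with h1
  · rw [← sum_filter]
    refine (norm_sum_le _ _).trans ?_
    simp only [norm_ee, sum_const, nsmul_eq_mul, mul_one]
    exact_mod_cast h h1 _ (filter_subset _ _) fun σ hσ => (mem_filter.1 hσ).2
  · rw [norm_one]
    exact_mod_cast hK

lemma TT_str {L0 L P T K : ℕ} (hT : T * T ≤ L0) (hT0 : 0 < T) (hK : 1 ≤ K) (per : ℕ → ℕ)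
    (h1 : ∀ b σ, C 1 b σ) (hb : ∀ m b σ, C m (b + per m) σ ↔ C m b σ)
    (hE : ∀ m b, E (b + per m) ↔ E b)
    (hcard : ∀ m m' : ℕ, Q = m * m' → m.Coprime m' → ∀ b, E b → ∀ S : Finset ℕ, S ⊆ range m →
      (∀ σ ∈ S, C m b σ) → #S ≤ K)
    (hper : ∀ m, m ≤ L0 → ¬ P ∣ m → per m ≤ L ∧ ¬ P ∣ per m) :
    ∀ κ M M' : ℕ, 0 < M → M ≤ T ^ κ → ¬ P ∣ M → Q = M * M' → M.Coprime M' →
      (∀ l e : ℕ, l.Prime → l ^ e ∣ M → l ^ e ≤ L0) → ∀ u : ℤ,
      Str L P κ fun b => TT C E M u b / K ^ κ := by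
  intro κ
  induction κ with
  | zero =>
    intro M M' h0 h2 _ _ _ _ u b
    obtain rfl : M = 1 := by simp at h2; omega
    simp [TT, h1]
  | succ κ ih =>
    intro M M' h0 h2 hP hQ hc hpp u
    obtain ⟨m, m', a1, a2, a3, a4⟩ : ∃ m m', M = m * m' ∧ m.Coprime m' ∧ m ≤ L0 ∧ m' ≤ T ^ κ := by
      rcases le_or_gt M L0 with h | h
      · exact ⟨M, 1, by simp, by simp, h, Nat.pow_pos hT0⟩
      · obtain ⟨m, m', b1, b2, b3, b4⟩ := split_modulus h hT hpp
        refine ⟨m, m', b1, b2, b4, Nat.le_of_mul_le_mul_left ?_ hT0⟩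
        calc T * m' ≤ m * m' := Nat.mul_le_mul_right _ b3
          _ ≤ T * T ^ κ := by rw [← b1, ← pow_succ']; exact h2
    subst a1
    have hm : 0 < m := Nat.pos_of_mul_pos_right h0
    have hm' : 0 < m' := Nat.pos_of_mul_pos_left h0
    obtain ⟨x, y, hxy⟩ := Nat.isCoprime_iff_coprime.2 a2
    obtain ⟨c1, c2⟩ := hper m a3 fun h => hP (h.mul_right _)
    have hK' : (0 : ℝ) < K := by exact_mod_cast hK
    refine ⟨per m, fun b => TT C E m (u * y) b / K, _, c1, c2, fun b => ?_, fun b => ?_,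
      ih m' (m * M') hm' a4 (fun h => hP (h.mul_left _)) (by rw [hQ]; ring)
        (Nat.Coprime.mul_right a2.symm (Nat.Coprime.coprime_mul_left hc))
        (fun l e hl h => hpp l e hl (h.mul_left _)) (u * x), fun b => ?_⟩
    · classical
      simp only [TT]
      congr 1
      exact if_congr (hE m b) (sum_congr rfl fun σ _ => if_congr (hb m b σ) rfl rfl) rfl
    · rw [norm_div, Complex.norm_natCast, div_le_one hK']
      exact TT_norm hK _ _ (hcard m (m' * M') (by rw [hQ]; ring)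
        (Nat.Coprime.mul_right a2 (Nat.Coprime.coprime_mul_right hc)) b)
    · simp only
      rw [TT_mul hmul hσ hm hm' a2 ⟨M', hQ⟩ hxy, pow_succ', div_mul_div_comm]

end

lemma Str.mul {L P : ℕ} {κ' : ℕ} {G' : ℤ → ℂ} (h' : Str L P κ' G') : ∀ {κ : ℕ} {G : ℤ → ℂ},
    Str L P κ G → Str L P (κ' + κ) fun n => G n * G' n
  | 0, _, h => by simpa only [h _, one_mul, Nat.add_zero] using h'
  | _ + 1, _, ⟨m, G1, G2, hm, hP, h0, h1, h2, h3⟩ =>
    ⟨m, G1, _, hm, hP, h0, h1, Str.mul h' h2, fun n => by simp only [h3, mul_assoc]⟩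

lemma split_small (Y : ℕ) (M : ℕ) (hM : M ≠ 0) : ∃ s l : ℕ, M = s * l ∧
    (∀ p, p.Prime → p ∣ s → p ≤ Y) ∧ ∀ p, p.Prime → p ∣ l → Y < p := by
  induction M using induction_on_primes with
  | zero => exact absurd rfl hM
  | one => exact ⟨1, 1, rfl, fun p hp h => absurd h hp.not_dvd_one,
      fun p hp h => absurd h hp.not_dvd_one⟩
  | prime_mul q a hq ih =>
    obtain ⟨s, l, rfl, h1, h2⟩ := ih (right_ne_zero_of_mul hM)
    rcases le_or_gt q Y with h | h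
    · refine ⟨q * s, l, by ring, fun p hp hd => ?_, h2⟩
      rcases (Nat.Prime.dvd_mul hp).1 hd with a | a
      · exact (Nat.prime_dvd_prime_iff_eq hp hq).1 a ▸ h
      · exact h1 p hp a
    · refine ⟨s, q * l, by ring, h1, fun p hp hd => ?_⟩
      rcases (Nat.Prime.dvd_mul hp).1 hd with a | a
      · exact (Nat.prime_dvd_prime_iff_eq hp hq).1 a ▸ h
      · exact h2 p hp a

lemma lin_sol {m : ℕ} (hm : 0 < m) {n : ℤ} (hc : IsCoprime n m) (D : ℤ) (g : ℕ → ℂ) :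
    ∃ σ : ℕ, (m : ℤ) ∣ D + n * σ ∧
      ∑ t ∈ range m, (if (m : ℤ) ∣ D + n * t then g t else 0) = g σ := by
  obtain ⟨a, b, hab⟩ := hc
  have hm' : (0 : ℤ) < m := by exact_mod_cast hm
  have h1 := Int.emod_nonneg (-(D * a)) hm'.ne'
  have h2 := Int.emod_lt_of_pos (-(D * a)) hm'
  have h3 : (m : ℤ) ∣ D + n * ((-(D * a) % m).toNat : ℤ) := by
    rw [Int.toNat_of_nonneg h1, Int.emod_def]
    exact ⟨D * b - n * (-(D * a) / m), by linear_combination (-D) * hab⟩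
  refine ⟨_, h3, ?_⟩
  rw [sum_eq_single (-(D * a) % m).toNat (fun t ht hne => if_neg fun h => hne ?_)
    fun h => absurd (mem_range.2 (by omega)) h, if_pos h3]
  have h4 : (m : ℤ) ∣ n * (t - ((-(D * a) % m).toNat : ℤ)) :=
    (dvd_sub h h3).trans (dvd_of_eq (by ring))
  have h5 := (IsCoprime.symm ⟨a, b, hab⟩).dvd_of_dvd_mul_left h4
  have h6 := mem_range.1 ht
  have := Int.eq_zero_of_abs_lt_dvd h5 (abs_lt.2 (by omega))
  omega

lemma pole {P : ℕ} [hP : Fact P.Prime] (u κ e0 y : ℤ) (hy : ¬ (P : ℤ) ∣ y) (hκ : ¬ (P : ℤ) ∣ κ)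
    (hu : ¬ (P : ℤ) ∣ u) : ∃ c : ZMod P → ZMod P, c ≠ 0 ∧ supp c ≤ 1 ∧
      ∀ b σ : ℤ, (P : ℤ) ∣ (e0 - y * b) * σ - κ → ee (u * σ / P) = Fc c b := by
  have hy' : (y : ZMod P) ≠ 0 := (ZMod.intCast_zmod_eq_zero_iff_dvd _ _).not.2 hy
  have hκ' : (κ : ZMod P) ≠ 0 := (ZMod.intCast_zmod_eq_zero_iff_dvd _ _).not.2 hκ
  have hu' : (u : ZMod P) ≠ 0 := (ZMod.intCast_zmod_eq_zero_iff_dvd _ _).not.2 hu
  refine ⟨Pi.single ((e0 : ZMod P) / y) (-(u * κ / y)), ?_, ?_, fun b σ h => ?_⟩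
  · rw [Ne, Pi.single_eq_zero_iff]
    simp [*]
  · refine card_le_one.2 fun a ha b hb => ?_
    simp only [mem_filter, mem_univ, true_and] at ha hb
    rw [Function.mem_support.2 ha |> Pi.support_single_subset,
      Function.mem_support.2 hb |> Pi.support_single_subset]
  · rw [Fc, sum_eq_single ((e0 : ZMod P) / y) (fun b _ hb => by simp [hb]) (by simp),
      Pi.single_eq_same, ← Int.cast_mul, ← stdAddChar_eq]
    congr 1
    have h4 : ((e0 : ZMod P) - y * b) * σ = κ := by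
      have := (ZMod.intCast_zmod_eq_zero_iff_dvd _ _).2 h
      push_cast at this
      linear_combination this
    have h5 : (e0 : ZMod P) - y * b ≠ 0 := by
      intro h
      rw [h, zero_mul] at h4
      exact hκ' h4.symm
    have h7 : (b : ZMod P) - e0 / y = -((e0 - y * b) / y) := by field_simp; ring
    rw [h7, ← h4]
    push_cast
    field_simp

end Pool.Agent.Lib.MP_d315f4_nt.W
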