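import Pool.Agent.Lib.MP_d315f4_nt.W.Brun
import Pool.Agent.Lib.MP_b09185_nt.MaiMertens

/-!
Moduli with a given number of prime factors.
-/

set_option autoImplicit false
set_option maxHeartbeats 400000

open Finset Filter Topology ArithmeticFunction

namespace Pool.Agent.Lib.MP_d315f4_nt.W

open Pool.Agent.Lib.MP_b09185_nt.Mai (Rp m2_lim)

variable {a2 a1 a0 : ℤ} {C w : ℝ} {x : ℕ} {h : ℤ}

lemma om_mul {m p : ℕ} (hm : 0 < m) (hp : p.Prime) : cardFactors (m * p) = cardFactors m + 1 := by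
  rw [cardFactors_mul hm.ne' hp.ne_zero, cardFactors_apply_prime hp]

lemma om_split {n k p : ℕ} (hn : 0 < n) (hk : cardFactors n = k + 1) (hp : p.Prime) (hd : p ∣ n) :
    ∃ m, n = m * p ∧ 0 < m ∧ cardFactors m = k := by
  obtain ⟨m, rfl⟩ := hd
  have hm := Nat.pos_of_mul_pos_left hn
  rw [mul_comm, om_mul hm hp] at hk
  exact ⟨m, mul_comm _ _, hm, by omega⟩

lemma om_ind {Q : ℕ → ℕ → Prop} (h1 : Q 0 1)
    (h2 : ∀ k m p, 0 < m → p.Prime → Q k m → Q (k + 1) (m * p)) :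
    ∀ k n, 0 < n → cardFactors n = k → Q k n := by
  intro k
  induction k with
  | zero => exact fun n hn h => (cardFactors_eq_zero_iff_eq_zero_or_one.1 h).resolve_left hn.ne' ▸ h1
  | succ k ih =>
    intro n hn h
    obtain ⟨p, hp, hd⟩ := Nat.exists_prime_and_dvd
      ((cardFactors_pos_iff_one_lt (n := n)).1 (by omega)).ne'
    obtain ⟨m, rfl, hm, h3⟩ := om_split hn h hp hd
    exact h2 k m p hm hp (ih m hm h3)

lemma rho_om (hI : Irr a2 a1 a0) : ∀ k n, 0 < n → cardFactors n = k →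
    (rho a2 a1 a0 n : ℝ) ≤ Kf a2 a1 a0 ^ k :=
  om_ind (by simp [rho]) fun k m p hm hp h => (rho_mul hI hm hp).trans (by rw [pow_succ']; gcongr)

lemma le_pow_om {T : ℝ} : ∀ k n, 0 < n → cardFactors n = k →
    (∀ p, p.Prime → p ∣ n → (p : ℝ) ≤ T) → (n : ℝ) ≤ T ^ k :=
  om_ind (by simp) fun k m p hm hp h H => by
    have h1 := h fun q h1 h2 => H q h1 (h2.mul_right _)
    rw [pow_succ, Nat.cast_mul]
    exact mul_le_mul h1 (H p hp (dvd_mul_left _ _)) (Nat.cast_nonneg _)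
      ((Nat.cast_nonneg _).trans h1)

/-- products of a given number of elements of a set. -/
def Am (B : Finset ℕ) : ℕ → Finset ℕ
  | 0 => {1}
  | j + 1 => (Am B j ×ˢ B).image fun s => s.1 * s.2

lemma mem_Am (B : Finset ℕ) : ∀ k n, 0 < n → cardFactors n = k →
    (∀ p, p.Prime → p ∣ n → p ∈ B) → n ∈ Am B k :=
  om_ind (by simp [Am]) fun k m p _ hp h H => mem_image.2 ⟨(m, p), mem_product.2
    ⟨h fun q h1 h2 => H q h1 (h2.mul_right _), H p hp (dvd_mul_left _ _)⟩, rfl⟩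

lemma of_mem_Am {B : Finset ℕ} {T : ℝ} (hB : ∀ p ∈ B, p.Prime ∧ (p : ℝ) ≤ T) (k : ℕ) :
    ∀ n ∈ Am B k, 0 < n ∧ cardFactors n = k ∧ (n : ℝ) ≤ T ^ k := by
  induction k with
  | zero => simp [Am]
  | succ k ih =>
    intro n hn
    obtain ⟨s, hs, rfl⟩ := mem_image.1 hn
    obtain ⟨h1, h2, h3⟩ := ih _ (mem_product.1 hs).1
    obtain ⟨h4, h5⟩ := hB _ (mem_product.1 hs).2
    refine ⟨Nat.mul_pos h1 h4.pos, by rw [om_mul h1 h4, h2], ?_⟩
    rw [pow_succ, Nat.cast_mul]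
    exact mul_le_mul h3 h5 (Nat.cast_nonneg _) ((Nat.cast_nonneg _).trans h3)

lemma fib {j : ℕ} (S : Finset (ℕ × ℕ)) (hS : ∀ s ∈ S, 0 < s.1 ∧ cardFactors s.1 = j ∧ s.2.Prime)
    (g : ℕ → ℝ) (hg : ∀ n, 0 ≤ g n) :
    ∑ s ∈ S, g (s.1 * s.2) ≤ (j + 1) * ∑ n ∈ S.image fun s => s.1 * s.2, g n := by
  rw [sum_comp g fun s : ℕ × ℕ => s.1 * s.2, mul_sum]
  refine sum_le_sum fun n hn => ?_
  obtain ⟨s, hs, rfl⟩ := mem_image.1 hn
  obtain ⟨h1, h2, h3⟩ := hS s hs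
  rw [nsmul_eq_mul]
  refine mul_le_mul_of_nonneg_right ?_ (hg _)
  have : #{a ∈ S | a.1 * a.2 = s.1 * s.2} ≤ j + 1 := by
    rw [← h2, ← om_mul h1 h3, cardFactors_apply]
    refine le_trans (card_le_card_of_injOn (t := (s.1 * s.2).primeFactorsList.toFinset) Prod.snd
      (fun a ha => ?_) fun a ha b hb e => ?_) (List.toFinset_card_le _)
    · obtain ⟨a1, a2⟩ := mem_filter.1 ha
      exact mem_coe.2 (List.mem_toFinset.2 ((Nat.mem_primeFactorsList
        (Nat.mul_pos h1 h3.pos).ne').2 ⟨(hS a a1).2.2, a2 ▸ dvd_mul_left _ _⟩))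
    · obtain ⟨a1, a2⟩ := mem_filter.1 ha
      refine Prod.ext (Nat.eq_of_mul_eq_mul_right (hS a a1).2.2.pos ?_) e
      rw [a2, e, (mem_filter.1 hb).2]
  exact_mod_cast this

lemma Am_sum {B : Finset ℕ} {T : ℝ} (hB : ∀ p ∈ B, p.Prime ∧ (p : ℝ) ≤ T) (k : ℕ) :
    ∑ n ∈ Am B k, 1 / (n : ℝ) ≤ (∑ p ∈ B, 1 / (p : ℝ)) ^ k ∧
      (∑ p ∈ B, 1 / (p : ℝ)) ^ k ≤ k.factorial * ∑ n ∈ Am B k, 1 / (n : ℝ) := by
  induction k with
  | zero => simp [Am]
  | succ k ih =>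
    have e : ∑ s ∈ Am B k ×ˢ B, 1 / ((s.1 * s.2 : ℕ) : ℝ) =
        (∑ n ∈ Am B k, 1 / (n : ℝ)) * ∑ p ∈ B, 1 / (p : ℝ) := by
      rw [sum_mul_sum, sum_product]
      simp only [Nat.cast_mul, div_mul_div_comm, one_mul]
    have h0 : 0 ≤ ∑ p ∈ B, 1 / (p : ℝ) := by positivity
    rw [pow_succ, Am]
    constructor
    · refine le_trans ?_ (e.le.trans (mul_le_mul_of_nonneg_right ih.1 h0))
      rw [sum_comp (fun n : ℕ => 1 / (n : ℝ)) fun s : ℕ × ℕ => s.1 * s.2]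
      refine sum_le_sum fun n hn => ?_
      obtain ⟨s, hs, rfl⟩ := mem_image.1 hn
      rw [nsmul_eq_mul]
      exact le_mul_of_one_le_left (by positivity)
        (Nat.one_le_cast.2 (card_pos.2 ⟨s, mem_filter.2 ⟨hs, rfl⟩⟩))
    · refine (mul_le_mul_of_nonneg_right ih.2 h0).trans ?_
      rw [mul_assoc, ← e, Nat.factorial_succ, mul_comm (k + 1), Nat.cast_mul, mul_assoc]
      refine mul_le_mul_of_nonneg_left ?_ (Nat.cast_nonneg _)
      exact_mod_cast fib (j := k) _ (fun s hs => by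
        obtain ⟨h1, h2, -⟩ := of_mem_Am hB k _ (mem_product.1 hs).1
        exact ⟨h1, h2, (hB _ (mem_product.1 hs).2).1⟩) (fun n => 1 / (n : ℝ)) fun _ => by positivity

lemma cheb' {x : ℝ} (hx : 16 ≤ x) : x / Real.log x ≤ 4 * Nat.primeCounting ⌊x⌋₊ := by
  have h := Chebyshev.pi_ge' (x := x) (by linarith)
  have hl : 0 < Real.log x := Real.log_pos (by linarith)
  have h1 := Real.log_le_self (x := (x + 2) / 2 ^ 4) (by positivity)
  rw [Real.log_div (by positivity) (by positivity), Real.log_pow] at h1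
  rw [div_le_iff₀ hl] at h ⊢
  push_cast at h1
  nlinarith [Real.log_two_gt_d9, Real.log_two_lt_d9]

lemma count_low (x j : ℕ) {T : ℝ} (hT0 : 0 ≤ T) (hT : 16 * T ^ j ≤ x) :
    Rp T ^ j * (x / Real.log x) ≤
      4 * (j + 1).factorial * #{n ∈ Ioc 0 x | cardFactors n = j + 1} := by
  have hB : ∀ p ∈ Nat.primesLE ⌊T⌋₊, p.Prime ∧ (p : ℝ) ≤ T := fun p hp =>
    ⟨(Nat.mem_primesLE.1 hp).2, (Nat.le_floor_iff hT0).1 (Nat.mem_primesLE.1 hp).1⟩
  set S := (Am (Nat.primesLE ⌊T⌋₊) j ×ˢ Nat.primesLE x).filter fun s => s.1 * s.2 ≤ x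
  have hS : ∀ s ∈ S, 0 < s.1 ∧ cardFactors s.1 = j ∧ s.2.Prime := fun s hs => by
    obtain ⟨h1, h2⟩ := mem_product.1 (mem_filter.1 hs).1
    obtain ⟨h3, h4, -⟩ := of_mem_Am hB j _ h1
    exact ⟨h3, h4, (Nat.mem_primesLE.1 h2).2⟩
  have k1 := fib S hS (fun _ => 1) fun _ => zero_le_one
  simp only [sum_const, nsmul_eq_mul, mul_one] at k1
  have k2 : (#(S.image fun s => s.1 * s.2) : ℝ) ≤ #{n ∈ Ioc 0 x | cardFactors n = j + 1} := by
    refine Nat.cast_le.2 (card_le_card fun n hn => ?_)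
    obtain ⟨s, hs, rfl⟩ := mem_image.1 hn
    obtain ⟨h1, h2, h3⟩ := hS s hs
    exact mem_filter.2 ⟨mem_Ioc.2 ⟨Nat.mul_pos h1 h3.pos, (mem_filter.1 hs).2⟩,
      by rw [om_mul h1 h3, h2]⟩
  have k3 : (∑ n ∈ Am (Nat.primesLE ⌊T⌋₊) j, 1 / (n : ℝ)) * (x / Real.log x) ≤ 4 * #S := by
    rw [card_filter, sum_product, Nat.cast_sum, sum_mul, mul_sum]
    refine sum_le_sum fun m hm => ?_
    obtain ⟨h1, -, h3⟩ := of_mem_Am hB j _ hm
    have m1 : (1 : ℝ) ≤ m := by exact_mod_cast h1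
    have m2 : (16 : ℝ) ≤ x / m := by
      rw [le_div_iff₀ (by linarith)]
      linarith
    have m3 : Real.log (x / m) ≤ Real.log x :=
      Real.log_le_log (by linarith) (div_le_self (Nat.cast_nonneg _) m1)
    calc _ = x / m / Real.log x := by ring
      _ ≤ x / m / Real.log (x / m) :=
        div_le_div_of_nonneg_left (by linarith) (Real.log_pos (by linarith)) m3
      _ ≤ _ := (cheb' m2).trans (mul_le_mul_of_nonneg_left (Nat.cast_le.2 ?_) (by norm_num))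
    rw [← card_filter, ← Nat.primesLE_card_eq_primeCounting, Nat.floor_div_eq_div]
    refine card_le_card fun p hp => ?_
    obtain ⟨p1, p2⟩ := Nat.mem_primesLE.1 hp
    exact mem_filter.2 ⟨Nat.mem_primesLE.2 ⟨p1.trans (Nat.div_le_self _ _), p2⟩,
      mul_comm p m ▸ (Nat.le_div_iff_mul_le h1).1 p1⟩
  have k4 : 0 ≤ x / Real.log x := div_nonneg (Nat.cast_nonneg _) (Real.log_natCast_nonneg _)
  calc _ ≤ j.factorial * ((∑ n ∈ Am (Nat.primesLE ⌊T⌋₊) j, 1 / (n : ℝ)) * (x / Real.log x)) := by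
        rw [← mul_assoc]
        exact mul_le_mul_of_nonneg_right (Am_sum hB j).2 k4
    _ ≤ j.factorial * (4 * ((j + 1) * #{n ∈ Ioc 0 x | cardFactors n = j + 1})) :=
        mul_le_mul_of_nonneg_left (k3.trans (mul_le_mul_of_nonneg_left (k1.trans
          (mul_le_mul_of_nonneg_left k2 (by positivity))) (by norm_num))) (Nat.cast_nonneg _)
    _ = _ := by rw [Nat.factorial_succ]; push_cast; ring

lemma count_up (x j : ℕ) {T : ℝ} (hT : 1 < T) {B : Finset ℕ} (hB : ∀ p ∈ B, p.Prime ∧ (p : ℝ) ≤ x)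
    (S : Finset ℕ) (hS : ∀ n ∈ S, 0 < n ∧ n ≤ x ∧ cardFactors n = j + 1 ∧
      ∀ p, p.Prime → p ∣ n → p ∈ B) :
    (#S : ℝ) ≤ T ^ (j + 1) + Real.log 4 * (x / Real.log T) * (∑ p ∈ B, 1 / (p : ℝ)) ^ j := by
  classical
  have hl := Real.log_pos hT
  have h1 : S ⊆ Ioc 0 ⌊T ^ (j + 1)⌋₊ ∪ (Am B j).biUnion fun m =>
      ((Nat.primesLE (x / m)).filter fun p : ℕ => T < p).image (m * ·) := fun n hn => by
    obtain ⟨n1, n2, n3, n4⟩ := hS n hn
    by_cases h : ∀ p, p.Prime → p ∣ n → (p : ℝ) ≤ T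
    · exact mem_union_left _ (mem_Ioc.2 ⟨n1, Nat.le_floor (le_pow_om _ n n1 n3 h)⟩)
    · push Not at h
      obtain ⟨p, p1, p2, p3⟩ := h
      obtain ⟨m, rfl, m1, m2⟩ := om_split n1 n3 p1 p2
      exact mem_union_right _ (mem_biUnion.2 ⟨m, mem_Am B j m m1 m2 fun q q1 q2 =>
        n4 q q1 (q2.mul_right _), mem_image.2 ⟨p, mem_filter.2 ⟨Nat.mem_primesLE.2
          ⟨(Nat.le_div_iff_mul_le m1).2 (mul_comm m p ▸ n2), p1⟩, p3⟩, rfl⟩⟩)
  refine le_trans (Nat.cast_le.2 ((card_le_card h1).trans ((card_union_le _ _).trans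
    (Nat.add_le_add_left card_biUnion_le _)))) ?_
  rw [Nat.cast_add, Nat.card_Ioc, Nat.sub_zero, Nat.cast_sum]
  refine add_le_add (Nat.floor_le (by positivity)) (le_trans ?_ (mul_le_mul_of_nonneg_left
    (Am_sum hB j).1 (mul_nonneg (Real.log_nonneg (by norm_num)) (by positivity))))
  rw [mul_sum]
  refine sum_le_sum fun m _ => le_trans (Nat.cast_le.2 card_image_le) ?_
  have h2 := Chebyshev.theta_le_log4_mul_x (x := (x / m : ℕ)) (Nat.cast_nonneg _)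
  rw [Chebyshev.theta_eq_sum_primesLE_log] at h2
  refine le_of_mul_le_mul_right ?_ hl
  calc _ ≤ ∑ p ∈ (Nat.primesLE (x / m)).filter fun p : ℕ => T < p, Real.log p := by
        rw [← nsmul_eq_mul]
        exact card_nsmul_le_sum _ _ _ fun p hp =>
          Real.log_le_log (by linarith) (mem_filter.1 hp).2.le
    _ ≤ Real.log 4 * (x / m) := (sum_le_sum_of_subset_of_nonneg (filter_subset _ _)
        fun p _ _ => Real.log_natCast_nonneg p).trans (h2.trans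
          (mul_le_mul_of_nonneg_left Nat.cast_div_le (Real.log_nonneg (by norm_num))))
    _ = _ := by field_simp

open Classical in
lemma om_bound (hI : Irr a2 a1 a0) (hC : 0 ≤ C) (H : TypeI a2 a1 a0 C x w) (h0 : h ≠ 0)
    (hh : |(h : ℝ)| ≤ w) {J : ℕ} (hJ : 1 ≤ J) (j : ℕ) {T y : ℝ} (hT : 1 < T)
    (hy : ((J ^ 3 : ℕ) : ℝ) ≤ y) :
    ‖∑ n ∈ Ioc 0 x with cardFactors n = j + 1, Wn a2 a1 a0 h n‖ ≤
      C * (27 * Kf a2 a1 a0 * (x / J) + x / w) + Kf a2 a1 a0 ^ (j + 1) *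
        (T ^ (j + 1) + Real.log 4 * (x / Real.log T) * (Rp y + (Rp x - Rp w)) ^ j) := by
  have w1 := H.1
  have b1 := typeII hI hC H h0 hh hJ (Nat.floor_le (by linarith : 0 ≤ w))
    (fun n => if cardFactors n = j + 1 then 1 else 0) (fun n => if cardFactors n = j then 1 else 0)
    (fun m => by split_ifs <;> simp) fun m p hm hp _ => by simp only [om_mul hm hp, add_left_inj]
  set B := (Nat.primesLE x).filter fun p => ¬ (J ^ 3 < p ∧ p ≤ ⌊w⌋₊)
  have b2 := count_up x j hT (B := B) (fun p hp => by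
      obtain ⟨h1, h2⟩ := Nat.mem_primesLE.1 (mem_filter.1 hp).1
      exact ⟨h2, Nat.cast_le.2 h1⟩)
    {n ∈ {n ∈ Ioc 0 x | cardFactors n = j + 1} | ¬ ∃ p, p.Prime ∧ p ∣ n ∧ J ^ 3 < p ∧ p ≤ ⌊w⌋₊}
    fun n hn => by
      obtain ⟨h1, h2⟩ := mem_filter.1 hn
      obtain ⟨h3, h4⟩ := mem_filter.1 h1
      obtain ⟨h5, h6⟩ := mem_Ioc.1 h3
      exact ⟨h5, h6, h4, fun p p1 p2 => mem_filter.2 ⟨Nat.mem_primesLE.2
        ⟨(Nat.le_of_dvd h5 p2).trans h6, p1⟩, fun h7 => h2 ⟨p, p1, p2, h7⟩⟩⟩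
  have b3 : ∑ p ∈ B, 1 / (p : ℝ) ≤ Rp y + (Rp x - Rp w) := by
    have h1 : Nat.primesLE ⌊w⌋₊ ⊆ Nat.primesLE ⌊(x : ℝ)⌋₊ :=
      Nat.primesLE_mono (Nat.floor_mono H.2.1)
    rw [Rp, Rp, Rp, ← sum_sdiff_eq_sub h1]
    refine (sum_le_sum_of_subset_of_nonneg (t := Nat.primesLE ⌊y⌋₊ ∪
      (Nat.primesLE ⌊(x : ℝ)⌋₊ \ Nat.primesLE ⌊w⌋₊)) (fun p hp => ?_)
      fun _ _ _ => by positivity).trans ?_
    · have := Nat.le_floor hy
      simp only [B, mem_filter, mem_union, Finset.mem_sdiff, Nat.mem_primesLE,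
        Nat.floor_natCast] at hp ⊢
      obtain ⟨⟨h1, h2⟩, h3⟩ := hp
      simp only [h2, and_true]
      omega
    · rw [← sum_union_inter]
      exact le_add_of_nonneg_right (by positivity)
  rw [← sum_filter_add_sum_filter_not _ fun n => ∃ p, p.Prime ∧ p ∣ n ∧ J ^ 3 < p ∧ p ≤ ⌊w⌋₊]
  refine (norm_add_le _ _).trans (add_le_add (le_trans (le_of_eq (congrArg _ ?_)) b1)
    ((norm_sum_le _ _).trans ((sum_le_card_nsmul _ _ ((Kf a2 a1 a0 : ℝ) ^ (j + 1))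
      fun n hn => ?_).trans ?_)))
  · rw [filter_comm, sum_filter]
    simp only [ite_mul, one_mul, zero_mul]
  · obtain ⟨h3, h4⟩ := mem_filter.1 (mem_filter.1 hn).1
    exact (Wn_norm h n).trans (rho_om hI _ n (mem_Ioc.1 h3).1 h4)
  · rw [nsmul_eq_mul, mul_comm]
    have := (Real.log_pos hT).le
    have := Real.log_nonneg (by norm_num : (1 : ℝ) ≤ 4)
    gcongr
    refine b2.trans ?_
    gcongr

theorem omega_lim (hI : Irr a2 a1 a0) (h0 : h ≠ 0) {j : ℕ} (hj : 1 ≤ j) :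
    Tendsto (fun x : ℕ => (∑ n ∈ Ioc 0 x with cardFactors n = j + 1, Wn a2 a1 a0 h n) /
      (#{n ∈ Ioc 0 x | cardFactors n = j + 1} : ℂ)) atTop (𝓝 0) := by
  obtain ⟨η, C, hη, hC, H⟩ := typeI hI
  obtain ⟨M, hM⟩ := m2_lim
  obtain ⟨t0, ht⟩ := eventually_atTop.1 (hM.eventually (Metric.ball_mem_nhds M one_pos))
  replace ht : ∀ t, t0 ≤ t → Real.log (Real.log t) + M - 1 ≤ Rp t ∧
      Rp t ≤ Real.log (Real.log t) + M + 1 := fun t h => by
    have := abs_lt.1 (Real.dist_eq _ _ ▸ ht t h)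
    constructor <;> linarith
  obtain ⟨K, hK⟩ : ∃ K : ℝ, K = Kf a2 a1 a0 := ⟨_, rfl⟩
  have K0 : 0 ≤ K := hK ▸ Nat.cast_nonneg _
  obtain ⟨κ, hκ⟩ : ∃ κ : ℝ, κ = 2 * (j + 1) := ⟨_, rfl⟩
  have κ0 : 0 < κ := by rw [hκ]; positivity
  obtain ⟨c, hc⟩ : ∃ c : ℝ, c = Real.log 6 + M + 3 - Real.log η := ⟨_, rfl⟩
  obtain ⟨D, hD⟩ : ∃ D : ℝ, D = C * (27 * K + 1) + K ^ (j + 1) * (2 + Real.log 4 * κ) := ⟨_, rfl⟩
  have l4 := Real.log_nonneg (by norm_num : (1 : ℝ) ≤ 4)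
  have tx : Tendsto (fun x : ℕ => (x : ℝ)) atTop atTop := tendsto_natCast_atTop_atTop
  have tL := Real.tendsto_log_atTop.comp tx
  have tl := Real.tendsto_log_atTop.comp tL
  have tw := (tendsto_rpow_atTop hη).comp tx
  have tT := (tendsto_rpow_atTop (inv_pos.2 κ0)).comp tx
  have t1 : Tendsto (fun l : ℝ => 4 * (j + 1).factorial * D * ((2 / l) ^ j +
      (2 * (Real.log l / l + c / l)) ^ j)) atTop (𝓝 0) := by
    have a1 := (tendsto_const_nhds (x := (2 : ℝ)).div_atTop tendsto_id).pow j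
    have a2 := ((Real.isLittleO_log_id_atTop.tendsto_div_nhds_zero.add
      (tendsto_const_nhds (x := c).div_atTop tendsto_id)).const_mul 2).pow j
    simpa [zero_pow (by omega : j ≠ 0)] using (a1.add a2).const_mul (4 * (j + 1).factorial * D)
  refine squeeze_zero_norm' ?_ (t1.comp tl)
  filter_upwards [eventually_ge_atTop 256, tx.eventually_ge_atTop t0, tL.eventually_ge_atTop 2,
    tL.eventually_ge_atTop t0, tl.eventually_gt_atTop 0,
    tl.eventually_ge_atTop (2 * (Real.log κ - M + 1)), tw.eventually_ge_atTop |(h : ℝ)|,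
    tw.eventually_ge_atTop t0, tT.eventually_ge_atTop t0, tT.eventually_gt_atTop 1,
    tx.eventually (isLittleO_log_rpow_atTop hη).eventuallyLE]
    with x x1 x2 x3 x4 x5 x6 x7 x8 x9 x10 x11
  simp only [Function.comp] at x3 x4 x5 x6 x7 x8 x9 x10 ⊢
  have x0 : (256 : ℝ) ≤ x := by exact_mod_cast x1
  have w0 : Real.log (x ^ η) = η * Real.log x := Real.log_rpow (by linarith) _
  have T0 : Real.log (x ^ κ⁻¹) = κ⁻¹ * Real.log x := Real.log_rpow (by linarith) _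
  have T1 : ((x : ℝ) ^ κ⁻¹) ^ (j + 1) = x ^ (1 / 2 : ℝ) := by
    rw [← Real.rpow_mul_natCast (by linarith), hκ]
    congr 1
    push_cast
    field_simp
  have s1 : (x : ℝ) ^ (1 / 2 : ℝ) * x ^ (1 / 2 : ℝ) = x := by
    rw [← Real.rpow_add (by linarith)]
    norm_num
  have s2 := Real.log_le_rpow_div (x := x) (ε := 1 / 2) (by linarith) (by norm_num)
  rw [Real.norm_of_nonneg (by linarith), Real.norm_of_nonneg (by positivity)] at x11
  have b1 := om_bound hI hC (H x (by omega)) h0 x7 (J := ⌈Real.log x⌉₊)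
    (Nat.one_le_ceil_iff.2 (by linarith)) j x10 (y := Real.log x ^ 6) (by
      have := Nat.ceil_lt_add_one (by linarith : 0 ≤ Real.log x)
      rw [Nat.cast_pow, show 6 = 2 * 3 from rfl, pow_mul]
      exact pow_le_pow_left₀ (Nat.cast_nonneg _) (by nlinarith) 3)
  have b2 := count_low x j (T := x ^ κ⁻¹) (by linarith) (by
    have d1 := (pow_le_pow_right₀ x10.le (Nat.le_add_right j 1)).trans T1.le
    have d2 : 0 ≤ (x : ℝ) ^ (1 / 2 : ℝ) := by positivity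
    have d3 : 16 ≤ (x : ℝ) ^ (1 / 2 : ℝ) := by nlinarith
    nlinarith)
  have b3 := (ht _ (x4.trans (le_self_pow₀ (by linarith) (by norm_num : 6 ≠ 0)))).2
  have b4 := (ht _ x2).2
  have b5 := (ht _ x8).1
  have b6 := (ht _ x9).1
  have b7 := Nat.le_ceil (Real.log x)
  have b8 : 0 ≤ Rp (Real.log x ^ 6) + (Rp x - Rp (x ^ η)) := add_nonneg
    (sum_nonneg fun _ _ => by positivity) (sub_nonneg.2 (sum_le_sum_of_subset_of_nonneg
      (Nat.primesLE_mono (Nat.floor_mono (H x (by omega)).2.1)) fun _ _ _ => by positivity))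
  rw [Real.log_pow, Real.log_mul (by norm_num) x5.ne'] at b3
  rw [w0, Real.log_mul hη.ne' (by linarith)] at b5
  rw [T0, Real.log_mul (by positivity) (by linarith), Real.log_inv] at b6
  rw [T0, T1, ← hK] at b1
  have b9 : Rp (Real.log x ^ 6) + (Rp x - Rp (x ^ η)) ≤
      Real.log (Real.log (Real.log x)) + c := by push_cast at b3; linarith
  have b10 : Real.log (Real.log x) / 2 ≤ Rp (x ^ κ⁻¹) := by linarith
  rw [norm_div, Complex.norm_natCast]
  generalize ‖∑ n ∈ Ioc 0 x with cardFactors n = j + 1, Wn a2 a1 a0 h n‖ = S at b1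
  generalize (#{n ∈ Ioc 0 x | cardFactors n = j + 1} : ℝ) = P at b2
  generalize Rp (Real.log x ^ 6) + (Rp x - Rp (x ^ η)) = A at b1 b8 b9
  generalize Real.log (Real.log (Real.log x)) = l2 at b9
  generalize Real.log (Real.log x) = l at b10 x5
  generalize (x : ℝ) ^ η = w at b1 x11
  generalize (x : ℝ) ^ (1 / 2 : ℝ) = s at b1 s1 s2
  generalize (⌈Real.log x⌉₊ : ℝ) = J at b1 b7
  generalize Real.log x = L at b1 b2 b7 x3 x11 s2
  have L0 : 0 < L := by linarith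
  have c1 : s ≤ 2 * (x / L) := by
    rw [← mul_div_assoc, le_div_iff₀ L0]
    nlinarith
  have c2 : (l / 2) ^ j * (x / L) ≤ 4 * (j + 1).factorial * P := le_trans (by gcongr) b2
  have c3 : 0 < (l / 2) ^ j * (x / L) := by positivity
  have c4 : 0 < P := (mul_pos_iff_of_pos_left (by positivity)).1 (c3.trans_le c2)
  have c5 : 0 ≤ (l2 + c) ^ j := pow_nonneg (b8.trans b9) _
  have c6 : S ≤ D * (1 + (l2 + c) ^ j) * (x / L) :=
    calc S ≤ C * (27 * K * (x / L) + x / L) + K ^ (j + 1) *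
          (2 * (x / L) + Real.log 4 * (x / (κ⁻¹ * L)) * (l2 + c) ^ j) := b1.trans (by gcongr)
      _ = (C * (27 * K + 1) * 1 + K ^ (j + 1) *
          (2 * 1 + Real.log 4 * κ * (l2 + c) ^ j)) * (x / L) := by field_simp
      _ ≤ (C * (27 * K + 1) * (1 + (l2 + c) ^ j) + K ^ (j + 1) * (2 * (1 + (l2 + c) ^ j) +
          Real.log 4 * κ * (1 + (l2 + c) ^ j))) * (x / L) := by gcongr <;> linarith
      _ = _ := by rw [hD]; ring
  have D0 : 0 ≤ D := by rw [hD]; positivity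
  rw [div_le_iff₀ c4]
  calc S ≤ D * (1 + (l2 + c) ^ j) * (2 / l) ^ j * ((l / 2) ^ j * (x / L)) := by
        rw [mul_assoc, ← mul_assoc (_ ^ j), ← mul_pow, show 2 / l * (l / 2) = 1 by field_simp,
          one_pow, one_mul]
        exact c6
    _ ≤ D * (1 + (l2 + c) ^ j) * (2 / l) ^ j * (4 * (j + 1).factorial * P) := by gcongr
    _ = _ := by
      rw [show 2 * (l2 / l + c / l) = (l2 + c) * (2 / l) by ring, mul_pow]
      ring

end Pool.Agent.Lib.MP_d315f4_nt.W
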