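import Pool.Agent.Lib.MP_d315f4_nt.W.Cond

/-!
The oscillating function on a good line.
-/

set_option autoImplicit false
set_option maxHeartbeats 400000

open Finset

namespace Pool.Agent.Lib.MP_d315f4_nt.W

/-- numerical hypotheses for the line estimate. -/
structure Par (Y0 L W Z1 Z2 Qm Pm T0 Ls Ts L' K H1 R : ℕ) (ℓ w : ℝ) : Prop where
  hQ : Qm ≤ L * L * (Z1 * Z2)
  hW : W ^ 6 ≤ L
  hY : Y0 < Z1
  hZ2 : 0 < Z2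
  hP : Qm ≤ Pm * (Z1 * Z2)
  hLP : L ≤ Pm
  hT : T0 * T0 ≤ L
  hT0 : 0 < T0
  hT7 : Qm ≤ T0 ^ 7
  hTs : Ts * Ts ≤ Ls
  hTs0 : 0 < Ts
  hWs : W ^ 6 ≤ Ls
  hT19 : Qm ≤ Ts ^ 19
  hLs : Ls ^ 3 * K ≤ L'
  hL : L * K ≤ L'
  hKK : K * K ≤ L'
  hK : K < Z1
  hR : R = 2 ^ 27
  hRZ : R < Z1
  hH1 : H1 ≤ Z1
  hHL : (H1 : ℝ) * L' ≤ ℓ
  hw0 : 0 ≤ w
  hw1 : w ≤ 1
  hδ : 1 ≤ w ^ R * H1
  hb : ∀ P : ℕ, Z1 ≤ P → P ≤ Pm → (ℓ / P + 1 + Real.log P) * (3 * R * √P) ≤ w ^ R * ℓ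

lemma not_dvd_y {a2 a1 a0 y c : ℤ} {P M : ℕ} (hP : P.Prime) (h0 : ¬ (P : ℤ) ∣ a0)
    (hPM : (qq a2 a1 a0 y c).natAbs = P * M) (hPM' : ¬ P ∣ M) : ¬ (P : ℤ) ∣ y := by
  have hP' := Nat.prime_iff_prime_int.1 hP
  intro hy
  have a1' : (P : ℤ) ∣ qq a2 a1 a0 y c := Int.natCast_dvd.2 ⟨M, hPM⟩
  have a2' : (P : ℤ) ∣ a0 ^ 2 * c ^ 3 := by
    refine (dvd_sub (hy.mul_right (y ^ 2 - a1 * y * c + a2 * a0 * c ^ 2)) a1').trans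
      (dvd_of_eq ?_)
    rw [qq]; ring
  rcases hP'.dvd_or_dvd a2' with h | h
  · exact h0 (hP'.dvd_of_dvd_pow h)
  · obtain ⟨c', rfl⟩ := hP'.dvd_of_dvd_pow h
    obtain ⟨y', rfl⟩ := hy
    apply hPM'
    have a3 : (P : ℤ) * P ∣ qq a2 a1 a0 (P * y') (P * c') :=
      ⟨P * qq a2 a1 a0 y' c', by simp only [qq]; ring⟩
    rw [← Nat.cast_mul, Int.natCast_dvd, hPM] at a3
    exact Nat.dvd_of_mul_dvd_mul_left hP.pos a3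

lemma TT_pole {Λ : LD} (hε : Λ.ε * Λ.ε = 1) (hQ : (Λ.Q : ℤ) = Λ.ε * qq Λ.a2 Λ.a1 Λ.a0 Λ.y Λ.c)
    {b : ℤ} (hE : Λ.E b) {P : ℕ} (hP : 0 < P) (hPQ : P ∣ Λ.Q) (hc : IsCoprime (Λ.n b) P) (u : ℤ) :
    ∃ σ : ℤ, (P : ℤ) ∣ (Λ.a2 * Λ.y * Λ.c - Λ.a0 * Λ.c ^ 2 + Λ.y * Λ.o - Λ.y * b) * σ -
      Λ.k * Λ.ε * Λ.y ^ 2 ∧ TT Λ.C Λ.E P u b = ee (u * σ / P) := by
  classical
  obtain ⟨σ, h1, h2⟩ := lin_sol hP hc (Λ.D b) fun t => ee (u * (t : ℤ) / P)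
  refine ⟨σ, hc.symm.dvd_of_dvd_mul_left ?_, ?_⟩
  · have e1 : DD Λ.a2 Λ.a1 Λ.a0 Λ.y (b - Λ.o) Λ.c *
        (Λ.a2 * Λ.y * Λ.c - Λ.a0 * Λ.c ^ 2 - Λ.y * (b - Λ.o)) -
        (Λ.y ^ 2 - Λ.a1 * Λ.y * Λ.c + Λ.a0 * (b - Λ.o) * Λ.c) * qq Λ.a2 Λ.a1 Λ.a0 Λ.y Λ.c +
        Λ.N b * Λ.y ^ 2 = 0 := by
      simp only [DD, qq, nm, LD.N]; ring
    rw [LD.N_eq hE] at e1
    refine (dvd_sub (h1.mul_left (Λ.a2 * Λ.y * Λ.c - Λ.a0 * Λ.c ^ 2 - Λ.y * (b - Λ.o)))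
      ((Int.natCast_dvd_natCast.2 hPQ).mul_left
        (Λ.y ^ 2 - Λ.a1 * Λ.y * Λ.c + Λ.a0 * (b - Λ.o) * Λ.c))).trans (dvd_of_eq ?_)
    rw [hQ, LD.D]
    linear_combination Λ.ε * e1
  · rw [TT, if_pos hE, ← h2]
    exact sum_congr rfl fun t _ => if_congr ((LD.C_iff_C' hε hQ hE hPQ hc t).trans
      (and_iff_right hc)) rfl rfl

theorem osc {Y0 L W Z1 Z2 Qm Pm T0 Ls Ts L' K H1 R : ℕ} {ℓ w : ℝ}
    (par : Par Y0 L W Z1 Z2 Qm Pm T0 Ls Ts L' K H1 R ℓ w) (Λ : LD) (hI : Irr Λ.a2 Λ.a1 Λ.a0)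
    (hε : Λ.ε * Λ.ε = 1) (hQ : (Λ.Q : ℤ) = Λ.ε * qq Λ.a2 Λ.a1 Λ.a0 Λ.y Λ.c)
    (h0 : |Λ.a0| ≤ Y0) (hc : Λ.c ≠ 0) (hg : Good Y0 L W (qq Λ.a2 Λ.a1 Λ.a0 Λ.y Λ.c))
    (hq : Λ.Q ≤ Qm) {r1 r2 : ℕ} (h1 : r1.Prime) (h2 : r2.Prime)
    (h12 : r1 ≠ r2) (hd : ((r1 * r2 : ℕ) : ℤ) ∣ qq Λ.a2 Λ.a1 Λ.a0 Λ.y Λ.c) (b1 : Z1 ≤ r1)
    (b2 : Z2 ≤ r2) (c1 : r1 ≤ L) (c2 : r2 ≤ L) (hk0 : Λ.k ≠ 0) (hk : Λ.k.natAbs ≤ K)
    {h : ℤ} (hh0 : h ≠ 0) (hh : |h| < Z1) {d : ℕ} (hd0 : 0 < d) (hdK : d ≤ K) :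
    ∃ z : ℤ → ℂ, (∀ s e : ℤ, (e : ℝ) - s ≤ ℓ → ‖∑ b ∈ Ico s e, z b‖ ≤ K ^ 19 * (4 * w * ℓ)) ∧
      (∀ b, ‖z b‖ ≤ K) ∧ (∀ b, ¬ Λ.k * d ∣ Λ.N b → z b = 0) ∧
      ∀ b, Λ.k * d ∣ Λ.N b → (∀ p : ℕ, p.Prime → Y0 < p → p ∣ Λ.Q → ¬ (p : ℤ) ∣ Λ.N b) →
        z b = TT Λ.C Λ.E Λ.Q h b := by
  classical
  have hq0 := hI.qq_ne Λ.y hc
  have hQa : (qq Λ.a2 Λ.a1 Λ.a0 Λ.y Λ.c).natAbs = Λ.Q := by
    have e1 := congrArg Int.natAbs hQ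
    have e2 := congrArg Int.natAbs hε
    rw [Int.natAbs_mul] at e1 e2
    rw [Nat.eq_one_of_mul_eq_one_left e2, one_mul, Int.natAbs_natCast] at e1
    exact e1.symm
  obtain ⟨P, M, hP, hPM, hPM', hZP, hPP, hpp⟩ := fact_struct hq0 hg (hQa ▸ hq) h1 h2 h12 hd b1 b2
    c1 c2 par.hQ par.hW par.hY par.hZ2 par.hP par.hLP
  have : Fact P.Prime := ⟨hP⟩
  have hM0 : M ≠ 0 := by rintro rfl; simp at hPM'
  have hsmall : ∀ t : ℤ, t ≠ 0 → |t| < Z1 → ¬ (P : ℤ) ∣ t := fun t a1 a2 a3 =>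
    a1 (Int.eq_zero_of_abs_lt_dvd a3 (by omega))
  have hP' := Nat.prime_iff_prime_int.1 hP
  have hY := par.hY
  have hKZ := par.hK
  have hy := not_dvd_y hP (hsmall _ hI.a0_ne (by omega)) hPM hPM'
  have hka : 0 < Λ.k.natAbs := Int.natAbs_pos.2 hk0
  have hPk : ¬ P ∣ Λ.k.natAbs := Nat.not_dvd_of_pos_of_lt hka (by omega)
  obtain ⟨Ms, Ml, rfl, hs, hl⟩ := split_small Y0 M hM0
  rw [hQa] at hPM
  have hMs : 0 < Ms := Nat.pos_of_ne_zero (left_ne_zero_of_mul hM0)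
  have hMl : 0 < Ml := Nat.pos_of_ne_zero (right_ne_zero_of_mul hM0)
  have hPs : ¬ P ∣ Ms := fun a => hPM' (a.mul_right _)
  have hPl : ¬ P ∣ Ml := fun a => hPM' (a.mul_left _)
  have csl : Ms.Coprime Ml := Nat.coprime_of_dvd fun p hp a a' =>
    absurd (hs p hp a) (not_le.2 (hl p hp a'))
  have csP : Ms.Coprime P := ((Nat.Prime.coprime_iff_not_dvd hP).2 hPs).symm
  have clP : Ml.Coprime P := ((Nat.Prime.coprime_iff_not_dvd hP).2 hPl).symm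
  have hQ1 : Λ.Q = Ms * (Ml * P) := by rw [hPM]; ring
  have hQ2 : Λ.Q = Ml * (Ms * P) := by rw [hPM]; ring
  obtain ⟨x1, y1, e1⟩ := Nat.isCoprime_iff_coprime.2 (Nat.Coprime.mul_right csl csP)
  obtain ⟨x2, y2, e2⟩ := Nat.isCoprime_iff_coprime.2 clP
  have hN0 : ∀ b, Λ.E b → Λ.n b ≠ 0 := fun b hb a => hI.nm_ne (fun a => hc a.2.2)
    (show Λ.N b = 0 by rw [LD.N_eq hb, a, mul_zero])
  have hcard : ∀ m m' : ℕ, Λ.Q = m * m' → m.Coprime m' → ∀ b, Λ.E b → ∀ S : Finset ℕ,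
      S ⊆ range m → (∀ σ ∈ S, Λ.C m b σ) → #S ≤ K := fun m m' a1 a2 b a3 S a4 a5 =>
    (LD.C_card hε hQ a3 hk0 (hN0 b a3) a1 a2 S a4 a5).trans hk
  have s1 := TT_str (E := Λ.E) Λ.C_mul Λ.C_σ (L := L') (P := P) par.hTs par.hTs0 (by omega : 1 ≤ K)
    (fun m => m ^ 3 * Λ.k.natAbs) Λ.C_one (Λ.C_per hk0) (fun m => Λ.E_per (m ^ 3)) hcard
    (fun m a1 a2 => ⟨(Nat.mul_le_mul (Nat.pow_le_pow_left a1 3) hk).trans par.hLs, fun a =>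
      ((Nat.Prime.dvd_mul hP).1 a).elim (fun a => a2 (hP.dvd_of_dvd_pow a)) hPk⟩)
    19 Ms (Ml * P) hMs (le_trans (hQ1 ▸ Nat.le_mul_of_pos_right _ (Nat.mul_pos hMl hP.pos))
      (hq.trans par.hT19)) hPs hQ1 (Nat.Coprime.mul_right csl csP) (fun l e a1 a2 => by
        rcases Nat.eq_zero_or_pos e with rfl | a3
        · have := Nat.mul_pos par.hTs0 par.hTs0
          have := par.hTs
          simp only [pow_zero]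
          omega
        · refine (hg.2 l e a1 (hs l a1 ((dvd_pow_self l a3.ne').trans a2)) ?_).trans par.hWs
          rw [← Nat.cast_pow, Int.natCast_dvd, hQa, hQ1]
          exact a2.mul_right _) (h * y1)
  have s2 := TT_str (E := Λ.E) (Q := Λ.Q) Λ.C'_mul (fun m _ => Λ.C'_σ m) (L := L') (P := P) par.hT
    par.hT0 (le_refl 1) (fun m => m * Λ.k.natAbs) Λ.C'_one (Λ.C'_per hk0) Λ.E_per
    (fun m m' _ _ b _ S a4 a5 => LD.C'_card S a4 a5)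
    (fun m a1 a2 => ⟨(Nat.mul_le_mul a1 hk).trans par.hL, fun a =>
      ((Nat.Prime.dvd_mul hP).1 a).elim a2 hPk⟩)
    7 Ml (Ms * P) hMl (le_trans (hQ2 ▸ Nat.le_mul_of_pos_right _ (Nat.mul_pos hMs hP.pos))
      (hq.trans par.hT7)) hPl hQ2 (Nat.Coprime.mul_right csl.symm clP)
      (fun l e a1 a2 => hpp l e a1 (a2.mul_left _)) (h * x1 * y2)
  obtain ⟨c0, d1, d2, d3⟩ := pole (P := P) (h * x1 * x2) (Λ.k * Λ.ε * Λ.y ^ 2)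
    (Λ.a2 * Λ.y * Λ.c - Λ.a0 * Λ.c ^ 2 + Λ.y * Λ.o) Λ.y hy (fun a => by
      rcases hP'.dvd_or_dvd a with a | a
      · rcases hP'.dvd_or_dvd a with a | a
        · exact hPk (Int.natCast_dvd.1 a)
        · exact hP'.not_dvd_one (hε ▸ a.mul_right _)
      · exact hy (hP'.dvd_of_dvd_pow a)) (fun a => by
      rcases hP'.dvd_or_dvd a with a | a
      · rcases hP'.dvd_or_dvd a with a | a
        · exact hsmall h hh0 hh a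
        · exact hP'.not_dvd_one (e1 ▸ dvd_add (a.mul_right _) ⟨y1 * Ml, by push_cast; ring⟩)
      · exact hP'.not_dvd_one (e2 ▸ dvd_add (a.mul_right _) (dvd_mul_left _ _)))
  have hK' : (0 : ℝ) < K := by exact_mod_cast (by omega)
  have hK'' : (K : ℂ) ≠ 0 := by exact_mod_cast (by omega)
  refine ⟨fun b => (if Λ.k * d ∣ Λ.N b then 1 else 0) * (TT Λ.C Λ.E Ms (h * y1) b *
    TT Λ.C' Λ.E Ml (h * x1 * y2) b) * Fc c0 b, fun s e hse => ?_, fun b => ?_, fun b hb => ?_,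
    fun b hb hb' => ?_⟩
  · have key := vdc L' H1 R ℓ (w ^ R) (par.hRZ.trans_le hZP) (par.hH1.trans hZP) par.hHL par.hδ
      (par.hb P hZP hPP) 27 w par.hw0 par.hw1 (by rw [par.hR]) c0
      (fun b => (if Λ.k * d ∣ Λ.N b then 1 else 0) * (TT Λ.C Λ.E Ms (h * y1) b / K ^ 19 *
        (TT Λ.C' Λ.E Ml (h * x1 * y2) b / (1 : ℕ) ^ 7))) d1
      (by rw [par.hR]; exact (Nat.mul_le_mul_right _ d2).trans (one_mul _).le)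
      ⟨d * Λ.k.natAbs, fun b => if Λ.k * d ∣ Λ.N b then 1 else 0, _,
        (Nat.mul_le_mul hdK hk).trans par.hKK, fun a => ((Nat.Prime.dvd_mul hP).1 a).elim
          (Nat.not_dvd_of_pos_of_lt hd0 (by omega)) hPk,
        fun b => if_congr (Λ.N_cong (Λ.shift_cong d b)).dvd_iff rfl rfl,
        fun b => by beta_reduce; split_ifs <;> simp, Str.mul s2 s1, fun _ => rfl⟩ s e hse
    refine le_trans (le_of_eq ?_) (mul_le_mul_of_nonneg_left key (by positivity))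
    rw [← Complex.norm_natCast K, ← norm_pow, ← norm_mul, mul_sum]
    congr 1
    refine sum_congr rfl fun b _ => ?_
    push_cast
    field_simp
  · have a1 := TT_norm (C := Λ.C) (E := Λ.E) (by omega : 1 ≤ K) (h * y1) b
      (hcard Ms _ hQ1 (Nat.Coprime.mul_right csl csP) b)
    have a2 := TT_norm (C := Λ.C') (E := Λ.E) (m := Ml) (le_refl 1) (h * x1 * y2) b
      fun _ S => LD.C'_card S
    simp only [norm_mul, norm_Fc, mul_one]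
    split_ifs
    · rw [norm_one, one_mul]
      exact (mul_le_mul a1 a2 (norm_nonneg _) hK'.le).trans (by simp)
    · simp
  · simp only [if_neg hb, zero_mul]
  · have hE : Λ.E b := dvd_of_mul_right_dvd hb
    have cop : ∀ m : ℕ, m ∣ Λ.Q → (∀ p, p.Prime → p ∣ m → Y0 < p) → IsCoprime (Λ.n b) m :=
      fun m a1 a2 => Int.isCoprime_iff_nat_coprime.2 (Nat.coprime_of_dvd fun p hp a3 a4 =>
        hb' p hp (a2 p hp a4) (Nat.dvd_trans a4 a1)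
          (LD.N_eq hE ▸ (Int.natCast_dvd.2 a3).mul_left _))
    have hPQ : P ∣ Λ.Q := ⟨_, hPM⟩
    obtain ⟨σ, f1, f2⟩ := TT_pole hε hQ hE hP.pos hPQ (cop P hPQ fun p hp a => by
      rw [(Nat.prime_dvd_prime_iff_eq hp hP).1 a]; omega) (h * x1 * x2)
    have f3 : TT Λ.C Λ.E Ml (h * x1 * y2) b = TT Λ.C' Λ.E Ml (h * x1 * y2) b := by
      rw [TT, TT, if_pos hE, if_pos hE]
      exact sum_congr rfl fun t _ => if_congr (LD.C_iff_C' hε hQ hE ⟨_, hQ2⟩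
        (cop Ml ⟨_, hQ2⟩ hl) t) rfl rfl
    have f4 := TT_mul (E := Λ.E) Λ.C_mul Λ.C_σ hMs (Nat.mul_pos hMl hP.pos)
      (Nat.Coprime.mul_right csl csP) (dvd_of_eq hQ1.symm) e1 h b
    rw [TT_mul Λ.C_mul Λ.C_σ hMl hP.pos clP ⟨Ms, by rw [hQ1]; ring⟩ e2, f2, d3 b σ f1, f3,
      ← hQ1] at f4
    simp only [if_pos hb, f4]
    ring

end Pool.Agent.Lib.MP_d315f4_nt.W
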