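import Pool.Agent.Lib.MP_d315f4_nt.Phase

/-!
Sums of periodic functions, partial summation, sign changes and roots of cubics.
-/

set_option autoImplicit false
set_option maxHeartbeats 400000

open Finset

namespace Pool.Agent.Lib.MP_d315f4_nt.W

lemma per_dvd {β : Type} {g : ℤ → β} {m : ℤ} (hg : ∀ x, g (x + m) = g x) {x x' : ℤ}
    (h : m ∣ x - x') : g x = g x' := by
  obtain ⟨t, ht⟩ := h
  have : x = x' + t * m := by linear_combination ht
  rw [this]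
  exact (show Function.Periodic g m from hg).int_mul t x'

lemma sum_zmod {m : ℕ} [NeZero m] (G : ZMod m → ℂ) :
    ∑ t ∈ range m, G ((t : ℤ) : ZMod m) = ∑ z, G z := by
  refine sum_bij' (fun t _ => ((t : ℤ) : ZMod m)) (fun z _ => z.val) (fun _ _ => mem_univ _)
    (fun z _ => mem_range.2 (ZMod.val_lt z)) (fun t ht => ?_) (fun z _ => ?_) fun _ _ => rfl
  · simp [ZMod.val_cast_of_lt (mem_range.1 ht)]
  · simp

lemma per_perm {m : ℕ} (hm : 0 < m) (g : ℤ → ℂ) (hg : ∀ x, g (x + m) = g x) (s u : ℤ)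
    (hu : IsCoprime u m) : ∑ t ∈ range m, g (s + u * t) = ∑ t ∈ range m, g t := by
  have : NeZero m := ⟨hm.ne'⟩
  have e : ∀ x : ℤ, g x = g ((x : ZMod m).val : ℤ) := fun x => per_dvd hg (by
    rw [← ZMod.intCast_zmod_eq_zero_iff_dvd]; simp)
  obtain ⟨a, b, hab⟩ := hu
  have h1 : (a : ZMod m) * u = 1 := by
    have := congrArg (Int.cast : ℤ → ZMod m) hab
    simpa using this
  have e1 := sum_zmod fun z : ZMod m => g (((s : ZMod m) + u * z).val : ℤ)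
  have e2 := sum_zmod fun z : ZMod m => g (z.val : ℤ)
  rw [sum_congr rfl fun (t : ℕ) _ => e (s + u * t), sum_congr rfl fun (t : ℕ) _ => e t, e2]
  simp only [Int.cast_add, Int.cast_mul]
  rw [e1]
  refine sum_bij' (fun z _ => (s : ZMod m) + u * z) (fun z _ => (a : ZMod m) * (z - s))
    (fun _ _ => mem_univ _) (fun _ _ => mem_univ _) (fun z _ => ?_) (fun z _ => ?_) fun _ _ => rfl
  · linear_combination z * h1
  · linear_combination (z - s) * h1

lemma per_shift {m : ℕ} (hm : 0 < m) (g : ℤ → ℂ) (hg : ∀ x, g (x + m) = g x) (s : ℤ) :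
    ∑ t ∈ range m, g (s + t) = ∑ t ∈ range m, g t := by
  simpa using per_perm hm g hg s 1 isCoprime_one_left

lemma sum_range_mul (G : ℤ → ℂ) (m n : ℕ) :
    ∑ x ∈ range (m * n), G x = ∑ t ∈ range n, ∑ s ∈ range m, G (s + m * t) := by
  induction n with
  | zero => simp
  | succ n ih =>
    rw [Nat.mul_succ, sum_range_add, ih, sum_range_succ]
    congr 1
    refine sum_congr rfl fun s _ => ?_
    congr 1
    push_cast
    ring

lemma crt_sum {m m' : ℕ} (hm' : 0 < m') (hc : IsCoprime (m : ℤ) m') (g g' : ℤ → ℂ)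
    (hg : ∀ x, g (x + m) = g x) (hg' : ∀ x, g' (x + m') = g' x) :
    ∑ x ∈ range (m * m'), g x * g' x = (∑ x ∈ range m, g x) * ∑ x ∈ range m', g' x := by
  rw [sum_range_mul (fun x => g x * g' x), sum_comm, sum_mul]
  refine sum_congr rfl fun s _ => ?_
  rw [← per_perm hm' g' hg' s m hc, mul_sum]
  refine sum_congr rfl fun t _ => ?_
  rw [per_dvd hg (x' := s) ⟨t, by ring⟩]

lemma sum_multiples {m : ℕ} (hm : 0 < m) (n : ℕ) (G : ℤ → ℂ)
    (hG : ∀ x, ¬ (m : ℤ) ∣ x → G x = 0) :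
    ∑ x ∈ range (m * n), G x = ∑ t ∈ range n, G (m * t) := by
  rw [sum_range_mul]
  refine sum_congr rfl fun t _ => ?_
  rw [sum_eq_single 0 (fun s hs h0 => hG _ fun h => h0 ?_) fun h => absurd (mem_range.2 hm) h]
  · simp
  · have h1 : (m : ℤ) ∣ s := (dvd_add_left (dvd_mul_right _ _)).1 h
    exact Nat.eq_zero_of_dvd_of_lt (by exact_mod_cast h1) (mem_range.1 hs)

/-- two parametrisations of the solutions of `Q ν = D + n σ`. -/
lemma two_param {n Q : ℕ} (hn : 0 < n) (hQ : 0 < Q) (D : ℤ) (G : ℤ → ℂ)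
    (hG : ∀ x, G (x + (n * Q : ℕ)) = G x) (h1 : ∀ x, ¬ (Q : ℤ) ∣ x → G x = 0)
    (h2 : ∀ x, ¬ (n : ℤ) ∣ x - D → G x = 0) :
    ∑ t ∈ range n, G (Q * t) = ∑ t ∈ range Q, G (D + n * t) := by
  rw [← sum_multiples hQ n G h1, ← sum_multiples hn Q (fun x => G (D + x))
    (fun x hx => h2 _ (by simpa using hx)), per_shift (Nat.mul_pos hn hQ) G hG D, mul_comm]

lemma abel (w : ℕ → ℝ) (z : ℕ → ℂ) (B : ℝ) : ∀ n : ℕ,
    (∀ m ≤ n, ‖∑ i ∈ range m, z i‖ ≤ B) →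
    ‖∑ i ∈ range n, w i * z i - w n * ∑ i ∈ range n, z i‖ ≤
      B * ∑ i ∈ range n, |w (i + 1) - w i| := by
  intro n
  induction n with
  | zero => simp
  | succ n ih =>
    intro h
    have e : ∑ i ∈ range (n + 1), w i * z i - w (n + 1) * ∑ i ∈ range (n + 1), z i =
        (∑ i ∈ range n, w i * z i - w n * ∑ i ∈ range n, z i) -
          ((w (n + 1) - w n : ℝ) : ℂ) * ∑ i ∈ range (n + 1), z i := by
      simp only [sum_range_succ]
      push_cast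
      ring
    rw [e, sum_range_succ (fun i => |w (i + 1) - w i|), mul_add]
    refine (norm_sub_le _ _).trans (add_le_add (ih fun m hm => h m (by omega)) ?_)
    rw [norm_mul, Complex.norm_real, Real.norm_eq_abs, mul_comm]
    exact mul_le_mul_of_nonneg_right (h _ le_rfl) (abs_nonneg _)

lemma abel' (w : ℕ → ℝ) (z : ℕ → ℂ) (B : ℝ) (n : ℕ) (h : ∀ m ≤ n, ‖∑ i ∈ range m, z i‖ ≤ B) :
    ‖∑ i ∈ range n, w i * z i‖ ≤ B * (|w n| + ∑ i ∈ range n, |w (i + 1) - w i|) := by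
  have h1 := abel w z B n h
  have h2 : ‖(w n : ℂ) * ∑ i ∈ range n, z i‖ ≤ B * |w n| := by
    rw [norm_mul, Complex.norm_real, Real.norm_eq_abs, mul_comm]
    exact mul_le_mul_of_nonneg_right (h _ le_rfl) (abs_nonneg _)
  have h3 := norm_add_le (∑ i ∈ range n, w i * z i - w n * ∑ i ∈ range n, z i)
    ((w n : ℂ) * ∑ i ∈ range n, z i)
  rw [sub_add_cancel] at h3
  linarith

lemma switch (c3 c2 c1 c0 : ℝ) (h3 : c3 ≠ 0) (p : ℝ → ℝ)
    (hp : ∀ x, p x = c3 * x ^ 3 + c2 * x ^ 2 + c1 * x + c0) (n : ℕ) :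
    #((range n).filter fun i : ℕ => ¬ (0 < p i ↔ 0 < p (i + 1))) ≤ 6 := by
  classical
  set P : Cubic ℝ := ⟨c3, c2, c1, c0⟩
  have h0 : P.toPoly ≠ 0 := Cubic.ne_zero_of_a_ne_zero h3
  have hc : Continuous p := by
    rw [show p = fun x => c3 * x ^ 3 + c2 * x ^ 2 + c1 * x + c0 from funext hp]
    fun_prop
  have h1 : ((range n).filter fun i : ℕ => ¬ (0 < p i ↔ 0 < p (i + 1))) ⊆
      P.roots.toFinset.biUnion fun r => {⌊r⌋₊, ⌊r⌋₊ - 1} := by
    intro i hi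
    have h2 := (mem_filter.1 hi).2
    obtain ⟨r, hr, hr0⟩ : ∃ r ∈ Set.Icc (i : ℝ) (i + 1), p r = 0 := by
      by_cases h : 0 < p i
      · have h' : p (i + 1) ≤ 0 := not_lt.1 fun h' => h2 ⟨fun _ => h', fun _ => h⟩
        exact intermediate_value_Icc' (by linarith) hc.continuousOn ⟨h', h.le⟩
      · have h' : 0 < p (i + 1) := by
          by_contra h'
          exact h2 ⟨fun a => absurd a h, fun a => absurd a h'⟩
        exact intermediate_value_Icc (by linarith) hc.continuousOn ⟨not_lt.1 h, h'.le⟩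
    refine mem_biUnion.2 ⟨r, Multiset.mem_toFinset.2 ((Cubic.mem_roots_iff h0 r).2
      ((hp r).symm.trans hr0)), ?_⟩
    have a1 : i ≤ ⌊r⌋₊ := Nat.le_floor hr.1
    have a2 : ⌊r⌋₊ ≤ i + 1 := Nat.floor_le_of_le (by exact_mod_cast hr.2)
    simp only [mem_insert, mem_singleton]
    omega
  refine (card_le_card h1).trans ((card_biUnion_le_card_mul _ _ 2 fun r _ => card_le_two).trans ?_)
  have := Cubic.card_roots_le (P := P)
  omega

/-- a cut-off by the sign of a cubic costs a factor 7. -/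
lemma cut (c3 c2 c1 c0 : ℝ) (h3 : c3 ≠ 0) (p : ℝ → ℝ)
    (hp : ∀ x, p x = c3 * x ^ 3 + c2 * x ^ 2 + c1 * x + c0) (z : ℤ → ℂ) (B : ℝ) (s e : ℤ)
    (hB : 0 ≤ B) (h : ∀ e' ≤ e, ‖∑ b ∈ Ico s e', z b‖ ≤ B) :
    ‖∑ b ∈ Ico s e, if 0 < p b then z b else 0‖ ≤ 7 * B := by
  rcases le_or_gt e s with hes | hes
  · rw [Ico_eq_empty (by omega)]
    simp
    positivity
  rw [sum_Ico_range]
  have k1 := abel' (fun i => if 0 < p (s + i) then 1 else 0) (fun i => z (s + i)) B (e - s).toNat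
    (fun m hm => by
      have := h (s + m) (by omega)
      rwa [sum_Ico_range, add_sub_cancel_left, Int.toNat_natCast] at this)
  have k2 := switch c3 (3 * c3 * s + c2) (3 * c3 * s ^ 2 + 2 * c2 * s + c1) (p s) h3
    (fun x => p (s + x)) (fun x => by rw [hp, hp]; ring) (e - s).toNat
  have k3 : ∑ i ∈ range (e - s).toNat, |(if 0 < p (s + (i + 1 : ℕ)) then (1 : ℝ) else 0) -
      if 0 < p (s + i) then 1 else 0| ≤ 6 := by
    refine le_trans (sum_le_sum (g := fun i : ℕ =>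
      if ¬ (0 < p (s + i) ↔ 0 < p (s + (i + 1))) then (1 : ℝ) else 0) fun i _ => ?_) ?_
    · push_cast
      by_cases a1 : 0 < p (s + i) <;> by_cases a2 : 0 < p (s + (i + 1)) <;> simp [a1, a2]
    · rw [sum_boole]
      exact_mod_cast k2
  have k4 : |if 0 < p (s + (e - s).toNat) then (1 : ℝ) else 0| ≤ 1 := by
    split_ifs <;> simp
  refine le_trans (le_of_eq ?_) (k1.trans (by nlinarith))
  congr 1
  refine sum_congr rfl fun i _ => ?_
  push_cast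
  split_ifs <;> simp

lemma count_cls (s e : ℤ) {ℓ : ℝ} (hℓ : 0 ≤ ℓ) (hse : (e : ℝ) - s ≤ ℓ) {p : ℕ} (hp : 0 < p)
    (r : ℤ) : (#{b ∈ Ico s e | b ≡ r [ZMOD p]} : ℝ) ≤ ℓ / p + 1 := by
  have h := Int.Ico_filter_modEq_card s e (r := p) (by exact_mod_cast hp) r
  have h1 : ((#{b ∈ Ico s e | b ≡ r [ZMOD p]} : ℤ) : ℝ) = _ := congrArg (Int.cast : ℤ → ℝ) h
  rw [Int.cast_natCast] at h1
  rw [h1, Int.cast_max]
  have hp' : (0 : ℚ) < p := by exact_mod_cast hp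
  have a1 := (Int.ceil_lt_add_one (((e : ℚ) - r) / (p : ℤ))).le
  have a2 := Int.le_ceil (((s : ℚ) - r) / (p : ℤ))
  have a3 : ((⌈((e : ℚ) - r) / (p : ℤ)⌉ - ⌈((s : ℚ) - r) / (p : ℤ)⌉ : ℤ) : ℚ) ≤ (e - s) / p + 1 := by
    have : ((e : ℚ) - s) / p = ((e : ℚ) - r) / (p : ℤ) - ((s : ℚ) - r) / (p : ℤ) := by
      push_cast; ring
    rw [this, Int.cast_sub]
    linarith
  have a4 : ((⌈((e : ℚ) - r) / (p : ℤ)⌉ - ⌈((s : ℚ) - r) / (p : ℤ)⌉ : ℤ) : ℝ) ≤ (e - s) / p + 1 := by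
    exact_mod_cast a3
  refine max_le (a4.trans ?_) (by push_cast; positivity)
  gcongr

lemma count_cubic {p : ℕ} (hp : p.Prime) (c3 c2 c1 c0 : ℤ) (h3 : ¬ (p : ℤ) ∣ c3) (s e : ℤ) {ℓ : ℝ}
    (hℓ : 0 ≤ ℓ) (hse : (e : ℝ) - s ≤ ℓ) :
    (#{b ∈ Ico s e | (p : ℤ) ∣ c3 * b ^ 3 + c2 * b ^ 2 + c1 * b + c0} : ℝ) ≤ 3 * (ℓ / p + 1) := by
  classical
  have : Fact p.Prime := ⟨hp⟩
  set P : Cubic (ZMod p) := ⟨c3, c2, c1, c0⟩
  have h0 : P.toPoly ≠ 0 :=
    Cubic.ne_zero_of_a_ne_zero ((ZMod.intCast_zmod_eq_zero_iff_dvd _ _).not.2 h3)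
  have h1 : {b ∈ Ico s e | (p : ℤ) ∣ c3 * b ^ 3 + c2 * b ^ 2 + c1 * b + c0} ⊆
      P.roots.toFinset.biUnion fun r => {b ∈ Ico s e | b ≡ (r.val : ℤ) [ZMOD p]} := by
    intro b hb
    obtain ⟨b1, b2⟩ := mem_filter.1 hb
    refine mem_biUnion.2 ⟨(b : ZMod p), Multiset.mem_toFinset.2 ((Cubic.mem_roots_iff h0 _).2 ?_),
      mem_filter.2 ⟨b1, ?_⟩⟩
    · have := (ZMod.intCast_zmod_eq_zero_iff_dvd _ _).2 b2
      push_cast at this
      exact this
    · rw [← ZMod.intCast_eq_intCast_iff]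
      simp
  have h2 : (#(P.roots.toFinset) : ℝ) ≤ 3 := by exact_mod_cast Cubic.card_roots_le (P := P)
  refine le_trans (Nat.cast_le.2 ((card_le_card h1).trans card_biUnion_le)) ?_
  rw [Nat.cast_sum]
  refine (sum_le_card_nsmul _ _ _ fun r _ => count_cls s e hℓ hse hp.pos _).trans ?_
  rw [nsmul_eq_mul]
  exact mul_le_mul_of_nonneg_right h2 (by positivity)

end Pool.Agent.Lib.MP_d315f4_nt.W
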