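import Pool.Agent.Lib.MP_d315f4_nt.W.Osc

/-!
The sum over one line.
-/

set_option autoImplicit false
set_option maxHeartbeats 400000

open Finset

namespace Pool.Agent.Lib.MP_d315f4_nt.W

variable {a2 a1 a0 : ℤ}

lemma Rt_zero {a b c : ℤ} {n : ℕ} (h : ℤ) (hn : ¬ (n : ℤ) ∣ nm a2 a1 a0 a b c) :
    Rt a2 a1 a0 a b c n h = 0 :=
  sum_eq_zero fun _ _ => if_neg fun a => hn (root_dvd a.1 a.2).1

lemma card_roots {a b c k : ℤ} {n : ℕ} (hn : 0 < n) (hk : k ≠ 0) (hN : nm a2 a1 a0 a b c = k * n)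
    (S : Finset ℕ) (hS : S ⊆ range n)
    (h : ∀ ν ∈ S, (n : ℤ) ∣ fv a2 a1 a0 ν ∧ (n : ℤ) ∣ a + b * ν + c * (ν : ℤ) ^ 2) :
    #S ≤ k.natAbs := by
  refine card_le_of_dvd hk _ hS fun σ hσ σ' hσ' => ?_
  have := det_dvd (X := σ) (X' := σ') (w := 1) (by positivity) hN
    (by simpa [Ah] using (h σ hσ).2) (by simpa [hom, fv] using (h σ hσ).1)
    (by simpa [Ah] using (h σ' hσ').2) (by simpa [hom, fv] using (h σ' hσ').1)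
  simpa using this

lemma Rt_norm {a b c k : ℤ} {n : ℕ} (hn : 0 < n) (hk : k ≠ 0) (hN : nm a2 a1 a0 a b c = k * n)
    (h : ℤ) : ‖Rt a2 a1 a0 a b c n h‖ ≤ k.natAbs := by
  rw [Rt, ← sum_filter]
  refine (norm_sum_le _ _).trans ?_
  simp only [norm_ee, sum_const, nsmul_eq_mul, mul_one]
  exact_mod_cast card_roots hn hk hN _ (filter_subset _ _) fun σ hσ => (mem_filter.1 hσ).2

lemma Rt_shift (j y b c : ℤ) {n : ℕ} (hn : 0 < n) (h : ℤ) :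
    Rt a2 a1 a0 (y + j * b - j ^ 2 * c) b c n h = ee (-(h * j / n)) *
      Rt (s2 a2 j) (s1 a2 a1 j) (s0 a2 a1 a0 j) y (b - 2 * j * c) c n h := by
  have key := per_shift hn (fun ν => if (n : ℤ) ∣ fv (s2 a2 j) (s1 a2 a1 j) (s0 a2 a1 a0 j) ν ∧
    (n : ℤ) ∣ y + (b - 2 * j * c) * ν + c * ν ^ 2 then ee (h * ν / n) else 0) (fun ν => by
      have e : ν + n ≡ ν [ZMOD n] := by simp
      refine if_congr (and_congr (Int.ModEq.dvd_iff ?_) (Int.ModEq.dvd_iff ?_)) (ee_per hn h ν) rfl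
      · unfold fv; gcongr
      · gcongr) j
  rw [Rt, Rt, ← key, mul_sum]
  refine sum_congr rfl fun ν _ => ?_
  rw [mul_ite, mul_zero, add_comm j, fv_shift, ← ee_add]
  refine if_congr (and_congr Iff.rfl (iff_of_eq (by congr 1; ring))) ?_ rfl
  congr 1
  push_cast
  ring

/-- the sum over the moduli that belong to a lattice point. -/
noncomputable def Uf (a2 a1 a0 : ℤ) (y1 t d : ℕ) (h a b c : ℤ) : ℂ :=
  ∑ n ∈ Ioc y1 t, if d ∣ n then Rt a2 a1 a0 a b c n h else 0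

open Classical in
/-- the term with cofactor `k`. -/
noncomputable def Vk (a2 a1 a0 : ℤ) (y1 t d : ℕ) (h k a b c : ℤ) : ℂ :=
  if k ≠ 0 ∧ k * d ∣ nm a2 a1 a0 a b c ∧ (y1 : ℤ) < nm a2 a1 a0 a b c / k ∧
    nm a2 a1 a0 a b c / k ≤ t then Rt a2 a1 a0 a b c (nm a2 a1 a0 a b c / k).toNat h else 0

lemma Uf_eq {y1 t d K : ℕ} (h : ℤ) {a b c : ℤ} (h0 : nm a2 a1 a0 a b c ≠ 0)
    (hK : |nm a2 a1 a0 a b c| ≤ K * y1) :
    Uf a2 a1 a0 y1 t d h a b c = ∑ k ∈ Icc (-(K : ℤ)) K, Vk a2 a1 a0 y1 t d h k a b c := by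
  classical
  have e : Uf a2 a1 a0 y1 t d h a b c = ∑ n ∈ Ioc y1 t,
      if d ∣ n ∧ (n : ℤ) ∣ nm a2 a1 a0 a b c then Rt a2 a1 a0 a b c n h else 0 :=
    sum_congr rfl fun n _ => by
      by_cases a1 : (n : ℤ) ∣ nm a2 a1 a0 a b c
      · simp only [a1, and_true]
      · simp only [a1, and_false, Rt_zero h a1, ite_self]
  rw [e]
  simp only [Vk, ← sum_filter]
  generalize nm a2 a1 a0 a b c = N at h0 hK
  have k1 : ∀ n ∈ (Ioc y1 t).filter fun n : ℕ => d ∣ n ∧ (n : ℤ) ∣ N,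
      N / n ≠ 0 ∧ N = N / n * n ∧ N / (N / n) = n := fun n hn => by
    obtain ⟨k, rfl⟩ := (mem_filter.1 hn).2.2
    have := (mem_Ioc.1 (mem_filter.1 hn).1).1
    rw [Int.mul_ediv_cancel_left _ (by omega)]
    have := right_ne_zero_of_mul h0
    exact ⟨this, mul_comm _ _, Int.mul_ediv_cancel _ this⟩
  refine sum_bij' (fun n _ => N / n) (fun k _ => (N / k).toNat) (fun n hn => ?_) (fun k hk => ?_)
    (fun n hn => ?_) (fun k hk => ?_) fun n hn => ?_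
  · obtain ⟨b1, b2, b3⟩ := k1 n hn
    obtain ⟨b4, b5⟩ := mem_Ioc.1 (mem_filter.1 hn).1
    refine mem_filter.2 ⟨mem_Icc.2 (abs_le.1 ?_), b1, ?_, by omega, by omega⟩
    · rw [b2, abs_mul, Nat.abs_cast] at hK
      refine le_of_mul_le_mul_right (hK.trans ?_) (by omega : (0 : ℤ) < n)
      exact mul_le_mul_of_nonneg_left (by omega) (by omega)
    · conv_rhs => rw [b2]
      exact mul_dvd_mul_left _ (Int.natCast_dvd_natCast.2 (mem_filter.1 hn).2.1)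
  · obtain ⟨-, b1, ⟨z, rfl⟩, b3, b4⟩ := mem_filter.1 hk
    rw [mul_assoc, Int.mul_ediv_cancel_left _ b1] at b3 b4 ⊢
    have b5 : ((d * z).toNat : ℤ) = d * z := by omega
    refine mem_filter.2 ⟨mem_Ioc.2 (by omega), ?_, ?_⟩
    · exact Int.natCast_dvd_natCast.1 (by rw [b5]; exact dvd_mul_right _ _)
    · rw [b5]; exact dvd_mul_left _ _
  · rw [(k1 n hn).2.2, Int.toNat_natCast]
  · obtain ⟨-, b1, ⟨z, rfl⟩, b3, b4⟩ := mem_filter.1 hk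
    rw [mul_assoc, Int.mul_ediv_cancel_left _ b1] at b3 b4 ⊢
    rw [show ((d * z).toNat : ℤ) = d * z by omega, Int.mul_ediv_cancel _ (by omega)]
  · rw [(k1 n hn).2.2, Int.toNat_natCast]

lemma Vk_norm (y1 t d : ℕ) (h k a b c : ℤ) : ‖Vk a2 a1 a0 y1 t d h k a b c‖ ≤ k.natAbs := by
  rw [Vk]
  split_ifs with h1
  · refine Rt_norm (by omega) h1.1 ?_ h
    rw [Int.toNat_of_nonneg (by omega), Int.mul_ediv_cancel' (dvd_of_mul_right_dvd h1.2.1)]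
  · simp

lemma few {n Y J : ℕ} (hn : n ≠ 0) (hY : 0 < Y) (h : n < Y ^ J) :
    #{p ∈ n.primeFactors | Y < p} ≤ J := by
  by_contra h1
  have h2 := Nat.le_of_dvd (Nat.pos_of_ne_zero hn) (prod_primes_dvd
    (s := {p ∈ n.primeFactors | Y < p}) n
    (fun r hr => (Nat.prime_of_mem_primeFactors (mem_filter.1 hr).1).prime)
    fun r hr => Nat.dvd_of_mem_primeFactors (mem_filter.1 hr).1)
  have h3 := pow_card_le_prod {p ∈ n.primeFactors | Y < p} id Y fun r hr => (mem_filter.1 hr).2.le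
  exact absurd ((pow_le_pow_right₀ hY (not_le.1 h1).le).trans (h3.trans h2)) (not_le.2 h)

lemma N_cubic (Λ : LD) : ∃ c2 c1 c0 : ℤ, ∀ b, Λ.N b = -Λ.a0 * b ^ 3 + c2 * b ^ 2 + c1 * b + c0 :=
  ⟨Λ.a1 * Λ.y + Λ.a2 * Λ.a0 * Λ.c + 3 * Λ.a0 * Λ.o, -Λ.a2 * Λ.y ^ 2 + 3 * Λ.a0 * Λ.y * Λ.c -
    Λ.a2 * Λ.a1 * Λ.y * Λ.c - Λ.a1 * Λ.a0 * Λ.c ^ 2 -
    2 * (Λ.a1 * Λ.y + Λ.a2 * Λ.a0 * Λ.c) * Λ.o - 3 * Λ.a0 * Λ.o ^ 2,
    nm Λ.a2 Λ.a1 Λ.a0 Λ.y (-Λ.o) Λ.c, fun b => by simp only [LD.N, nm]; ring⟩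

open Classical in
lemma bad_count (Λ : LD) (h0 : Λ.a0 ≠ 0) {Y J : ℕ} (hY : |Λ.a0| ≤ Y) (hQ : Λ.Q ≠ 0)
    (hJ : Λ.Q < Y ^ J) (s e : ℤ) {ℓ : ℝ} (hℓ : 0 ≤ ℓ) (hse : (e : ℝ) - s ≤ ℓ) :
    (#{b ∈ Ico s e | ¬ ∀ p : ℕ, p.Prime → Y < p → p ∣ Λ.Q → ¬ (p : ℤ) ∣ Λ.N b} : ℝ) ≤
      J * (3 * (ℓ / Y + 1)) := by
  obtain ⟨c2, c1, c0, hc⟩ := N_cubic Λ
  have hY0 : 0 < Y := by have := abs_pos.2 h0; omega
  have h1 : {b ∈ Ico s e | ¬ ∀ p : ℕ, p.Prime → Y < p → p ∣ Λ.Q → ¬ (p : ℤ) ∣ Λ.N b} ⊆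
      {p ∈ Λ.Q.primeFactors | Y < p}.biUnion fun p =>
        {b ∈ Ico s e | (p : ℤ) ∣ -Λ.a0 * b ^ 3 + c2 * b ^ 2 + c1 * b + c0} := by
    intro b hb
    obtain ⟨b1, b2⟩ := mem_filter.1 hb
    push Not at b2
    obtain ⟨p, p1, p2, p3, p4⟩ := b2
    exact mem_biUnion.2 ⟨p, mem_filter.2 ⟨Nat.mem_primeFactors.2 ⟨p1, p3, hQ⟩, p2⟩,
      mem_filter.2 ⟨b1, hc b ▸ p4⟩⟩
  refine le_trans (Nat.cast_le.2 ((card_le_card h1).trans card_biUnion_le)) ?_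
  rw [Nat.cast_sum]
  refine (sum_le_card_nsmul _ _ (3 * (ℓ / Y + 1)) fun p hp => ?_).trans ?_
  · obtain ⟨p1, p2⟩ := mem_filter.1 hp
    refine (count_cubic (Nat.prime_of_mem_primeFactors p1) _ c2 c1 c0 (fun a => h0
      (Int.eq_zero_of_abs_lt_dvd (dvd_neg.1 a) (by omega))) s e hℓ hse).trans ?_
    gcongr
  · rw [nsmul_eq_mul]
    exact mul_le_mul_of_nonneg_right (by exact_mod_cast few hQ hY0 hJ) (by positivity)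

lemma norm_ee_sub (x : ℝ) : ‖ee x - 1‖ ≤ 7 * |x| := by
  refine Real.norm_exp_I_mul_ofReal_sub_one_le.trans ?_
  rw [Real.norm_eq_abs, abs_mul, abs_of_pos Real.two_pi_pos]
  exact mul_le_mul_of_nonneg_right (by linarith [Real.pi_lt_d2]) (abs_nonneg _)

theorem line_k (Λ : LD) (hε : Λ.ε * Λ.ε = 1) (hQ : (Λ.Q : ℤ) = Λ.ε * qq Λ.a2 Λ.a1 Λ.a0 Λ.y Λ.c)
    (h0 : Λ.a0 ≠ 0) {Y J K y1 t d : ℕ} (hY : |Λ.a0| ≤ Y) (hQ0 : Λ.Q ≠ 0) (hJ : Λ.Q < Y ^ J)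
    (hk0 : Λ.k ≠ 0) (hk : Λ.k.natAbs ≤ K) (hyt : y1 ≤ t) (h : ℤ) {ℓ B δ : ℝ} (hℓ : 0 ≤ ℓ)
    (hB : 0 ≤ B) (hδ : 0 ≤ δ) (z v : ℤ → ℂ) (ρ : ℕ → ℝ)
    (z1 : ∀ s e : ℤ, (e : ℝ) - s ≤ ℓ → ‖∑ b ∈ Ico s e, z b‖ ≤ B) (z2 : ∀ b, ‖z b‖ ≤ K)
    (z3 : ∀ b, ¬ Λ.k * d ∣ Λ.N b → z b = 0)
    (z4 : ∀ b, Λ.k * d ∣ Λ.N b → (∀ p : ℕ, p.Prime → Y < p → p ∣ Λ.Q → ¬ (p : ℤ) ∣ Λ.N b) →
      z b = TT Λ.C Λ.E Λ.Q h b)
    (v1 : ∀ b, ¬ (Λ.k * d ∣ Λ.N b ∧ (y1 : ℤ) < Λ.n b ∧ Λ.n b ≤ t) → v b = 0)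
    (v2 : ∀ b, Λ.k * d ∣ Λ.N b → (y1 : ℤ) < Λ.n b → Λ.n b ≤ t → v b = ee (ρ (Λ.n b).toNat) *
      Rt Λ.a2 Λ.a1 Λ.a0 Λ.y (b - Λ.o) Λ.c (Λ.n b).toNat h)
    (s e : ℤ) (hse : (e : ℝ) - s ≤ ℓ) (hρ : ∀ b ∈ Ico s e, ∀ n : ℕ, y1 < n →
      7 * |ρ n + h * Λ.D b / (n * Λ.Q)| ≤ δ) :
    ‖∑ b ∈ Ico s e, v b‖ ≤ 14 * B + 2 * K * (J * (3 * (ℓ / Y + 1))) + ℓ * (K * δ) := by
  classical
  obtain ⟨c2, c1, c0, hc⟩ := N_cubic Λ
  have hk' : (Λ.k : ℝ) ≠ 0 := by exact_mod_cast hk0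
  have key : ∀ τ : ℝ, ‖∑ b ∈ Ico s e, if 0 < (Λ.N b : ℝ) / Λ.k - τ then z b else 0‖ ≤ 7 * B := by
    intro τ
    refine le_trans (le_of_eq ?_) (cut (-Λ.a0 / Λ.k) (c2 / Λ.k) (c1 / Λ.k) (c0 / Λ.k - τ)
      (div_ne_zero (neg_ne_zero.2 (by exact_mod_cast h0)) hk') _ (fun _ => rfl) z B s e hB
      fun e' he' => z1 s e' (le_trans (by gcongr) hse))
    congr 1
    refine sum_congr rfl fun b _ => if_congr (iff_of_eq ?_) rfl rfl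
    rw [hc]
    push_cast
    congr 1
    ring
  set z' : ℤ → ℂ := fun b => (if 0 < (Λ.N b : ℝ) / Λ.k - y1 then z b else 0) -
    if 0 < (Λ.N b : ℝ) / Λ.k - t then z b else 0 with hz'
  have k1 : ‖∑ b ∈ Ico s e, z' b‖ ≤ 14 * B := by
    rw [sum_sub_distrib]
    linarith [norm_sub_le (∑ b ∈ Ico s e, if 0 < (Λ.N b : ℝ) / Λ.k - y1 then z b else 0)
      (∑ b ∈ Ico s e, if 0 < (Λ.N b : ℝ) / Λ.k - t then z b else 0), key y1, key t]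
  have k2 : ∀ b ∈ Ico s e, ‖v b - z' b‖ ≤ 2 * K * (if ¬ ∀ p : ℕ, p.Prime → Y < p → p ∣ Λ.Q →
      ¬ (p : ℤ) ∣ Λ.N b then 1 else 0) + K * δ := by
    intro b hb
    by_cases a1 : Λ.k * d ∣ Λ.N b
    swap
    · simp only [hz', z3 b a1, v1 b fun a => a1 a.1, ite_self, sub_zero, norm_zero]
      positivity
    have hE : Λ.E b := dvd_of_mul_right_dvd a1
    have a2 : (Λ.N b : ℝ) / Λ.k = Λ.n b := by
      rw [LD.N_eq hE, Int.cast_mul, mul_div_cancel_left₀ _ hk']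
    have a3 : ∀ τ : ℕ, 0 < (Λ.N b : ℝ) / Λ.k - τ ↔ (τ : ℤ) < Λ.n b := fun τ => by
      rw [a2, sub_pos]; exact_mod_cast Iff.rfl
    simp only [hz', a3]
    by_cases a4 : (y1 : ℤ) < Λ.n b ∧ Λ.n b ≤ t
    swap
    · rw [v1 b fun a => a4 a.2, if_congr (show (y1 : ℤ) < Λ.n b ↔ (t : ℤ) < Λ.n b by omega) rfl rfl,
        sub_self, sub_self, norm_zero]
      positivity
    have a5 : Λ.n b = (Λ.n b).toNat := by omega
    have a6 : y1 < (Λ.n b).toNat := by omega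
    rw [v2 b a1 a4.1 a4.2, if_pos a4.1, if_neg (not_lt.2 a4.2), sub_zero]
    generalize (Λ.n b).toNat = n at a5 a6
    have a7 : ‖Rt Λ.a2 Λ.a1 Λ.a0 Λ.y (b - Λ.o) Λ.c n h‖ ≤ K :=
      (Rt_norm (by omega) hk0 (a5 ▸ LD.N_eq hE) h).trans (by exact_mod_cast hk)
    split_ifs with a8
    · rw [z4 b a1 a8]
      rw [Rt_eq hε hQ hE (Nat.pos_of_ne_zero hQ0) (by omega) a5] at a7 ⊢
      rw [norm_mul, norm_ee, one_mul] at a7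
      rw [← mul_assoc, ← ee_add, ← sub_one_mul, norm_mul, mul_zero, zero_add, mul_comm]
      exact mul_le_mul a7 ((norm_ee_sub _).trans (hρ b hb n a6)) (norm_nonneg _) (by positivity)
    · refine (norm_sub_le _ _).trans ?_
      rw [norm_mul, norm_ee, one_mul]
      linarith [z2 b, (by positivity : 0 ≤ K * δ)]
  have k3 := (norm_sum_le _ _).trans (sum_le_sum k2)
  rw [sum_add_distrib, ← mul_sum, sum_boole, sum_const, nsmul_eq_mul, sum_sub_distrib] at k3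
  have k4 := norm_add_le (∑ b ∈ Ico s e, v b - ∑ b ∈ Ico s e, z' b) (∑ b ∈ Ico s e, z' b)
  rw [sub_add_cancel] at k4
  linarith [mul_le_mul_of_nonneg_left (bad_count Λ h0 hY hQ0 hJ s e hℓ hse)
    (by positivity : (0 : ℝ) ≤ 2 * K), mul_le_mul_of_nonneg_right (card_Ico_le hℓ hse)
    (by positivity : 0 ≤ K * δ)]

end Pool.Agent.Lib.MP_d315f4_nt.W
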