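import Pool.Agent.Lib.MP_d315f4_nt.W.Weyl

/-!
Bilinear forms in the Weyl sums.
-/

set_option autoImplicit false
set_option maxHeartbeats 400000

open Finset

namespace Pool.Agent.Lib.MP_d315f4_nt.W

variable {a2 a1 a0 : ℤ}

/-- one term of a Weyl sum. -/
noncomputable def gt (a2 a1 a0 h : ℤ) (n : ℕ) (x : ℤ) : ℂ :=
  if (n : ℤ) ∣ fv a2 a1 a0 x then ee (h * x / n) else 0

/-- the part of a Weyl sum that lies over one residue class. -/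
noncomputable def Tf (a2 a1 a0 h : ℤ) (m p : ℕ) (ν : ℤ) : ℂ :=
  ∑ j ∈ range p, gt a2 a1 a0 h (m * p) (ν + m * j)

/-- bound for the number of lifts of a root. -/
def Kf (a2 a1 a0 : ℤ) : ℕ := 6 + (dsc a2 a1 a0).natAbs

lemma gt_per {n : ℕ} (hn : 0 < n) (h x : ℤ) :
    gt a2 a1 a0 h n (x + n) = gt a2 a1 a0 h n x := by
  rw [gt, gt, ee_per hn]
  refine if_congr ?_ rfl rfl
  rw [show fv a2 a1 a0 (x + n) = fv a2 a1 a0 x +
    n * (3 * x ^ 2 + 3 * x * n + n ^ 2 + a2 * (2 * x + n) + a1) by simp only [fv]; ring]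
  exact dvd_add_left (dvd_mul_right _ _)

lemma Wn_mul (h : ℤ) (m p : ℕ) :
    Wn a2 a1 a0 h (m * p) = ∑ ν ∈ range m, Tf a2 a1 a0 h m p ν :=
  (sum_range_mul (gt a2 a1 a0 h (m * p)) m p).trans sum_comm

lemma Tf_zero (h : ℤ) (m p : ℕ) {ν : ℤ} (hν : ¬ (m : ℤ) ∣ fv a2 a1 a0 ν) :
    Tf a2 a1 a0 h m p ν = 0 := by
  refine sum_eq_zero fun j _ => if_neg fun h1 => hν ?_
  have h2 : (m : ℤ) ∣ fv a2 a1 a0 (ν + m * j) :=
    (Int.natCast_dvd_natCast.2 (dvd_mul_right m p)).trans h1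
  rw [show fv a2 a1 a0 (ν + m * j) = fv a2 a1 a0 ν + m * (j * (3 * ν ^ 2 + 3 * ν * (m * j) +
    (m * j) ^ 2 + a2 * (2 * ν + m * j) + a1)) by simp only [fv]; ring] at h2
  exact (dvd_add_left (dvd_mul_right _ _)).1 h2

lemma Wn_mul' (h : ℤ) (m p : ℕ) : Wn a2 a1 a0 h (m * p) =
    ∑ ν ∈ (range m).filter fun ν : ℕ => (m : ℤ) ∣ fv a2 a1 a0 ν, Tf a2 a1 a0 h m p ν := by
  rw [Wn_mul, sum_filter]
  refine sum_congr rfl fun ν _ => ?_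
  split_ifs with h1
  · rfl
  · exact Tf_zero h m p h1

lemma Tf_norm (hI : Irr a2 a1 a0) (h : ℤ) {m p : ℕ} (hm : 0 < m) (hp : p.Prime) (ν : ℤ) :
    ‖Tf a2 a1 a0 h m p ν‖ ≤ Kf a2 a1 a0 := by
  simp only [Tf, gt]
  rw [← sum_filter]
  refine (norm_sum_le _ _).trans ?_
  simp only [norm_ee, sum_const, nsmul_eq_mul, mul_one]
  set S := (range p).filter fun j : ℕ => ((m * p : ℕ) : ℤ) ∣ fv a2 a1 a0 (ν + m * j)
  have hS : ∀ j ∈ S, (m : ℤ) * p ∣ fv a2 a1 a0 (ν + m * j) := fun j hj => by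
    exact_mod_cast (mem_filter.1 hj).2
  have hp0 : (0 : ℝ) < p := by exact_mod_cast hp.pos
  rw [Kf]
  push_cast
  by_cases h1 : (p : ℤ) ∣ m
  · have := card_le_of_dvd hI.dsc_ne S (filter_subset _ _) fun j hj j' hj' => by
      obtain ⟨m', hm'⟩ := h1
      have h2 : (m : ℤ) * p ∣ m * ((j' - j) * (3 * ν ^ 2 + 2 * a2 * ν + a1) + m * ((j' - j) *
          ((3 * ν + a2) * (j' + j) + m * (j' ^ 2 + j' * j + j ^ 2)))) :=
        (dvd_sub (hS j' hj') (hS j hj)).trans (dvd_of_eq (by simp only [fv]; ring))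
      rw [mul_dvd_mul_iff_left (by exact_mod_cast hm.ne'),
        dvd_add_left (Dvd.dvd.mul_right ⟨m', hm'⟩ _)] at h2
      have h3 : (p : ℤ) ∣ fv a2 a1 a0 ν := by
        have := (Dvd.intro_left _ rfl).trans (hS j hj)
        rw [show fv a2 a1 a0 (ν + m * j) = fv a2 a1 a0 ν + m * (j * (3 * ν ^ 2 + 3 * ν * (m * j) +
          (m * j) ^ 2 + a2 * (2 * ν + m * j) + a1)) by simp only [fv]; ring] at this
        exact (dvd_add_left (Dvd.dvd.mul_right ⟨m', hm'⟩ _)).1 this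
      refine (dvd_add (h3.mul_left ((j' - j) * (-3 * (2 * a2 ^ 2 - 6 * a1) * ν +
        (a2 * (2 * a2 ^ 2 - 6 * a1) - 3 * (2 * a2 ^ 3 - 7 * a2 * a1 + 9 * a0)))))
        (h2.mul_left ((2 * a2 ^ 2 - 6 * a1) * ν ^ 2 + (2 * a2 ^ 3 - 7 * a2 * a1 + 9 * a0) * ν +
        (a1 * a2 ^ 2 - 4 * a1 ^ 2 + 3 * a2 * a0)))).trans (dvd_of_eq ?_)
      simp only [fv, dsc]
      ring
    have h2 : (#S : ℝ) ≤ (dsc a2 a1 a0).natAbs := by exact_mod_cast this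
    linarith
  · have h2 := count_cubic hp (m ^ 3) ((3 * ν + a2) * m ^ 2) ((3 * ν ^ 2 + 2 * a2 * ν + a1) * m)
      (fv a2 a1 a0 ν) (fun h => h1 ((Nat.prime_iff_prime_int.1 hp).dvd_of_dvd_pow h)) 0 p hp0.le
      (by simp)
    rw [div_self hp0.ne'] at h2
    refine le_trans (Nat.cast_le.2 (card_le_card_of_injOn (fun j : ℕ => (j : ℤ)) (fun j hj => ?_)
      fun _ _ _ _ h => Nat.cast_injective h)) (h2.trans ?_)
    · refine mem_coe.2 (mem_filter.2 ⟨mem_Ico.2 ⟨Nat.cast_nonneg _, ?_⟩,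
        ((Dvd.intro_left _ rfl).trans (hS j hj)).trans (dvd_of_eq ?_)⟩)
      · exact Int.ofNat_lt.2 (mem_range.1 (mem_filter.1 hj).1)
      · simp only [fv]; ring
    · have : (0 : ℝ) ≤ (dsc a2 a1 a0).natAbs := Nat.cast_nonneg _
      linarith

lemma Wn_mul_norm (hI : Irr a2 a1 a0) (h : ℤ) {m p : ℕ} (hm : 0 < m) (hp : p.Prime) :
    ‖Wn a2 a1 a0 h (m * p)‖ ≤ Kf a2 a1 a0 * rho a2 a1 a0 m := by
  rw [Wn_mul', rho, mul_comm, ← nsmul_eq_mul]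
  exact (norm_sum_le _ _).trans (sum_le_card_nsmul _ _ _ fun ν _ => Tf_norm hI h hm hp ν)

lemma rho_mul (hI : Irr a2 a1 a0) {m p : ℕ} (hm : 0 < m) (hp : p.Prime) :
    (rho a2 a1 a0 (m * p) : ℝ) ≤ Kf a2 a1 a0 * rho a2 a1 a0 m := by
  refine le_trans (le_of_eq ?_) (Wn_mul_norm hI 0 hm hp)
  simp [Wn, rho]

lemma Tf_conj (h : ℤ) {m p q : ℕ} (hm : 0 < m) (hp : 0 < p) (hq : 0 < q) (hc : p.Coprime q)
    (ν : ℤ) : Tf a2 a1 a0 h m p ν * (starRingEnd ℂ) (Tf a2 a1 a0 h m q ν) =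
      Tf a2 a1 a0 (h * (q - p)) m (p * q) ν := by
  have hc' : IsCoprime (p : ℤ) q := Nat.isCoprime_iff_coprime.2 hc
  have hper : ∀ r : ℕ, 0 < r → ∀ x : ℤ, gt a2 a1 a0 h (m * r) (ν + m * (x + r)) =
      gt a2 a1 a0 h (m * r) (ν + m * x) := fun r hr x => by
    rw [← gt_per (Nat.mul_pos hm hr) h (ν + m * x)]
    congr 1
    push_cast
    ring
  rw [Tf, Tf, Tf, map_sum, ← crt_sum hq hc' (fun x => gt a2 a1 a0 h (m * p) (ν + m * x))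
    (fun x => (starRingEnd ℂ) (gt a2 a1 a0 h (m * q) (ν + m * x))) (hper p hp)
    fun x => congrArg _ (hper q hq x)]
  refine sum_congr rfl fun j _ => ?_
  generalize ν + m * j = x
  have hm' : (m : ℤ) ≠ 0 := by exact_mod_cast hm.ne'
  have e : ((m * (p * q) : ℕ) : ℤ) ∣ fv a2 a1 a0 x ↔
      ((m * p : ℕ) : ℤ) ∣ fv a2 a1 a0 x ∧ ((m * q : ℕ) : ℤ) ∣ fv a2 a1 a0 x := by
    push_cast
    refine ⟨fun h => ⟨(mul_dvd_mul_left _ (dvd_mul_right _ _)).trans h,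
      (mul_dvd_mul_left _ (dvd_mul_left _ _)).trans h⟩, fun ⟨h1, h2⟩ => ?_⟩
    obtain ⟨F, hF⟩ := (dvd_mul_right _ _).trans h1
    rw [hF, mul_dvd_mul_iff_left hm'] at h1 h2 ⊢
    exact hc'.mul_dvd h1 h2
  simp only [gt, e]
  by_cases h1 : ((m * p : ℕ) : ℤ) ∣ fv a2 a1 a0 x
  · by_cases h2 : ((m * q : ℕ) : ℤ) ∣ fv a2 a1 a0 x
    · rw [if_pos h1, if_pos h2, if_pos ⟨h1, h2⟩, conj_ee, ← ee_add]
      congr 1
      have : (p : ℝ) ≠ 0 := by exact_mod_cast hp.ne'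
      have : (q : ℝ) ≠ 0 := by exact_mod_cast hq.ne'
      have : (m : ℝ) ≠ 0 := by exact_mod_cast hm.ne'
      push_cast
      field_simp
      ring
    · rw [if_neg h2, if_neg fun h : _ ∧ _ => h2 h.2, map_zero, mul_zero]
  · rw [if_neg h1, if_neg fun h : _ ∧ _ => h1 h.1, zero_mul]

lemma cs_bound (hI : Irr a2 a1 a0) (h : ℤ) (X : ℕ) (P : Finset ℕ) (hP : ∀ p ∈ P, p.Prime)
    (α : ℕ → ℂ) (hα : ∀ m, ‖α m‖ ≤ 1) {E R : ℝ} (hE0 : 0 ≤ E)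
    (hR : ((∑ n ∈ Ioc 0 X, rho a2 a1 a0 n : ℕ) : ℝ) ≤ R)
    (hE : ∀ p ∈ P, ∀ q ∈ P, p ≠ q →
      ‖∑ m ∈ Ioc 0 X, Wn a2 a1 a0 (h * (q - p)) (m * (p * q))‖ ≤ E) :
    ‖∑ m ∈ Ioc 0 X, α m * ∑ p ∈ P, Wn a2 a1 a0 h (m * p)‖ ^ 2 ≤
      R * (Kf a2 a1 a0 ^ 2 * #P * R + #P ^ 2 * E) := by
  set S := (Ioc 0 X).sigma fun m => (range m).filter fun ν : ℕ => (m : ℤ) ∣ fv a2 a1 a0 ν
  have hS : (#S : ℝ) ≤ R := by rw [card_sigma]; exact hR
  have hS0 : ∀ s ∈ S, 0 < s.1 := fun s hs => (mem_Ioc.1 (mem_sigma.1 hs).1).1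
  have e1 : ‖∑ m ∈ Ioc 0 X, α m * ∑ p ∈ P, Wn a2 a1 a0 h (m * p)‖ ≤
      ∑ s ∈ S, ‖∑ p ∈ P, Tf a2 a1 a0 h s.1 p s.2‖ := by
    rw [sum_sigma]
    refine (norm_sum_le _ _).trans (sum_le_sum fun m _ => ?_)
    simp only [Wn_mul']
    rw [norm_mul, sum_comm]
    exact (mul_le_of_le_one_left (norm_nonneg _) (hα m)).trans (norm_sum_le _ _)
  have e2 : ∑ s ∈ S, ‖∑ p ∈ P, Tf a2 a1 a0 h s.1 p s.2‖ ^ 2 ≤
      Kf a2 a1 a0 ^ 2 * #P * R + #P ^ 2 * E := by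
    have e3 : ((∑ s ∈ S, ‖∑ p ∈ P, Tf a2 a1 a0 h s.1 p s.2‖ ^ 2 : ℝ) : ℂ) = ∑ p ∈ P, ∑ q ∈ P,
        ∑ s ∈ S, Tf a2 a1 a0 h s.1 p s.2 * (starRingEnd ℂ) (Tf a2 a1 a0 h s.1 q s.2) := by
      push_cast
      simp only [← Complex.mul_conj', map_sum, sum_mul_sum]
      rw [sum_comm]
      exact sum_congr rfl fun _ _ => sum_comm
    have e4 := congrArg norm e3
    rw [Complex.norm_real] at e4
    refine (le_abs_self _).trans (e4.le.trans ((norm_sum_le _ _).trans ((sum_le_card_nsmul _ _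
      (Kf a2 a1 a0 ^ 2 * R + #P * E) fun p hp => ?_).trans (le_of_eq ?_))))
    · refine (norm_sum_le _ _).trans ((sum_le_sum (g := fun q =>
        (if q = p then (Kf a2 a1 a0 : ℝ) ^ 2 * R else 0) + E) fun q hq => ?_).trans ?_)
      · split_ifs with h1
        · refine le_add_of_le_of_nonneg ((norm_sum_le _ _).trans ((sum_le_card_nsmul _ _
            ((Kf a2 a1 a0 : ℝ) ^ 2) fun s hs => ?_).trans ?_)) hE0
          · rw [norm_mul, Complex.norm_conj, sq]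
            exact mul_le_mul (Tf_norm hI h (hS0 s hs) (hP p hp) _)
              (Tf_norm hI h (hS0 s hs) (hP q hq) _) (norm_nonneg _) (Nat.cast_nonneg _)
          · rw [nsmul_eq_mul, mul_comm]
            exact mul_le_mul_of_nonneg_left hS (sq_nonneg _)
        · rw [zero_add]
          refine le_trans (le_of_eq (congrArg _ ?_)) (hE p hp q hq (Ne.symm h1))
          rw [sum_congr rfl fun s hs => Tf_conj h (hS0 s hs) (hP p hp).pos (hP q hq).pos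
            ((Nat.coprime_primes (hP p hp) (hP q hq)).2 (Ne.symm h1)) _, sum_sigma]
          simp only [Wn_mul']
      · rw [sum_add_distrib, sum_ite_eq', if_pos hp, sum_const, nsmul_eq_mul]
    · rw [nsmul_eq_mul]; ring
  refine (pow_le_pow_left₀ (norm_nonneg _) e1 2).trans (sq_sum_le_card_mul_sum_sq.trans ?_)
  exact mul_le_mul hS e2 (sum_nonneg fun _ _ => sq_nonneg _) ((Nat.cast_nonneg _).trans hS)

lemma sum_dvd {β : Type} [AddCommMonoid β] (F : ℕ → β) (Y : ℕ) {d : ℕ} (hd : 0 < d) :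
    ∑ n ∈ Ioc 0 Y, (if d ∣ n then F n else 0) = ∑ m ∈ Ioc 0 (Y / d), F (m * d) := by
  rw [← sum_filter]
  refine (sum_nbij (fun m => m * d) (fun m hm => ?_)
    (fun _ _ _ _ h => Nat.eq_of_mul_eq_mul_right hd h) (fun n hn => ?_) fun _ _ => rfl).symm
  · obtain ⟨h1, h2⟩ := mem_Ioc.1 hm
    exact mem_filter.2 ⟨mem_Ioc.2 ⟨Nat.mul_pos h1 hd, (Nat.le_div_iff_mul_le hd).1 h2⟩,
      dvd_mul_left _ _⟩
  · obtain ⟨h1, m, rfl⟩ := mem_filter.1 hn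
    obtain ⟨h2, h3⟩ := mem_Ioc.1 h1
    exact ⟨m, mem_coe.2 (mem_Ioc.2 ⟨Nat.pos_of_mul_pos_left h2,
      (Nat.le_div_iff_mul_le hd).2 (mul_comm d m ▸ h3)⟩), mul_comm _ _⟩

/-- the facts about Weyl sums that are used below. -/
def TypeI (a2 a1 a0 : ℤ) (C : ℝ) (x : ℕ) (w : ℝ) : Prop :=
  1 ≤ w ∧ w ≤ x ∧ (∀ X : ℕ, ((∑ n ∈ Ioc 0 X, rho a2 a1 a0 n : ℕ) : ℝ) ≤ C * X) ∧
    ∀ X : ℕ, x ≤ X → (X : ℝ) ≤ x * w ^ 2 → ∀ h : ℤ, h ≠ 0 → |(h : ℝ)| ≤ w ^ 2 →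
      ∀ d : ℕ, 0 < d → (d : ℝ) ≤ w ^ 2 →
        ‖∑ n ∈ Ioc 0 X, if d ∣ n then Wn a2 a1 a0 h n else 0‖ ≤ C * (x / w ^ 6)

lemma typeI (hI : Irr a2 a1 a0) : ∃ η C : ℝ, 0 < η ∧ 0 ≤ C ∧
    ∀ x : ℕ, 1 ≤ x → TypeI a2 a1 a0 C x (x ^ η) := by
  obtain ⟨-, -, C1, -, hC1, -, hρ, -⟩ := core hI
  obtain ⟨η, hη, C, H⟩ := weyl hI
  have h1 : 0 < min η 1 := lt_min hη one_pos
  have h2 := min_le_left η 1
  have h3 := min_le_right η 1
  generalize min η 1 = θ at h1 h2 h3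
  refine ⟨θ / 8, C1 + |C|, by positivity, by positivity, fun x hx => ?_⟩
  have hx1 : (1 : ℝ) ≤ x := by exact_mod_cast hx
  have hw : (1 : ℝ) ≤ x ^ (θ / 8) := Real.one_le_rpow hx1 (by positivity)
  have h8 : ((x : ℝ) ^ (θ / 8)) ^ 8 ≤ x ^ η := by
    rw [← Real.rpow_mul_natCast (by positivity)]
    exact Real.rpow_le_rpow_of_exponent_le hx1 (by push_cast; linarith)
  refine ⟨hw, Real.rpow_le_self_of_one_le hx1 (by linarith), fun X => (hρ X).trans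
    (mul_le_mul_of_nonneg_right (le_add_of_nonneg_right (abs_nonneg _)) (Nat.cast_nonneg _)),
    fun X x1 x2 h h0 hh d d0 hd => ?_⟩
  generalize (x : ℝ) ^ (θ / 8) = w at hw h8 x2 hh hd
  have x3 : (x : ℝ) ≤ X := by exact_mod_cast x1
  have h9 := h8.trans (Real.rpow_le_rpow (by positivity) x3 hη.le)
  have h10 := (pow_le_pow_right₀ hw (by norm_num : 2 ≤ 8)).trans h9
  have := H X (hx1.trans x3) h h0 (hh.trans h10) d d0 (hd.trans h10)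
  rw [Nat.floor_natCast, Real.rpow_sub (by linarith), Real.rpow_one] at this
  refine this.trans (mul_le_mul ((le_abs_self C).trans (le_add_of_nonneg_left hC1)) ?_
    (by positivity) (by positivity))
  calc _ ≤ x * w ^ 2 / w ^ 8 := by gcongr
    _ = _ := by field_simp

end Pool.Agent.Lib.MP_d315f4_nt.W
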