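import Pool.Agent.Lib.MP_d315f4_nt.W.Lat
import Pool.Agent.Lib.MP_d315f4_nt.NF3

/-!
A power saving for the Weyl sums of the roots of a cubic congruence.
-/

set_option autoImplicit false
set_option maxHeartbeats 400000

open Finset Filter

namespace Pool.Agent.Lib.MP_d315f4_nt.W

variable {a2 a1 a0 : ℤ}

/-- the Weyl sum for one modulus. -/
noncomputable def Wn (a2 a1 a0 h : ℤ) (n : ℕ) : ℂ :=
  ∑ ν ∈ range n, if (n : ℤ) ∣ fv a2 a1 a0 ν then ee (h * (ν : ℤ) / n) else 0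

lemma Wn_norm (h : ℤ) (n : ℕ) : ‖Wn a2 a1 a0 h n‖ ≤ rho a2 a1 a0 n := by
  rw [Wn, ← sum_filter]
  refine (norm_sum_le _ _).trans (le_of_eq ?_)
  simp only [norm_ee, sum_const, nsmul_eq_mul, mul_one, rho]

lemma one_mod {n N : ℕ} (hn : 0 < n) (h : ℤ) {B : ℝ}
    (hB : ∀ ν : ℤ, (n : ℤ) ∣ fv a2 a1 a0 ν →
      |(n : ℝ) * #{p ∈ Bx N 1 N | (n : ℤ) ∣ p.1 + p.2.1 * ν + p.2.2 * ν ^ 2} - vol N| ≤ B) :
    ‖∑ p ∈ Bx N 1 N, Rt a2 a1 a0 p.1 p.2.1 p.2.2 n h - vol N * (Wn a2 a1 a0 h n / n)‖ ≤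
      rho a2 a1 a0 n * (B / n) := by
  have hn' : (0 : ℝ) < n := by exact_mod_cast hn
  have hn'' : (n : ℂ) ≠ 0 := by exact_mod_cast hn.ne'
  simp only [Rt, Wn]
  rw [sum_comm, sum_div, mul_sum, ← sum_sub_distrib, rho, ← nsmul_eq_mul, ← sum_const, sum_filter]
  refine (norm_sum_le _ _).trans (sum_le_sum fun ν _ => ?_)
  split_ifs with h1
  · simp only [h1, true_and]
    rw [← sum_filter, sum_const, nsmul_eq_mul]
    have := hB ν h1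
    generalize #{p ∈ Bx N 1 N | (n : ℤ) ∣ p.1 + p.2.1 * ν + p.2.2 * (ν : ℤ) ^ 2} = r at this ⊢
    rw [show (r : ℂ) * ee (h * (ν : ℤ) / n) - vol N * (ee (h * (ν : ℤ) / n) / n) =
      ((n * r - vol N : ℝ) : ℂ) * ee (h * (ν : ℤ) / n) / n by push_cast; field_simp, norm_div,
      norm_mul, norm_ee, mul_one, Complex.norm_real, Complex.norm_natCast]
    exact div_le_div_of_nonneg_right this hn'.le
  · simp [h1]

lemma many_mod {y1 t d N : ℕ} (hy : 0 < y1) (h : ℤ) {B : ℝ} (hB0 : 0 ≤ B)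
    (hB : ∀ n ∈ Ioc y1 t, ∀ ν : ℤ, (n : ℤ) ∣ fv a2 a1 a0 ν →
      |(n : ℝ) * #{p ∈ Bx N 1 N | (n : ℤ) ∣ p.1 + p.2.1 * ν + p.2.2 * ν ^ 2} - vol N| ≤ B) :
    ‖bc N (Uf a2 a1 a0 y1 t d h) -
      vol N * ∑ n ∈ Ioc y1 t, if d ∣ n then Wn a2 a1 a0 h n / n else 0‖ ≤
      (∑ n ∈ Ioc 0 t, rho a2 a1 a0 n : ℕ) * (B / y1) := by
  simp only [bc_eq, Uf]
  rw [sum_comm, mul_sum, ← sum_sub_distrib, Nat.cast_sum, sum_mul]
  refine (norm_sum_le _ _).trans ((sum_le_sum fun n hn => ?_).trans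
    (sum_le_sum_of_subset_of_nonneg (Ioc_subset_Ioc_left (Nat.zero_le y1))
      fun _ _ _ => by positivity))
  have h1 := (mem_Ioc.1 hn).1
  split_ifs
  · refine (one_mod (by omega) h (hB n hn)).trans ?_
    gcongr
  · simp only [sum_const_zero, mul_zero, sub_zero, norm_zero]
    positivity

lemma sum_Ioc_range (g : ℕ → ℂ) (y m : ℕ) :
    ∑ n ∈ Ioc y (y + m), g n = ∑ i ∈ range m, g (y + 1 + i) := by
  rw [show Ioc y (y + m) = Ico (y + 1) (y + 1 + m) by ext; simp only [mem_Ioc, mem_Ico]; omega,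
    sum_Ico_eq_sum_range, Nat.add_sub_cancel_left]

theorem core (hI : Irr a2 a1 a0) : ∃ (E U0 : ℕ) (C1 C : ℝ), 0 ≤ C1 ∧ 0 ≤ C ∧
    (∀ X : ℕ, ((∑ n ∈ Ioc 0 X, rho a2 a1 a0 n : ℕ) : ℝ) ≤ C1 * X) ∧
    ∀ U, U0 ≤ U → ∀ X : ℕ, U ^ E ≤ X → X ≤ U ^ (E + 1) → ∀ h : ℤ, h ≠ 0 → |h| ≤ U →
      ∀ d : ℕ, 0 < d → d ≤ U →
        ‖∑ n ∈ Ioc 0 X, if d ∣ n then Wn a2 a1 a0 h n else 0‖ ≤ C * (X / U) := by
  obtain ⟨H0, hH, h2, h1, h0⟩ : ∃ H0 : ℕ, 1 ≤ H0 ∧ |a2| ≤ H0 ∧ |a1| ≤ H0 ∧ |a0| ≤ H0 := by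
    refine ⟨a2.natAbs + a1.natAbs + a0.natAbs + 1, by omega, ?_⟩
    simp only [← Int.natCast_natAbs]
    omega
  obtain ⟨R, hR⟩ : ∃ R : ℕ, R = 2 ^ 27 := ⟨_, rfl⟩
  have hR1 : 10000 ≤ R := by rw [hR]; norm_num
  obtain ⟨e, he⟩ : ∃ e, 400 * R ≤ e := ⟨_, le_rfl⟩
  obtain ⟨m, hm⟩ : ∃ m, 300 * e = m + 3 := ⟨300 * e - 3, by omega⟩
  obtain ⟨E, hE⟩ : ∃ E, 3 * m = E + 2 := ⟨3 * m - 2, by omega⟩
  obtain ⟨C1, hC1⟩ : ∃ C1 : ℕ, C1 = 27 * ((2 * (17 * H0 ^ 2) + 1) * (17 * H0 ^ 2)) := ⟨_, rfl⟩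
  have hρ : ∀ X : ℕ, ((∑ n ∈ Ioc 0 X, rho a2 a1 a0 n : ℕ) : ℝ) ≤ C1 * X := fun X => by
    exact_mod_cast hC1 ▸ sum_rho hI hH h2 h1 h0 rfl X
  obtain ⟨c1, hc1, e2⟩ := window hI (159 * e) (165 * e) (by omega)
  obtain ⟨c2, hc2, e3⟩ := window hI (165 * e) (171 * e) (by omega)
  obtain ⟨U0, hU0⟩ := eventually_atTop.1 (e2.and (e3.and
    ((tendsto_natCast_atTop_atTop.eventually (eventually_ge_atTop (200 / (c1 * c2)))).and
    (eventually_ge_atTop (4 ^ 12 + 40 * H0 ^ 2 + (dsc a2 a1 a0).natAbs + 6 * e)))))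
  refine ⟨E + 1, U0, C1, C1 + 3 * (10 + 644 * H0 ^ 2 * C1), by positivity, by positivity, hρ,
    fun U hU X hX1 hX2 h hh0 hh d hd0 hd => ?_⟩
  obtain ⟨b2, b3, b4, b5⟩ := hU0 U hU
  set A1 := (Ioc (U ^ (159 * e)) (U ^ (165 * e))).filter fun p => p.Prime ∧ 1 ≤ rho a2 a1 a0 p
  set A2 := (Ioc (U ^ (165 * e)) (U ^ (171 * e))).filter fun p => p.Prime ∧ 1 ≤ rho a2 a1 a0 p
  have hA : ∀ i ∈ A1 ×ˢ A2, ((U ^ (159 * e) < i.1 ∧ i.1 ≤ U ^ (165 * e)) ∧ i.1.Prime ∧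
      1 ≤ rho a2 a1 a0 i.1) ∧ (U ^ (165 * e) < i.2 ∧ i.2 ≤ U ^ (171 * e)) ∧ i.2.Prime ∧
      1 ≤ rho a2 a1 a0 i.2 := fun i hi => by
    simpa only [A1, A2, mem_product, mem_filter, mem_Ioc] using hi
  obtain ⟨ν, hν⟩ := exists_root (A1 ×ˢ A2) fun i hi => by
    obtain ⟨⟨⟨-, d1⟩, d2, d3⟩, ⟨d4, -⟩, d5, d6⟩ := hA i hi
    exact ⟨d2, d5, (d1.trans_lt d4).ne, d3, d6⟩
  have hU4 : 4 ^ 12 ≤ U := by omega
  have hU1 : 1 ≤ U := by omega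
  have hu : (4 : ℝ) ^ 12 ≤ U := by exact_mod_cast hU4
  have hu1 : (1 : ℝ) < U := by linarith
  have hu0 : (0 : ℝ) < U := by linarith
  obtain ⟨N, hN⟩ : ∃ N, N = U ^ (300 * e) := ⟨_, rfl⟩
  obtain ⟨M, hM⟩ : ∃ M, M = U ^ m := ⟨_, rfl⟩
  have hNM : N = U ^ 3 * M := by rw [hN, hM, hm, pow_add, mul_comm]
  have hM1 : 1 ≤ M := hM ▸ Nat.pow_pos hU1
  have hXM : X ≤ M ^ 3 := by rwa [hM, ← pow_mul, mul_comm, hE]
  obtain ⟨y1, hy⟩ : ∃ y1, y1 = X / U := ⟨_, rfl⟩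
  have y2 : U ^ E ≤ y1 := hy ▸ (Nat.le_div_iff_mul_le hU1).2 (by rwa [← pow_succ])
  have y3 : 0 < y1 := (Nat.pow_pos hU1).trans_le y2
  have y4 : y1 * U ≤ X := hy ▸ Nat.div_mul_le_self _ _
  have y5 : X ≤ 2 * U * y1 := by
    have := Nat.lt_mul_div_succ X hU1
    rw [← hy] at this
    nlinarith
  have y6 : y1 ≤ X := le_trans (Nat.le_mul_of_pos_right _ hU1) y4
  have hN1 : 1 ≤ N := hN ▸ Nat.pow_pos hU1
  have n1 : (1 : ℝ) ≤ N := by exact_mod_cast hN1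
  have key : ∀ t, y1 ≤ t → t ≤ X →
      ‖∑ n ∈ Ioc y1 t, if d ∣ n then Wn a2 a1 a0 h n / n else 0‖ ≤
        (10 + 644 * H0 ^ 2 * C1) / U := by
    intro t t1 t2
    have k1 := box_at hI hH h2 h1 h0 hR he hU4 (by omega) (by omega) (A1 ×ˢ A2) ν (fun i hi => by
        obtain ⟨⟨⟨d0, d1⟩, d2, -⟩, ⟨d4, d7⟩, d5, -⟩ := hA i hi
        exact ⟨d2, d5, d0, d1, d4, d7, hν i hi⟩) t1
      (le_trans (pow_le_pow_right₀ hU1 (by omega)) y2) hd0 hd hh0 hh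
      (by rw [← Int.natCast_natAbs]; omega) (by
      have d1 : 200 / (U : ℝ) ≤ c1 * c2 := by
        rw [div_le_iff₀ (by positivity)] at b4 ⊢
        linarith
      refine (d1.trans (mul_le_mul b2 b3 hc2.le (hc1.le.trans b2))).trans (le_of_eq ?_)
      rw [sum_mul_sum, sum_product]
      refine sum_congr rfl fun _ _ => sum_congr rfl fun _ _ => ?_
      rw [Nat.cast_mul, div_mul_div_comm, one_mul]) hN
    have k2 : bc N (Uf a2 a1 a0 y1 t d h) = bc N (Wf a2 a1 a0 (U ^ 12) y1 t d h) := by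
      rw [bc_eq, bc_eq]
      refine sum_congr rfl fun p hp => ?_
      obtain ⟨p1, p2, p3⟩ := mem_Bx.1 hp
      refine Uf_eq h (hI.nm_ne fun a => by omega) ((nm_bd (Y := N) (by exact_mod_cast hH) h2 h1 h0
        (abs_le.2 p1) (abs_le.2 p2) (abs_le.2 (by omega))).trans ?_)
      have : 17 * (H0 ^ 2 * N ^ 3) ≤ U ^ 12 * y1 :=
        calc _ = 17 * H0 ^ 2 * U ^ (300 * e * 3) := by rw [hN, ← pow_mul]; ring
          _ ≤ U ^ (12 + E) := pw hU1 (by omega) (by omega)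
          _ ≤ _ := by rw [pow_add]; exact Nat.mul_le_mul_left _ y2
      exact_mod_cast this
    have k3 := many_mod (d := d) (N := N) (t := t) y3 h (B := 46 * (7 * H0 ^ 2 * M : ℕ) * N ^ 2)
      (by positivity) fun n hn ν hν => lat_count (y3.trans (mem_Ioc.1 hn).1) (by
        rw [hNM]
        calc _ = 14 * H0 ^ 2 * M := by ring
          _ ≤ U ^ 3 * M := Nat.mul_le_mul_right _
            (le_trans (by omega) (le_self_pow₀ hU1 (by norm_num)))) hN1 ν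
        (reps hI hH h2 h1 h0 (y3.trans (mem_Ioc.1 hn).1) (((mem_Ioc.1 hn).2.trans
          (t2.trans hXM)).trans_lt (Nat.pow_lt_pow_left (by omega) (by norm_num))) hν)
    have k4 : ((∑ n ∈ Ioc 0 t, rho a2 a1 a0 n : ℕ) : ℝ) *
        (46 * (7 * H0 ^ 2 * M : ℕ) * N ^ 2 / y1) ≤ 644 * H0 ^ 2 * C1 * (N ^ 3 / U) := by
      have a1 : (t : ℝ) ≤ 2 * U * y1 := by exact_mod_cast t2.trans y5
      have a2 : (M : ℝ) ≤ N / U ^ 2 := by
        rw [le_div_iff₀ (by positivity), mul_comm]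
        have : U ^ 2 * M ≤ N := hNM ▸ Nat.mul_le_mul_right _ (pow_le_pow_right₀ hU1 (by norm_num))
        exact_mod_cast this
      have a3 : (0 : ℝ) < y1 := by exact_mod_cast y3
      push_cast
      calc _ ≤ C1 * (2 * U * y1) * (46 * (7 * H0 ^ 2 * (N / U ^ 2 : ℝ)) * N ^ 2 / y1) := by
            gcongr
            exact ((Nat.cast_sum _ _).ge.trans (hρ t)).trans (by gcongr)
        _ = _ := by field_simp; ring
    have k5 : (N : ℝ) ^ 3 ≤ vol N := by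
      rw [vol, pow_succ]
      gcongr
      linarith
    have k6 : (N : ℝ) ^ 3 / U ^ 3 ≤ N ^ 3 / U :=
      div_le_div_of_nonneg_left (by positivity) hu0 (le_self_pow₀ hu1.le (by norm_num))
    generalize (∑ n ∈ Ioc y1 t, if d ∣ n then Wn a2 a1 a0 h n / n else 0) = A at k3 ⊢
    have k7 := norm_sub_le (bc N (Uf a2 a1 a0 y1 t d h)) (bc N (Uf a2 a1 a0 y1 t d h) - vol N * A)
    rw [sub_sub_cancel, norm_mul, Complex.norm_real, Real.norm_eq_abs] at k7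
    refine le_of_mul_le_mul_left ?_ (by positivity : (0 : ℝ) < N ^ 3)
    rw [← k2] at k1
    calc _ ≤ |vol N| * ‖A‖ := mul_le_mul_of_nonneg_right (k5.trans (le_abs_self _)) (norm_nonneg _)
      _ ≤ 10 * (N ^ 3 / U) + 644 * H0 ^ 2 * C1 * (N ^ 3 / U) := by linarith
      _ = _ := by ring
  obtain ⟨r, rfl⟩ := Nat.exists_eq_add_of_le y6
  have k1 := abel' (fun i => (y1 + 1 + i : ℕ)) (fun i => if d ∣ y1 + 1 + i then
    Wn a2 a1 a0 h (y1 + 1 + i) / (y1 + 1 + i : ℕ) else 0) _ r fun j hj => by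
      have := key (y1 + j) (by omega) (by omega)
      rwa [sum_Ioc_range] at this
  have k2 : ‖∑ n ∈ Ioc 0 y1, if d ∣ n then Wn a2 a1 a0 h n else 0‖ ≤ C1 * ((y1 + r : ℕ) / U) := by
    refine (norm_sum_le _ _).trans ((sum_le_sum (g := fun n => (rho a2 a1 a0 n : ℝ))
      fun n _ => ?_).trans (((Nat.cast_sum _ _).ge.trans (hρ y1)).trans ?_))
    · split_ifs
      · exact Wn_norm h n
      · simp
    · gcongr
      rw [le_div_iff₀ hu0]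
      exact_mod_cast y4
  have k3 : |((y1 + 1 + r : ℕ) : ℝ)| + ∑ i ∈ range r,
      |((y1 + 1 + (i + 1) : ℕ) : ℝ) - (y1 + 1 + i : ℕ)| ≤ 3 * (y1 + r : ℕ) := by
    rw [Nat.abs_cast, sum_congr rfl fun i _ => show |((y1 + 1 + (i + 1) : ℕ) : ℝ) -
      (y1 + 1 + i : ℕ)| = 1 by push_cast; simp, sum_const, card_range, nsmul_eq_mul, mul_one]
    exact_mod_cast (by omega)
  rw [← sum_Ioc_consecutive _ (Nat.zero_le y1) (Nat.le_add_right y1 r), sum_Ioc_range]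
  rw [sum_congr rfl (g := fun i => if d ∣ y1 + 1 + i then Wn a2 a1 a0 h (y1 + 1 + i) else 0)
    fun i _ => by
      have : ((y1 + 1 + i : ℕ) : ℂ) ≠ 0 := by exact_mod_cast (by omega)
      split_ifs
      · rw [Complex.ofReal_natCast, mul_div_cancel₀ _ this]
      · simp] at k1
  refine (norm_add_le _ _).trans ((add_le_add k2 (k1.trans
    (mul_le_mul_of_nonneg_left k3 (by positivity)))).trans (le_of_eq (by ring)))

theorem weyl (hI : Irr a2 a1 a0) : ∃ η : ℝ, 0 < η ∧ ∃ C : ℝ, ∀ x : ℝ, 1 ≤ x → ∀ h : ℤ, h ≠ 0 →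
    |(h : ℝ)| ≤ x ^ η → ∀ d : ℕ, 0 < d → (d : ℝ) ≤ x ^ η →
      ‖∑ n ∈ Ioc 0 ⌊x⌋₊, if d ∣ n then Wn a2 a1 a0 h n else 0‖ ≤ C * x ^ (1 - η) := by
  obtain ⟨E, U0, C1, C, hC1, hC, hρ, H⟩ := core hI
  refine ⟨((E + 1 : ℕ) : ℝ)⁻¹, by positivity, C1 * (U0 + 2 ^ (E + 1) : ℕ) + C,
    fun x hx h hh0 hh d hd0 hd => ?_⟩
  have hx0 : 0 < x := by linarith
  rw [Real.rpow_sub hx0, Real.rpow_one]
  obtain ⟨y, hy⟩ : ∃ y, y = x ^ ((E + 1 : ℕ) : ℝ)⁻¹ := ⟨_, rfl⟩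
  have y1 : 1 ≤ y := hy ▸ Real.one_le_rpow hx (by positivity)
  have y2 : y ^ (E + 1) = x := hy ▸ Real.rpow_inv_natCast_pow hx0.le (by omega)
  have y3 := Nat.le_ceil y
  have y4 := Nat.ceil_lt_add_one (zero_le_one.trans y1)
  rw [← hy] at hh hd ⊢
  generalize ⌈y⌉₊ = U at y3 y4
  have y5 := Nat.floor_le hx0.le
  have y6 : 0 ≤ x / y := by positivity
  have hu0 : (0 : ℝ) < U := by linarith
  rw [add_mul]
  rcases lt_or_ge U (U0 + 2 ^ (E + 1)) with h1 | h1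
  · refine le_add_of_le_of_nonneg ?_ (by positivity)
    refine (norm_sum_le _ _).trans ((sum_le_sum (g := fun n => (rho a2 a1 a0 n : ℝ))
      fun n _ => ?_).trans (((Nat.cast_sum _ _).ge.trans (hρ ⌊x⌋₊)).trans ?_))
    · split_ifs
      · exact Wn_norm h n
      · simp
    · rw [mul_assoc]
      refine mul_le_mul_of_nonneg_left (y5.trans ?_) hC1
      calc x = y * (x / y) := by field_simp
        _ ≤ _ := mul_le_mul_of_nonneg_right (y3.trans (by exact_mod_cast h1.le)) y6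
  · refine le_add_of_nonneg_of_le (by positivity) ((H U ((Nat.le_add_right _ _).trans h1) ⌊x⌋₊
      (Nat.le_floor ?_) ?_ h hh0 (by exact_mod_cast hh.trans y3) d hd0 (by exact_mod_cast hd.trans y3)).trans ?_)
    · have d1 : (U : ℝ) ^ (E + 1) ≤ 2 ^ (E + 1) * x := by
        rw [← y2, ← mul_pow]
        exact pow_le_pow_left₀ hu0.le (by linarith) _
      have d2 : (2 : ℝ) ^ (E + 1) ≤ U := by exact_mod_cast (Nat.le_add_left _ _).trans h1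
      refine le_of_mul_le_mul_left ?_ hu0
      push_cast
      rw [← pow_succ']
      exact d1.trans (mul_le_mul_of_nonneg_right d2 hx0.le)
    · exact_mod_cast y5.trans (y2 ▸ pow_le_pow_left₀ (by linarith) y3 (E + 1))
    · gcongr

end Pool.Agent.Lib.MP_d315f4_nt.W
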